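import Pool.Agent.Lib_helper40.UP.Prime

/-!
# The independence of the Siegel numbers in coordinates
-/

set_option autoImplicit false
set_option linter.unusedSectionVars false

namespace Pool.Agent.FK4

open WeierstrassCurve.Affine

section

variable {k : Type*} [Field k] [DecidableEq k] {W : WeierstrassCurve.Affine k}
  {H : AddSubgroup W.Point} [Fintype H]

open GK (dl)

lemma gam_some {x y : k} (h : W.Nonsingular x y) (hH : Point.some x y h ∈ H) :
    GK.gam H ⟨_, hH⟩ = - gam H (Point.some x y h) := by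
  classical
  set a : W.Point := Point.some x y h with ha
  have ha0 : a ≠ 0 := Point.some_ne_zero _
  -- the factors
  have f0 : dl a 0 = -1 := by
    unfold GK.dl
    rw [if_neg, GK.dx_right_zero ha0]
    rintro (e | e)
    · exact ha0 e
    · exact ha0 (e.trans neg_zero)
  have f1 : dl a a = K4M.pc a := by unfold GK.dl; rw [if_pos (Or.inl rfl)]
  have f2 : dl a (-a) = K4M.pc a := by
    unfold GK.dl; rw [if_pos (Or.inr (neg_neg a).symm)]
  have key : ∀ c : H, dl a (c : W.Point) =
      (if (c : W.Point) = 0 ∨ (c : W.Point) = a ∨ (c : W.Point) = -a then 1 else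
        x - absc (c : W.Point)) *
      ((if c = 0 then -1 else 1) * ((if c = ⟨a, hH⟩ then K4M.pc a else 1) *
        (if c = -⟨a, hH⟩ ∧ c ≠ ⟨a, hH⟩ then K4M.pc a else 1))) := by
    rintro ⟨c, hc⟩
    have z1 : ((⟨c, hc⟩ : H) = 0) ↔ c = 0 := by
      rw [Subtype.ext_iff]; rfl
    have z2 : ((⟨c, hc⟩ : H) = ⟨a, hH⟩) ↔ c = a := by
      rw [Subtype.ext_iff]
    have z3 : ((⟨c, hc⟩ : H) = -⟨a, hH⟩) ↔ c = -a := by
      rw [Subtype.ext_iff]; rfl
    simp only [z1, z2, z3, ne_eq]
    by_cases h0 : c = 0
    · subst h0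
      rw [if_pos (Or.inl rfl), if_pos rfl, if_neg (fun e => ha0 e.symm),
        if_neg (fun e => ha0 (neg_eq_zero.mp e.1.symm)), f0]
      ring
    by_cases h1 : c = a
    · subst h1
      rw [if_pos (Or.inr (Or.inl rfl)), if_neg h0, if_pos rfl, if_neg (fun e => e.2 rfl), f1]
      ring
    by_cases h2 : c = -a
    · subst h2
      rw [if_pos (Or.inr (Or.inr rfl)), if_neg h0, if_neg h1, if_pos ⟨rfl, h1⟩, f2]
      ring
    · rw [if_neg (by tauto), if_neg h0, if_neg h1, if_neg (fun e => h2 e.1)]
      have e1 : dl a c = K4M.dx a c := by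
        unfold GK.dl
        rw [if_neg]
        rintro (e | e)
        · exact h1 e.symm
        · exact h2 (by rw [e, neg_neg])
      rw [e1]
      rcases c with _ | ⟨x', y', h'⟩
      · exact absurd rfl h0
      · show x * 1 - 1 * x' = (x - x') * _
        ring
  have hps : (2 * y + W.a₁ * x + W.a₃ = 0) ↔ a + a = 0 := K4M.ps_eq_zero_iff (a := a) ha0
  have hphi : K4M.ph a = 3 * x ^ 2 + 2 * W.a₂ * x + W.a₄ - W.a₁ * y := rfl
  have hpsi : K4M.ps a = 2 * y + W.a₁ * x + W.a₃ := rfl
  unfold GK.gam
  rw [Finset.prod_congr rfl fun c _ => key c, Finset.prod_mul_distrib, Finset.prod_mul_distrib,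
    Finset.prod_mul_distrib, Finset.prod_ite_eq', if_pos (Finset.mem_univ _), Finset.prod_ite_eq',
    if_pos (Finset.mem_univ _)]
  have last : ∏ c : H, (if c = -⟨a, hH⟩ ∧ c ≠ ⟨a, hH⟩ then K4M.pc a else 1) =
      if a + a = 0 then 1 else K4M.pc a := by
    by_cases h2 : a + a = 0
    · rw [if_pos h2]
      apply Finset.prod_eq_one
      intro c _
      rw [if_neg]
      rintro ⟨e1, e2⟩
      apply e2
      rw [e1]
      apply Subtype.ext
      show -a = a
      exact neg_eq_of_add_eq_zero_left h2
    · rw [if_neg h2]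
      have : ∀ c : H, (if c = -⟨a, hH⟩ ∧ c ≠ ⟨a, hH⟩ then K4M.pc a else 1) =
          if c = -⟨a, hH⟩ then K4M.pc a else 1 := by
        intro c
        by_cases h3 : c = -⟨a, hH⟩
        · have h4 : c ≠ ⟨a, hH⟩ := by
            intro h5
            apply h2
            rw [h5] at h3
            have h6 : a = -a := congrArg Subtype.val h3
            nth_rewrite 2 [h6]
            exact add_neg_cancel a
          rw [if_pos ⟨h3, h4⟩, if_pos h3]
        · rw [if_neg (fun e => h3 e.1), if_neg h3]
      rw [Finset.prod_congr rfl fun c _ => this c, Finset.prod_ite_eq',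
        if_pos (Finset.mem_univ _)]
  rw [last]
  show _ = -((if 2 * y + W.a₁ * x + W.a₃ = 0 then
        3 * x ^ 2 + 2 * W.a₂ * x + W.a₄ - W.a₁ * y else (2 * y + W.a₁ * x + W.a₃) ^ 2) *
      ∏ c : H, if (c : W.Point) = 0 ∨ (c : W.Point) = a ∨
        (c : W.Point) = -a then 1 else x - absc (c : W.Point))
  by_cases h2 : a + a = 0
  · have e1 : K4M.pc a = K4M.ph a := by unfold K4M.pc; rw [if_pos h2]
    rw [if_pos h2, if_pos (hps.mpr h2), e1, hphi]
    ring
  · have e1 : K4M.pc a = K4M.ps a := by unfold K4M.pc; rw [if_neg h2]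
    rw [if_neg h2, if_neg (fun e => h2 (hps.mp e)), e1, hpsi]
    ring

/-- **the two forms of the independence agree** -/
theorem siegelIndep_iff : SiegelIndep H ↔ GK.SiegelIndep H := by
  classical
  have key : ∀ e : H → ℤ, e 0 = 0 → ∑ a, e a = 0 →
      ∏ a : H, GK.gam H a ^ e a = ∏ a : H, gam H (a : W.Point) ^ e a := by
    intro e e0 es
    have h1 : ∀ a : H, GK.gam H a ^ e a = (-1 : k) ^ e a * gam H (a : W.Point) ^ e a := by
      rintro ⟨a, ha⟩
      rcases a with _ | ⟨x, y, h⟩
      · have : e ⟨Point.zero, ha⟩ = 0 := e0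
        rw [this]; simp
      · rw [gam_some h ha, neg_eq_neg_one_mul, mul_zpow]
    rw [Finset.prod_congr rfl fun a _ => h1 a, Finset.prod_mul_distrib]
    have h2 : ∀ s : Finset H, ∏ a ∈ s, (-1 : k) ^ e a = (-1 : k) ^ (∑ a ∈ s, e a) := by
      intro s
      induction s using Finset.induction_on with
      | empty => simp
      | insert a s ha ih =>
        rw [Finset.prod_insert ha, Finset.sum_insert ha,
          zpow_add₀ (neg_ne_zero.mpr one_ne_zero), ih]
    rw [h2, es, zpow_zero, one_mul]
  constructor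
  · intro h e e0 ee es hp
    funext a
    exact h e ee e0 es (by rw [← key e e0 es]; exact hp) a
  · intro h e ee e0 es hp a
    exact congrFun (h e e0 ee es (by rw [key e e0 es]; exact hp)) a

end

section

variable {k : Type*} [Field k] [DecidableEq k] [CharZero k] {W : WeierstrassCurve.Affine k}
  {F : Type*} [Field F] [Algebra k F] {X Y : F} {H : AddSubgroup W.Point} [Fintype H]

/-- **groups of prime order** -/
theorem prime (hp : (Fintype.card H).Prime) (h5 : 5 ≤ Fintype.card H) (hS : SiegelIndep H)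
    (hg : Generic W X Y) : UnitEqS H X Y ∧ OnlyConst H X Y :=
  UP.prime hp h5 (siegelIndep_iff.mp hS) hg

/-- **every finite group, if the unit equation holds** -/
theorem onlyConst_siegel (hS : SiegelIndep H) (hg : Generic W X Y) (hU : UnitEqS H X Y) :
    OnlyConst H X Y := UP.onlyConst_of (siegelIndep_iff.mp hS) hg hU

end

end Pool.Agent.FK4
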