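import Pool.Agent.Lib_helper40.UP.Red8

/-!
# The normal forms
-/

set_option autoImplicit false
set_option linter.unusedVariables false
set_option linter.unusedSimpArgs false

namespace Pool.Agent.UP

variable {D E G : ZMod 8 → ℤ} {d : ℤ}

lemma hl8 {c : ℕ} (hl : ∀ i : ℕ, i < 8 → lab D E G (i : ZMod 8) = dg c i) :
    lab D E G 0 = dg c 0 ∧ lab D E G 1 = dg c 1 ∧ lab D E G 2 = dg c 2 ∧ lab D E G 3 = dg c 3 ∧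
    lab D E G 4 = dg c 4 ∧ lab D E G 5 = dg c 5 ∧ lab D E G 6 = dg c 6 ∧ lab D E G 7 = dg c 7 :=
  ⟨by simpa using hl 0 (by norm_num), by simpa using hl 1 (by norm_num),
    by simpa using hl 2 (by norm_num), by simpa using hl 3 (by norm_num),
    by simpa using hl 4 (by norm_num), by simpa using hl 5 (by norm_num),
    by simpa using hl 6 (by norm_num), by simpa using hl 7 (by norm_num)⟩

lemma Tr.s8 (h : Tr D E G d) : D 0 + D 1 + D 2 + D 3 + D 4 + D 5 + D 6 + D 7 = d := by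
  rw [← sum8]; exact h.sd

lemma nz8 {a : ℤ} (h : 1 ≤ a) : a ≠ 0 := by omega

lemma card8 (D : ZMod 8 → ℤ) :
    (Fintype.card {x // D x ≠ 0} : ℤ) = ∑ x, if D x ≠ 0 then 1 else 0 := by
  rw [Fintype.card_subtype, Finset.card_filter]
  push_cast
  rfl

/-- the number of nonzero digits -/
def nzd (n : ℕ) : ℕ := min 1 (dg n 0) + min 1 (dg n 1) + min 1 (dg n 2) + min 1 (dg n 3) +
  min 1 (dg n 4) + min 1 (dg n 5) + min 1 (dg n 6) + min 1 (dg n 7)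

lemma H8.rh8 (h : H8 D E G d) {c : ℕ}
    (hl : ∀ i : ℕ, i < 8 → lab D E G (i : ZMod 8) = dg c i) : d ≤ nzd c := by
  have h1 : ∀ x, ((if D x ≠ 0 then 1 else 0 : ℤ) + if E x ≠ 0 then 1 else 0) +
      (if G x ≠ 0 then 1 else 0) = ((min 1 (lab D E G x) : ℕ) : ℤ) := by
    intro x
    have h4 := lab_lt (D := D) (E := E) (G := G) x
    have : lab D E G x = 0 ∨ lab D E G x = 1 ∨ lab D E G x = 2 ∨ lab D E G x = 3 := by omega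
    rcases this with e | e | e | e
    · obtain ⟨a1, a2, a3⟩ := lab0 e
      rw [e, a1, a2, a3]
      simp
    · obtain ⟨a1, a2, a3⟩ := h.toTr.lab1 e
      rw [e, a2, a3, if_pos (by omega)]
      simp
    · obtain ⟨a1, a2, a3⟩ := h.toTr.lab2 e
      rw [e, a1, a3, if_pos (c := E x ≠ 0) (by omega)]
      simp
    · obtain ⟨a1, a2, a3⟩ := h.toTr.lab3 e
      rw [e, a1, a2, if_pos (c := G x ≠ 0) (by omega)]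
      simp
  have h2 := h.rh
  rw [card8, card8, card8, ← Finset.sum_add_distrib, ← Finset.sum_add_distrib,
    Finset.sum_congr rfl fun x _ => h1 x, sum8] at h2
  obtain ⟨a0, a1, a2, a3, a4, a5, a6, a7⟩ := hl8 hl
  rw [a0, a1, a2, a3, a4, a5, a6, a7] at h2
  unfold nzd
  push_cast at h2 ⊢
  exact h2

lemma dvd8 {D G : ZMod 8 → ℤ} (h : ∑ x : ZMod 8, (D x - G x) • x = 0) :
    (8 : ℤ) ∣ (D 1 - G 1) + 2 * (D 2 - G 2) + 3 * (D 3 - G 3) + 4 * (D 4 - G 4) +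
      5 * (D 5 - G 5) + 6 * (D 6 - G 6) + 7 * (D 7 - G 7) := by
  have h1 := (ZMod.intCast_zmod_eq_zero_iff_dvd ((D 1 - G 1) + 2 * (D 2 - G 2) +
    3 * (D 3 - G 3) + 4 * (D 4 - G 4) + 5 * (D 5 - G 5) + 6 * (D 6 - G 6) + 7 * (D 7 - G 7)) 8).mp
  have h2 : ((8 : ℕ) : ℤ) = 8 := rfl
  rw [h2] at h1
  apply h1
  rw [sum8] at h
  simp only [zsmul_eq_mul] at h
  push_cast at h ⊢
  rw [← h]
  ring


lemma cas_1059 (h : H8 D E G d)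
    (hl : ∀ i : ℕ, i < 8 → lab D E G (i : ZMod 8) = dg 1059 i) : Con8 D E G := by
  have hk : d ≤ 3 := h.rh8 hl
  obtain ⟨a0, a1, a2, a3, a4, a5, a6, a7⟩ := hl8 hl
  obtain ⟨x0, y0, z0⟩ := h.toTr.lab3 (a0.trans rfl)
  obtain ⟨x1, y1, z1⟩ := lab0 (a1.trans rfl)
  obtain ⟨x2, y2, z2⟩ := h.toTr.lab2 (a2.trans rfl)
  obtain ⟨x3, y3, z3⟩ := lab0 (a3.trans rfl)
  obtain ⟨x4, y4, z4⟩ := lab0 (a4.trans rfl)
  obtain ⟨x5, y5, z5⟩ := h.toTr.lab1 (a5.trans rfl)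
  obtain ⟨x6, y6, z6⟩ := lab0 (a6.trans rfl)
  obtain ⟨x7, y7, z7⟩ := lab0 (a7.trans rfl)
  have sD := h.toTr.s8
  have sE := h.toTr.rot.s8
  have sG := h.toTr.rot.rot.s8
  have pd := h.pos
  have v1 := dvd8 h.s1
  have v2 := dvd8 h.s2
  simp only [x0, x1, x2, x3, x4, x6, x7, y0, y1, y3, y4, y5, y6, y7, z1, z2, z3, z4, z5, z6, z7, sub_zero, zero_sub, add_zero, zero_add, mul_zero, sub_self] at sD sE sG v1 v2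
  clear hl a0 a1 a2 a3 a4 a5 a6 a7
  clear x0 x1 x2 x3 x4 x6 x7 y0 y1 y3 y4 y5 y6 y7 z1 z2 z3 z4 z5 z6 z7
  exfalso
  omega

lemma cas_291 (h : H8 D E G d)
    (hl : ∀ i : ℕ, i < 8 → lab D E G (i : ZMod 8) = dg 291 i) : Con8 D E G := by
  have hk : d ≤ 3 := h.rh8 hl
  obtain ⟨a0, a1, a2, a3, a4, a5, a6, a7⟩ := hl8 hl
  obtain ⟨x0, y0, z0⟩ := h.toTr.lab3 (a0.trans rfl)
  obtain ⟨x1, y1, z1⟩ := lab0 (a1.trans rfl)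
  obtain ⟨x2, y2, z2⟩ := h.toTr.lab2 (a2.trans rfl)
  obtain ⟨x3, y3, z3⟩ := lab0 (a3.trans rfl)
  obtain ⟨x4, y4, z4⟩ := h.toTr.lab1 (a4.trans rfl)
  obtain ⟨x5, y5, z5⟩ := lab0 (a5.trans rfl)
  obtain ⟨x6, y6, z6⟩ := lab0 (a6.trans rfl)
  obtain ⟨x7, y7, z7⟩ := lab0 (a7.trans rfl)
  have sD := h.toTr.s8
  have sE := h.toTr.rot.s8
  have sG := h.toTr.rot.rot.s8
  have pd := h.pos
  have v1 := dvd8 h.s1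
  have v2 := dvd8 h.s2
  simp only [x0, x1, x2, x3, x5, x6, x7, y0, y1, y3, y4, y5, y6, y7, z1, z2, z3, z4, z5, z6, z7, sub_zero, zero_sub, add_zero, zero_add, mul_zero, sub_self] at sD sE sG v1 v2
  clear hl a0 a1 a2 a3 a4 a5 a6 a7
  clear x0 x1 x2 x3 x5 x6 x7 y0 y1 y3 y4 y5 y6 y7 z1 z2 z3 z4 z5 z6 z7
  exfalso
  omega

lemma cas_4899 (h : H8 D E G d)
    (hl : ∀ i : ℕ, i < 8 → lab D E G (i : ZMod 8) = dg 4899 i) : Con8 D E G := by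
  have hk : d ≤ 4 := h.rh8 hl
  obtain ⟨a0, a1, a2, a3, a4, a5, a6, a7⟩ := hl8 hl
  obtain ⟨x0, y0, z0⟩ := h.toTr.lab3 (a0.trans rfl)
  obtain ⟨x1, y1, z1⟩ := lab0 (a1.trans rfl)
  obtain ⟨x2, y2, z2⟩ := h.toTr.lab2 (a2.trans rfl)
  obtain ⟨x3, y3, z3⟩ := lab0 (a3.trans rfl)
  obtain ⟨x4, y4, z4⟩ := h.toTr.lab3 (a4.trans rfl)
  obtain ⟨x5, y5, z5⟩ := lab0 (a5.trans rfl)
  obtain ⟨x6, y6, z6⟩ := h.toTr.lab1 (a6.trans rfl)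
  obtain ⟨x7, y7, z7⟩ := lab0 (a7.trans rfl)
  have sD := h.toTr.s8
  have sE := h.toTr.rot.s8
  have sG := h.toTr.rot.rot.s8
  have pd := h.pos
  have v1 := dvd8 h.s1
  have v2 := dvd8 h.s2
  have r1 : (D 7 - E 7) + (D 1 - E 1) = (D 3 - E 3) + (D 5 - E 5) :=
    h.rg 0 4 (nz8 z0) (nz8 z4) 1
  have r2 : (D 6 - E 6) + (D 2 - E 2) = (D 2 - E 2) + (D 6 - E 6) :=
    h.rg 0 4 (nz8 z0) (nz8 z4) 2
  have r3 : (D 5 - E 5) + (D 3 - E 3) = (D 1 - E 1) + (D 7 - E 7) :=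
    h.rg 0 4 (nz8 z0) (nz8 z4) 3
  have r4 : (D 4 - E 4) + (D 4 - E 4) = (D 0 - E 0) + (D 0 - E 0) :=
    h.rg 0 4 (nz8 z0) (nz8 z4) 4
  simp only [x0, x1, x2, x3, x4, x5, x7, y0, y1, y3, y4, y5, y6, y7, z1, z2, z3, z5, z6, z7, sub_zero, zero_sub, add_zero, zero_add, mul_zero, sub_self] at sD sE sG v1 v2 r1 r2 r3 r4
  clear hl a0 a1 a2 a3 a4 a5 a6 a7
  have kD6 : D 6 = (G 4) * 2 := by
    clear x0 x1 x2 x3 x4 x5 x7 y0 y1 y3 y4 y5 y6 y7 z1 z2 z3 z5 z6 z7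
    omega
  have kE2 : E 2 = (G 4) * 2 := by
    clear x0 x1 x2 x3 x4 x5 x7 y0 y1 y3 y4 y5 y6 y7 z1 z2 z3 z5 z6 z7
    omega
  have kG0 : G 0 = (G 4) * 1 := by
    clear x0 x1 x2 x3 x4 x5 x7 y0 y1 y3 y4 y5 y6 y7 z1 z2 z3 z5 z6 z7
    omega
  have kG4 : G 4 = (G 4) * 1 := by
    clear x0 x1 x2 x3 x4 x5 x7 y0 y1 y3 y4 y5 y6 y7 z1 z2 z3 z5 z6 z7
    omega
  refine Or.inl ⟨4, 6, 4, 2, (G 4), by linarith, all8 ?_ ?_ ?_ ?_ ?_ ?_ ?_ ?_,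
    all8 ?_ ?_ ?_ ?_ ?_ ?_ ?_ ?_, all8 ?_ ?_ ?_ ?_ ?_ ?_ ?_ ?_⟩
  · show D 0 = (G 4) * 0
    rw [mul_zero]; exact x0
  · show D 1 = (G 4) * 0
    rw [mul_zero]; exact x1
  · show D 2 = (G 4) * 0
    rw [mul_zero]; exact x2
  · show D 3 = (G 4) * 0
    rw [mul_zero]; exact x3
  · show D 4 = (G 4) * 0
    rw [mul_zero]; exact x4
  · show D 5 = (G 4) * 0
    rw [mul_zero]; exact x5
  · exact kD6
  · show D 7 = (G 4) * 0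
    rw [mul_zero]; exact x7
  · show E 0 = (G 4) * 0
    rw [mul_zero]; exact y0
  · show E 1 = (G 4) * 0
    rw [mul_zero]; exact y1
  · exact kE2
  · show E 3 = (G 4) * 0
    rw [mul_zero]; exact y3
  · show E 4 = (G 4) * 0
    rw [mul_zero]; exact y4
  · show E 5 = (G 4) * 0
    rw [mul_zero]; exact y5
  · show E 6 = (G 4) * 0
    rw [mul_zero]; exact y6
  · show E 7 = (G 4) * 0
    rw [mul_zero]; exact y7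
  · exact kG0
  · show G 1 = (G 4) * 0
    rw [mul_zero]; exact z1
  · show G 2 = (G 4) * 0
    rw [mul_zero]; exact z2
  · show G 3 = (G 4) * 0
    rw [mul_zero]; exact z3
  · exact kG4
  · show G 5 = (G 4) * 0
    rw [mul_zero]; exact z5
  · show G 6 = (G 4) * 0
    rw [mul_zero]; exact z6
  · show G 7 = (G 4) * 0
    rw [mul_zero]; exact z7

lemma cas_4107 (h : H8 D E G d)
    (hl : ∀ i : ℕ, i < 8 → lab D E G (i : ZMod 8) = dg 4107 i) : Con8 D E G := by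
  have hk : d ≤ 3 := h.rh8 hl
  obtain ⟨a0, a1, a2, a3, a4, a5, a6, a7⟩ := hl8 hl
  obtain ⟨x0, y0, z0⟩ := h.toTr.lab3 (a0.trans rfl)
  obtain ⟨x1, y1, z1⟩ := h.toTr.lab2 (a1.trans rfl)
  obtain ⟨x2, y2, z2⟩ := lab0 (a2.trans rfl)
  obtain ⟨x3, y3, z3⟩ := lab0 (a3.trans rfl)
  obtain ⟨x4, y4, z4⟩ := lab0 (a4.trans rfl)
  obtain ⟨x5, y5, z5⟩ := lab0 (a5.trans rfl)
  obtain ⟨x6, y6, z6⟩ := h.toTr.lab1 (a6.trans rfl)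
  obtain ⟨x7, y7, z7⟩ := lab0 (a7.trans rfl)
  have sD := h.toTr.s8
  have sE := h.toTr.rot.s8
  have sG := h.toTr.rot.rot.s8
  have pd := h.pos
  have v1 := dvd8 h.s1
  have v2 := dvd8 h.s2
  simp only [x0, x1, x2, x3, x4, x5, x7, y0, y2, y3, y4, y5, y6, y7, z1, z2, z3, z4, z5, z6, z7, sub_zero, zero_sub, add_zero, zero_add, mul_zero, sub_self] at sD sE sG v1 v2
  clear hl a0 a1 a2 a3 a4 a5 a6 a7
  clear x0 x1 x2 x3 x4 x5 x7 y0 y2 y3 y4 y5 y6 y7 z1 z2 z3 z4 z5 z6 z7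
  exfalso
  omega

lemma cas_1035 (h : H8 D E G d)
    (hl : ∀ i : ℕ, i < 8 → lab D E G (i : ZMod 8) = dg 1035 i) : Con8 D E G := by
  have hk : d ≤ 3 := h.rh8 hl
  obtain ⟨a0, a1, a2, a3, a4, a5, a6, a7⟩ := hl8 hl
  obtain ⟨x0, y0, z0⟩ := h.toTr.lab3 (a0.trans rfl)
  obtain ⟨x1, y1, z1⟩ := h.toTr.lab2 (a1.trans rfl)
  obtain ⟨x2, y2, z2⟩ := lab0 (a2.trans rfl)
  obtain ⟨x3, y3, z3⟩ := lab0 (a3.trans rfl)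
  obtain ⟨x4, y4, z4⟩ := lab0 (a4.trans rfl)
  obtain ⟨x5, y5, z5⟩ := h.toTr.lab1 (a5.trans rfl)
  obtain ⟨x6, y6, z6⟩ := lab0 (a6.trans rfl)
  obtain ⟨x7, y7, z7⟩ := lab0 (a7.trans rfl)
  have sD := h.toTr.s8
  have sE := h.toTr.rot.s8
  have sG := h.toTr.rot.rot.s8
  have pd := h.pos
  have v1 := dvd8 h.s1
  have v2 := dvd8 h.s2
  simp only [x0, x1, x2, x3, x4, x6, x7, y0, y2, y3, y4, y5, y6, y7, z1, z2, z3, z4, z5, z6, z7, sub_zero, zero_sub, add_zero, zero_add, mul_zero, sub_self] at sD sE sG v1 v2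
  clear hl a0 a1 a2 a3 a4 a5 a6 a7
  clear x0 x1 x2 x3 x4 x6 x7 y0 y2 y3 y4 y5 y6 y7 z1 z2 z3 z4 z5 z6 z7
  exfalso
  omega

lemma cas_267 (h : H8 D E G d)
    (hl : ∀ i : ℕ, i < 8 → lab D E G (i : ZMod 8) = dg 267 i) : Con8 D E G := by
  have hk : d ≤ 3 := h.rh8 hl
  obtain ⟨a0, a1, a2, a3, a4, a5, a6, a7⟩ := hl8 hl
  obtain ⟨x0, y0, z0⟩ := h.toTr.lab3 (a0.trans rfl)
  obtain ⟨x1, y1, z1⟩ := h.toTr.lab2 (a1.trans rfl)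
  obtain ⟨x2, y2, z2⟩ := lab0 (a2.trans rfl)
  obtain ⟨x3, y3, z3⟩ := lab0 (a3.trans rfl)
  obtain ⟨x4, y4, z4⟩ := h.toTr.lab1 (a4.trans rfl)
  obtain ⟨x5, y5, z5⟩ := lab0 (a5.trans rfl)
  obtain ⟨x6, y6, z6⟩ := lab0 (a6.trans rfl)
  obtain ⟨x7, y7, z7⟩ := lab0 (a7.trans rfl)
  have sD := h.toTr.s8
  have sE := h.toTr.rot.s8
  have sG := h.toTr.rot.rot.s8
  have pd := h.pos
  have v1 := dvd8 h.s1
  have v2 := dvd8 h.s2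
  simp only [x0, x1, x2, x3, x5, x6, x7, y0, y2, y3, y4, y5, y6, y7, z1, z2, z3, z4, z5, z6, z7, sub_zero, zero_sub, add_zero, zero_add, mul_zero, sub_self] at sD sE sG v1 v2
  clear hl a0 a1 a2 a3 a4 a5 a6 a7
  clear x0 x1 x2 x3 x5 x6 x7 y0 y2 y3 y4 y5 y6 y7 z1 z2 z3 z4 z5 z6 z7
  exfalso
  omega

lemma cas_2315 (h : H8 D E G d)
    (hl : ∀ i : ℕ, i < 8 → lab D E G (i : ZMod 8) = dg 2315 i) : Con8 D E G := by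
  have hk : d ≤ 4 := h.rh8 hl
  obtain ⟨a0, a1, a2, a3, a4, a5, a6, a7⟩ := hl8 hl
  obtain ⟨x0, y0, z0⟩ := h.toTr.lab3 (a0.trans rfl)
  obtain ⟨x1, y1, z1⟩ := h.toTr.lab2 (a1.trans rfl)
  obtain ⟨x2, y2, z2⟩ := lab0 (a2.trans rfl)
  obtain ⟨x3, y3, z3⟩ := lab0 (a3.trans rfl)
  obtain ⟨x4, y4, z4⟩ := h.toTr.lab1 (a4.trans rfl)
  obtain ⟨x5, y5, z5⟩ := h.toTr.lab2 (a5.trans rfl)
  obtain ⟨x6, y6, z6⟩ := lab0 (a6.trans rfl)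
  obtain ⟨x7, y7, z7⟩ := lab0 (a7.trans rfl)
  have sD := h.toTr.s8
  have sE := h.toTr.rot.s8
  have sG := h.toTr.rot.rot.s8
  have pd := h.pos
  have v1 := dvd8 h.s1
  have v2 := dvd8 h.s2
  have r1 : (G 0 - D 0) + (G 2 - D 2) = (G 4 - D 4) + (G 6 - D 6) :=
    h.re 1 5 (nz8 y1) (nz8 y5) 1
  have r2 : (G 7 - D 7) + (G 3 - D 3) = (G 3 - D 3) + (G 7 - D 7) :=
    h.re 1 5 (nz8 y1) (nz8 y5) 2
  have r3 : (G 6 - D 6) + (G 4 - D 4) = (G 2 - D 2) + (G 0 - D 0) :=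
    h.re 1 5 (nz8 y1) (nz8 y5) 3
  have r4 : (G 5 - D 5) + (G 5 - D 5) = (G 1 - D 1) + (G 1 - D 1) :=
    h.re 1 5 (nz8 y1) (nz8 y5) 4
  simp only [x0, x1, x2, x3, x5, x6, x7, y0, y2, y3, y4, y6, y7, z1, z2, z3, z4, z5, z6, z7, sub_zero, zero_sub, add_zero, zero_add, mul_zero, sub_self] at sD sE sG v1 v2 r1 r2 r3 r4
  clear hl a0 a1 a2 a3 a4 a5 a6 a7
  clear x0 x1 x2 x3 x5 x6 x7 y0 y2 y3 y4 y6 y7 z1 z2 z3 z4 z5 z6 z7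
  exfalso
  omega

lemma cas_4875 (h : H8 D E G d)
    (hl : ∀ i : ℕ, i < 8 → lab D E G (i : ZMod 8) = dg 4875 i) : Con8 D E G := by
  have hk : d ≤ 4 := h.rh8 hl
  obtain ⟨a0, a1, a2, a3, a4, a5, a6, a7⟩ := hl8 hl
  obtain ⟨x0, y0, z0⟩ := h.toTr.lab3 (a0.trans rfl)
  obtain ⟨x1, y1, z1⟩ := h.toTr.lab2 (a1.trans rfl)
  obtain ⟨x2, y2, z2⟩ := lab0 (a2.trans rfl)
  obtain ⟨x3, y3, z3⟩ := lab0 (a3.trans rfl)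
  obtain ⟨x4, y4, z4⟩ := h.toTr.lab3 (a4.trans rfl)
  obtain ⟨x5, y5, z5⟩ := lab0 (a5.trans rfl)
  obtain ⟨x6, y6, z6⟩ := h.toTr.lab1 (a6.trans rfl)
  obtain ⟨x7, y7, z7⟩ := lab0 (a7.trans rfl)
  have sD := h.toTr.s8
  have sE := h.toTr.rot.s8
  have sG := h.toTr.rot.rot.s8
  have pd := h.pos
  have v1 := dvd8 h.s1
  have v2 := dvd8 h.s2
  have r1 : (D 7 - E 7) + (D 1 - E 1) = (D 3 - E 3) + (D 5 - E 5) :=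
    h.rg 0 4 (nz8 z0) (nz8 z4) 1
  have r2 : (D 6 - E 6) + (D 2 - E 2) = (D 2 - E 2) + (D 6 - E 6) :=
    h.rg 0 4 (nz8 z0) (nz8 z4) 2
  have r3 : (D 5 - E 5) + (D 3 - E 3) = (D 1 - E 1) + (D 7 - E 7) :=
    h.rg 0 4 (nz8 z0) (nz8 z4) 3
  have r4 : (D 4 - E 4) + (D 4 - E 4) = (D 0 - E 0) + (D 0 - E 0) :=
    h.rg 0 4 (nz8 z0) (nz8 z4) 4
  simp only [x0, x1, x2, x3, x4, x5, x7, y0, y2, y3, y4, y5, y6, y7, z1, z2, z3, z5, z6, z7, sub_zero, zero_sub, add_zero, zero_add, mul_zero, sub_self] at sD sE sG v1 v2 r1 r2 r3 r4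
  clear hl a0 a1 a2 a3 a4 a5 a6 a7
  clear x0 x1 x2 x3 x4 x5 x7 y0 y2 y3 y4 y5 y6 y7 z1 z2 z3 z5 z6 z7
  exfalso
  omega

lemma cas_1803 (h : H8 D E G d)
    (hl : ∀ i : ℕ, i < 8 → lab D E G (i : ZMod 8) = dg 1803 i) : Con8 D E G := by
  have hk : d ≤ 4 := h.rh8 hl
  obtain ⟨a0, a1, a2, a3, a4, a5, a6, a7⟩ := hl8 hl
  obtain ⟨x0, y0, z0⟩ := h.toTr.lab3 (a0.trans rfl)
  obtain ⟨x1, y1, z1⟩ := h.toTr.lab2 (a1.trans rfl)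
  obtain ⟨x2, y2, z2⟩ := lab0 (a2.trans rfl)
  obtain ⟨x3, y3, z3⟩ := lab0 (a3.trans rfl)
  obtain ⟨x4, y4, z4⟩ := h.toTr.lab3 (a4.trans rfl)
  obtain ⟨x5, y5, z5⟩ := h.toTr.lab1 (a5.trans rfl)
  obtain ⟨x6, y6, z6⟩ := lab0 (a6.trans rfl)
  obtain ⟨x7, y7, z7⟩ := lab0 (a7.trans rfl)
  have sD := h.toTr.s8
  have sE := h.toTr.rot.s8
  have sG := h.toTr.rot.rot.s8
  have pd := h.pos
  have v1 := dvd8 h.s1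
  have v2 := dvd8 h.s2
  have r1 : (D 7 - E 7) + (D 1 - E 1) = (D 3 - E 3) + (D 5 - E 5) :=
    h.rg 0 4 (nz8 z0) (nz8 z4) 1
  have r2 : (D 6 - E 6) + (D 2 - E 2) = (D 2 - E 2) + (D 6 - E 6) :=
    h.rg 0 4 (nz8 z0) (nz8 z4) 2
  have r3 : (D 5 - E 5) + (D 3 - E 3) = (D 1 - E 1) + (D 7 - E 7) :=
    h.rg 0 4 (nz8 z0) (nz8 z4) 3
  have r4 : (D 4 - E 4) + (D 4 - E 4) = (D 0 - E 0) + (D 0 - E 0) :=
    h.rg 0 4 (nz8 z0) (nz8 z4) 4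
  simp only [x0, x1, x2, x3, x4, x6, x7, y0, y2, y3, y4, y5, y6, y7, z1, z2, z3, z5, z6, z7, sub_zero, zero_sub, add_zero, zero_add, mul_zero, sub_self] at sD sE sG v1 v2 r1 r2 r3 r4
  clear hl a0 a1 a2 a3 a4 a5 a6 a7
  clear x0 x1 x2 x3 x4 x6 x7 y0 y2 y3 y4 y5 y6 y7 z1 z2 z3 z5 z6 z7
  exfalso
  omega

lemma cas_75 (h : H8 D E G d)
    (hl : ∀ i : ℕ, i < 8 → lab D E G (i : ZMod 8) = dg 75 i) : Con8 D E G := by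
  have hk : d ≤ 3 := h.rh8 hl
  obtain ⟨a0, a1, a2, a3, a4, a5, a6, a7⟩ := hl8 hl
  obtain ⟨x0, y0, z0⟩ := h.toTr.lab3 (a0.trans rfl)
  obtain ⟨x1, y1, z1⟩ := h.toTr.lab2 (a1.trans rfl)
  obtain ⟨x2, y2, z2⟩ := lab0 (a2.trans rfl)
  obtain ⟨x3, y3, z3⟩ := h.toTr.lab1 (a3.trans rfl)
  obtain ⟨x4, y4, z4⟩ := lab0 (a4.trans rfl)
  obtain ⟨x5, y5, z5⟩ := lab0 (a5.trans rfl)
  obtain ⟨x6, y6, z6⟩ := lab0 (a6.trans rfl)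
  obtain ⟨x7, y7, z7⟩ := lab0 (a7.trans rfl)
  have sD := h.toTr.s8
  have sE := h.toTr.rot.s8
  have sG := h.toTr.rot.rot.s8
  have pd := h.pos
  have v1 := dvd8 h.s1
  have v2 := dvd8 h.s2
  simp only [x0, x1, x2, x4, x5, x6, x7, y0, y2, y3, y4, y5, y6, y7, z1, z2, z3, z4, z5, z6, z7, sub_zero, zero_sub, add_zero, zero_add, mul_zero, sub_self] at sD sE sG v1 v2
  clear hl a0 a1 a2 a3 a4 a5 a6 a7
  clear x0 x1 x2 x4 x5 x6 x7 y0 y2 y3 y4 y5 y6 y7 z1 z2 z3 z4 z5 z6 z7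
  exfalso
  omega

lemma cas_2123 (h : H8 D E G d)
    (hl : ∀ i : ℕ, i < 8 → lab D E G (i : ZMod 8) = dg 2123 i) : Con8 D E G := by
  have hk : d ≤ 4 := h.rh8 hl
  obtain ⟨a0, a1, a2, a3, a4, a5, a6, a7⟩ := hl8 hl
  obtain ⟨x0, y0, z0⟩ := h.toTr.lab3 (a0.trans rfl)
  obtain ⟨x1, y1, z1⟩ := h.toTr.lab2 (a1.trans rfl)
  obtain ⟨x2, y2, z2⟩ := lab0 (a2.trans rfl)
  obtain ⟨x3, y3, z3⟩ := h.toTr.lab1 (a3.trans rfl)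
  obtain ⟨x4, y4, z4⟩ := lab0 (a4.trans rfl)
  obtain ⟨x5, y5, z5⟩ := h.toTr.lab2 (a5.trans rfl)
  obtain ⟨x6, y6, z6⟩ := lab0 (a6.trans rfl)
  obtain ⟨x7, y7, z7⟩ := lab0 (a7.trans rfl)
  have sD := h.toTr.s8
  have sE := h.toTr.rot.s8
  have sG := h.toTr.rot.rot.s8
  have pd := h.pos
  have v1 := dvd8 h.s1
  have v2 := dvd8 h.s2
  have r1 : (G 0 - D 0) + (G 2 - D 2) = (G 4 - D 4) + (G 6 - D 6) :=
    h.re 1 5 (nz8 y1) (nz8 y5) 1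
  have r2 : (G 7 - D 7) + (G 3 - D 3) = (G 3 - D 3) + (G 7 - D 7) :=
    h.re 1 5 (nz8 y1) (nz8 y5) 2
  have r3 : (G 6 - D 6) + (G 4 - D 4) = (G 2 - D 2) + (G 0 - D 0) :=
    h.re 1 5 (nz8 y1) (nz8 y5) 3
  have r4 : (G 5 - D 5) + (G 5 - D 5) = (G 1 - D 1) + (G 1 - D 1) :=
    h.re 1 5 (nz8 y1) (nz8 y5) 4
  simp only [x0, x1, x2, x4, x5, x6, x7, y0, y2, y3, y4, y6, y7, z1, z2, z3, z4, z5, z6, z7, sub_zero, zero_sub, add_zero, zero_add, mul_zero, sub_self] at sD sE sG v1 v2 r1 r2 r3 r4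
  clear hl a0 a1 a2 a3 a4 a5 a6 a7
  clear x0 x1 x2 x4 x5 x6 x7 y0 y2 y3 y4 y6 y7 z1 z2 z3 z4 z5 z6 z7
  exfalso
  omega

lemma cas_843 (h : H8 D E G d)
    (hl : ∀ i : ℕ, i < 8 → lab D E G (i : ZMod 8) = dg 843 i) : Con8 D E G := by
  have hk : d ≤ 4 := h.rh8 hl
  obtain ⟨a0, a1, a2, a3, a4, a5, a6, a7⟩ := hl8 hl
  obtain ⟨x0, y0, z0⟩ := h.toTr.lab3 (a0.trans rfl)
  obtain ⟨x1, y1, z1⟩ := h.toTr.lab2 (a1.trans rfl)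
  obtain ⟨x2, y2, z2⟩ := lab0 (a2.trans rfl)
  obtain ⟨x3, y3, z3⟩ := h.toTr.lab1 (a3.trans rfl)
  obtain ⟨x4, y4, z4⟩ := h.toTr.lab3 (a4.trans rfl)
  obtain ⟨x5, y5, z5⟩ := lab0 (a5.trans rfl)
  obtain ⟨x6, y6, z6⟩ := lab0 (a6.trans rfl)
  obtain ⟨x7, y7, z7⟩ := lab0 (a7.trans rfl)
  have sD := h.toTr.s8
  have sE := h.toTr.rot.s8
  have sG := h.toTr.rot.rot.s8
  have pd := h.pos
  have v1 := dvd8 h.s1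
  have v2 := dvd8 h.s2
  have r1 : (D 7 - E 7) + (D 1 - E 1) = (D 3 - E 3) + (D 5 - E 5) :=
    h.rg 0 4 (nz8 z0) (nz8 z4) 1
  have r2 : (D 6 - E 6) + (D 2 - E 2) = (D 2 - E 2) + (D 6 - E 6) :=
    h.rg 0 4 (nz8 z0) (nz8 z4) 2
  have r3 : (D 5 - E 5) + (D 3 - E 3) = (D 1 - E 1) + (D 7 - E 7) :=
    h.rg 0 4 (nz8 z0) (nz8 z4) 3
  have r4 : (D 4 - E 4) + (D 4 - E 4) = (D 0 - E 0) + (D 0 - E 0) :=
    h.rg 0 4 (nz8 z0) (nz8 z4) 4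
  simp only [x0, x1, x2, x4, x5, x6, x7, y0, y2, y3, y4, y5, y6, y7, z1, z2, z3, z5, z6, z7, sub_zero, zero_sub, add_zero, zero_add, mul_zero, sub_self] at sD sE sG v1 v2 r1 r2 r3 r4
  clear hl a0 a1 a2 a3 a4 a5 a6 a7
  clear x0 x1 x2 x4 x5 x6 x7 y0 y2 y3 y4 y5 y6 y7 z1 z2 z3 z5 z6 z7
  exfalso
  omega

lemma cas_5003 (h : H8 D E G d)
    (hl : ∀ i : ℕ, i < 8 → lab D E G (i : ZMod 8) = dg 5003 i) : Con8 D E G := by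
  have hk : d ≤ 5 := h.rh8 hl
  obtain ⟨a0, a1, a2, a3, a4, a5, a6, a7⟩ := hl8 hl
  obtain ⟨x0, y0, z0⟩ := h.toTr.lab3 (a0.trans rfl)
  obtain ⟨x1, y1, z1⟩ := h.toTr.lab2 (a1.trans rfl)
  obtain ⟨x2, y2, z2⟩ := lab0 (a2.trans rfl)
  obtain ⟨x3, y3, z3⟩ := h.toTr.lab2 (a3.trans rfl)
  obtain ⟨x4, y4, z4⟩ := h.toTr.lab3 (a4.trans rfl)
  obtain ⟨x5, y5, z5⟩ := lab0 (a5.trans rfl)
  obtain ⟨x6, y6, z6⟩ := h.toTr.lab1 (a6.trans rfl)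
  obtain ⟨x7, y7, z7⟩ := lab0 (a7.trans rfl)
  have sD := h.toTr.s8
  have sE := h.toTr.rot.s8
  have sG := h.toTr.rot.rot.s8
  have pd := h.pos
  have v1 := dvd8 h.s1
  have v2 := dvd8 h.s2
  have r1 : (G 0 - D 0) + (G 2 - D 2) = (G 2 - D 2) + (G 4 - D 4) :=
    h.re 1 3 (nz8 y1) (nz8 y3) 1
  have r2 : (G 7 - D 7) + (G 3 - D 3) = (G 1 - D 1) + (G 5 - D 5) :=
    h.re 1 3 (nz8 y1) (nz8 y3) 2
  have r3 : (G 6 - D 6) + (G 4 - D 4) = (G 0 - D 0) + (G 6 - D 6) :=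
    h.re 1 3 (nz8 y1) (nz8 y3) 3
  have r4 : (G 5 - D 5) + (G 5 - D 5) = (G 7 - D 7) + (G 7 - D 7) :=
    h.re 1 3 (nz8 y1) (nz8 y3) 4
  have r5 : (D 7 - E 7) + (D 1 - E 1) = (D 3 - E 3) + (D 5 - E 5) :=
    h.rg 0 4 (nz8 z0) (nz8 z4) 1
  have r6 : (D 6 - E 6) + (D 2 - E 2) = (D 2 - E 2) + (D 6 - E 6) :=
    h.rg 0 4 (nz8 z0) (nz8 z4) 2
  have r7 : (D 5 - E 5) + (D 3 - E 3) = (D 1 - E 1) + (D 7 - E 7) :=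
    h.rg 0 4 (nz8 z0) (nz8 z4) 3
  have r8 : (D 4 - E 4) + (D 4 - E 4) = (D 0 - E 0) + (D 0 - E 0) :=
    h.rg 0 4 (nz8 z0) (nz8 z4) 4
  simp only [x0, x1, x2, x3, x4, x5, x7, y0, y2, y4, y5, y6, y7, z1, z2, z3, z5, z6, z7, sub_zero, zero_sub, add_zero, zero_add, mul_zero, sub_self] at sD sE sG v1 v2 r1 r2 r3 r4 r5 r6 r7 r8
  clear hl a0 a1 a2 a3 a4 a5 a6 a7
  have kD6 : D 6 = (E 3) * 2 := by
    clear x0 x1 x2 x3 x4 x5 x7 y0 y2 y4 y5 y6 y7 z1 z2 z3 z5 z6 z7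
    omega
  have kE1 : E 1 = (E 3) * 1 := by
    clear x0 x1 x2 x3 x4 x5 x7 y0 y2 y4 y5 y6 y7 z1 z2 z3 z5 z6 z7
    omega
  have kE3 : E 3 = (E 3) * 1 := by
    clear x0 x1 x2 x3 x4 x5 x7 y0 y2 y4 y5 y6 y7 z1 z2 z3 z5 z6 z7
    omega
  have kG0 : G 0 = (E 3) * 1 := by
    clear x0 x1 x2 x3 x4 x5 x7 y0 y2 y4 y5 y6 y7 z1 z2 z3 z5 z6 z7
    omega
  have kG4 : G 4 = (E 3) * 1 := by
    clear x0 x1 x2 x3 x4 x5 x7 y0 y2 y4 y5 y6 y7 z1 z2 z3 z5 z6 z7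
    omega
  refine Or.inl ⟨4, 6, 4, 3, (E 3), by linarith, all8 ?_ ?_ ?_ ?_ ?_ ?_ ?_ ?_,
    all8 ?_ ?_ ?_ ?_ ?_ ?_ ?_ ?_, all8 ?_ ?_ ?_ ?_ ?_ ?_ ?_ ?_⟩
  · show D 0 = (E 3) * 0
    rw [mul_zero]; exact x0
  · show D 1 = (E 3) * 0
    rw [mul_zero]; exact x1
  · show D 2 = (E 3) * 0
    rw [mul_zero]; exact x2
  · show D 3 = (E 3) * 0
    rw [mul_zero]; exact x3
  · show D 4 = (E 3) * 0
    rw [mul_zero]; exact x4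
  · show D 5 = (E 3) * 0
    rw [mul_zero]; exact x5
  · exact kD6
  · show D 7 = (E 3) * 0
    rw [mul_zero]; exact x7
  · show E 0 = (E 3) * 0
    rw [mul_zero]; exact y0
  · exact kE1
  · show E 2 = (E 3) * 0
    rw [mul_zero]; exact y2
  · exact kE3
  · show E 4 = (E 3) * 0
    rw [mul_zero]; exact y4
  · show E 5 = (E 3) * 0
    rw [mul_zero]; exact y5
  · show E 6 = (E 3) * 0
    rw [mul_zero]; exact y6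
  · show E 7 = (E 3) * 0
    rw [mul_zero]; exact y7
  · exact kG0
  · show G 1 = (E 3) * 0
    rw [mul_zero]; exact z1
  · show G 2 = (E 3) * 0
    rw [mul_zero]; exact z2
  · show G 3 = (E 3) * 0
    rw [mul_zero]; exact z3
  · exact kG4
  · show G 5 = (E 3) * 0
    rw [mul_zero]; exact z5
  · show G 6 = (E 3) * 0
    rw [mul_zero]; exact z6
  · show G 7 = (E 3) * 0
    rw [mul_zero]; exact z7

lemma cas_27 (h : H8 D E G d)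
    (hl : ∀ i : ℕ, i < 8 → lab D E G (i : ZMod 8) = dg 27 i) : Con8 D E G := by
  have hk : d ≤ 3 := h.rh8 hl
  obtain ⟨a0, a1, a2, a3, a4, a5, a6, a7⟩ := hl8 hl
  obtain ⟨x0, y0, z0⟩ := h.toTr.lab3 (a0.trans rfl)
  obtain ⟨x1, y1, z1⟩ := h.toTr.lab2 (a1.trans rfl)
  obtain ⟨x2, y2, z2⟩ := h.toTr.lab1 (a2.trans rfl)
  obtain ⟨x3, y3, z3⟩ := lab0 (a3.trans rfl)
  obtain ⟨x4, y4, z4⟩ := lab0 (a4.trans rfl)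
  obtain ⟨x5, y5, z5⟩ := lab0 (a5.trans rfl)
  obtain ⟨x6, y6, z6⟩ := lab0 (a6.trans rfl)
  obtain ⟨x7, y7, z7⟩ := lab0 (a7.trans rfl)
  have sD := h.toTr.s8
  have sE := h.toTr.rot.s8
  have sG := h.toTr.rot.rot.s8
  have pd := h.pos
  have v1 := dvd8 h.s1
  have v2 := dvd8 h.s2
  simp only [x0, x1, x3, x4, x5, x6, x7, y0, y2, y3, y4, y5, y6, y7, z1, z2, z3, z4, z5, z6, z7, sub_zero, zero_sub, add_zero, zero_add, mul_zero, sub_self] at sD sE sG v1 v2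
  clear hl a0 a1 a2 a3 a4 a5 a6 a7
  clear x0 x1 x3 x4 x5 x6 x7 y0 y2 y3 y4 y5 y6 y7 z1 z2 z3 z4 z5 z6 z7
  exfalso
  omega

lemma cas_4123 (h : H8 D E G d)
    (hl : ∀ i : ℕ, i < 8 → lab D E G (i : ZMod 8) = dg 4123 i) : Con8 D E G := by
  have hk : d ≤ 4 := h.rh8 hl
  obtain ⟨a0, a1, a2, a3, a4, a5, a6, a7⟩ := hl8 hl
  obtain ⟨x0, y0, z0⟩ := h.toTr.lab3 (a0.trans rfl)
  obtain ⟨x1, y1, z1⟩ := h.toTr.lab2 (a1.trans rfl)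
  obtain ⟨x2, y2, z2⟩ := h.toTr.lab1 (a2.trans rfl)
  obtain ⟨x3, y3, z3⟩ := lab0 (a3.trans rfl)
  obtain ⟨x4, y4, z4⟩ := lab0 (a4.trans rfl)
  obtain ⟨x5, y5, z5⟩ := lab0 (a5.trans rfl)
  obtain ⟨x6, y6, z6⟩ := h.toTr.lab1 (a6.trans rfl)
  obtain ⟨x7, y7, z7⟩ := lab0 (a7.trans rfl)
  have sD := h.toTr.s8
  have sE := h.toTr.rot.s8
  have sG := h.toTr.rot.rot.s8
  have pd := h.pos
  have v1 := dvd8 h.s1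
  have v2 := dvd8 h.s2
  have r1 : (E 1 - G 1) + (E 3 - G 3) = (E 5 - G 5) + (E 7 - G 7) :=
    h.rd 2 6 (nz8 x2) (nz8 x6) 1
  have r2 : (E 0 - G 0) + (E 4 - G 4) = (E 4 - G 4) + (E 0 - G 0) :=
    h.rd 2 6 (nz8 x2) (nz8 x6) 2
  have r3 : (E 7 - G 7) + (E 5 - G 5) = (E 3 - G 3) + (E 1 - G 1) :=
    h.rd 2 6 (nz8 x2) (nz8 x6) 3
  have r4 : (E 6 - G 6) + (E 6 - G 6) = (E 2 - G 2) + (E 2 - G 2) :=
    h.rd 2 6 (nz8 x2) (nz8 x6) 4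
  simp only [x0, x1, x3, x4, x5, x7, y0, y2, y3, y4, y5, y6, y7, z1, z2, z3, z4, z5, z6, z7, sub_zero, zero_sub, add_zero, zero_add, mul_zero, sub_self] at sD sE sG v1 v2 r1 r2 r3 r4
  clear hl a0 a1 a2 a3 a4 a5 a6 a7
  clear x0 x1 x3 x4 x5 x7 y0 y2 y3 y4 y5 y6 y7 z1 z2 z3 z4 z5 z6 z7
  exfalso
  omega

lemma cas_2075 (h : H8 D E G d)
    (hl : ∀ i : ℕ, i < 8 → lab D E G (i : ZMod 8) = dg 2075 i) : Con8 D E G := by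
  have hk : d ≤ 4 := h.rh8 hl
  obtain ⟨a0, a1, a2, a3, a4, a5, a6, a7⟩ := hl8 hl
  obtain ⟨x0, y0, z0⟩ := h.toTr.lab3 (a0.trans rfl)
  obtain ⟨x1, y1, z1⟩ := h.toTr.lab2 (a1.trans rfl)
  obtain ⟨x2, y2, z2⟩ := h.toTr.lab1 (a2.trans rfl)
  obtain ⟨x3, y3, z3⟩ := lab0 (a3.trans rfl)
  obtain ⟨x4, y4, z4⟩ := lab0 (a4.trans rfl)
  obtain ⟨x5, y5, z5⟩ := h.toTr.lab2 (a5.trans rfl)
  obtain ⟨x6, y6, z6⟩ := lab0 (a6.trans rfl)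
  obtain ⟨x7, y7, z7⟩ := lab0 (a7.trans rfl)
  have sD := h.toTr.s8
  have sE := h.toTr.rot.s8
  have sG := h.toTr.rot.rot.s8
  have pd := h.pos
  have v1 := dvd8 h.s1
  have v2 := dvd8 h.s2
  have r1 : (G 0 - D 0) + (G 2 - D 2) = (G 4 - D 4) + (G 6 - D 6) :=
    h.re 1 5 (nz8 y1) (nz8 y5) 1
  have r2 : (G 7 - D 7) + (G 3 - D 3) = (G 3 - D 3) + (G 7 - D 7) :=
    h.re 1 5 (nz8 y1) (nz8 y5) 2
  have r3 : (G 6 - D 6) + (G 4 - D 4) = (G 2 - D 2) + (G 0 - D 0) :=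
    h.re 1 5 (nz8 y1) (nz8 y5) 3
  have r4 : (G 5 - D 5) + (G 5 - D 5) = (G 1 - D 1) + (G 1 - D 1) :=
    h.re 1 5 (nz8 y1) (nz8 y5) 4
  simp only [x0, x1, x3, x4, x5, x6, x7, y0, y2, y3, y4, y6, y7, z1, z2, z3, z4, z5, z6, z7, sub_zero, zero_sub, add_zero, zero_add, mul_zero, sub_self] at sD sE sG v1 v2 r1 r2 r3 r4
  clear hl a0 a1 a2 a3 a4 a5 a6 a7
  have hh : (D 2 = 4 ∧ E 1 = 1 ∧ E 5 = 3 ∧ G 0 = 4) ∨ (D 2 = 4 ∧ E 1 = 3 ∧ E 5 = 1 ∧ G 0 = 4) := by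
    clear x0 x1 x3 x4 x5 x6 x7 y0 y2 y3 y4 y6 y7 z1 z2 z3 z4 z5 z6 z7
    omega
  rcases hh with hh | hh
  · refine Or.inr ⟨2, (Or.inr (Or.inr (Or.inl (Or.inr (Or.inr (Or.inl ⟨funext (all8 ?_ ?_ ?_ ?_ ?_ ?_ ?_ ?_),
      funext (all8 ?_ ?_ ?_ ?_ ?_ ?_ ?_ ?_), funext (all8 ?_ ?_ ?_ ?_ ?_ ?_ ?_ ?_)⟩))))))⟩
    · exact y2
    · exact y3
    · exact y4
    · show E 5 = 3
      exact hh.2.2.1
    · exact y6
    · exact y7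
    · exact y0
    · show E 1 = 1
      exact hh.2.1
    · show D 2 = 4
      exact hh.1
    · exact x3
    · exact x4
    · exact x5
    · exact x6
    · exact x7
    · exact x0
    · exact x1
    · exact z2
    · exact z3
    · exact z4
    · exact z5
    · exact z6
    · exact z7
    · show G 0 = 4
      exact hh.2.2.2
    · exact z1
  · refine Or.inr ⟨0, (Or.inr (Or.inr (Or.inr (Or.inl (Or.inr (Or.inl ⟨funext (all8 ?_ ?_ ?_ ?_ ?_ ?_ ?_ ?_),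
      funext (all8 ?_ ?_ ?_ ?_ ?_ ?_ ?_ ?_), funext (all8 ?_ ?_ ?_ ?_ ?_ ?_ ?_ ?_)⟩))))))⟩
    · exact y0
    · show E 1 = 3
      exact hh.2.1
    · exact y2
    · exact y3
    · exact y4
    · show E 5 = 1
      exact hh.2.2.1
    · exact y6
    · exact y7
    · show G 0 = 4
      exact hh.2.2.2
    · exact z1
    · exact z2
    · exact z3
    · exact z4
    · exact z5
    · exact z6
    · exact z7
    · exact x0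
    · exact x1
    · show D 2 = 4
      exact hh.1
    · exact x3
    · exact x4
    · exact x5
    · exact x6
    · exact x7

lemma cas_6171 (h : H8 D E G d)
    (hl : ∀ i : ℕ, i < 8 → lab D E G (i : ZMod 8) = dg 6171 i) : Con8 D E G := by
  have hk : d ≤ 5 := h.rh8 hl
  obtain ⟨a0, a1, a2, a3, a4, a5, a6, a7⟩ := hl8 hl
  obtain ⟨x0, y0, z0⟩ := h.toTr.lab3 (a0.trans rfl)
  obtain ⟨x1, y1, z1⟩ := h.toTr.lab2 (a1.trans rfl)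
  obtain ⟨x2, y2, z2⟩ := h.toTr.lab1 (a2.trans rfl)
  obtain ⟨x3, y3, z3⟩ := lab0 (a3.trans rfl)
  obtain ⟨x4, y4, z4⟩ := lab0 (a4.trans rfl)
  obtain ⟨x5, y5, z5⟩ := h.toTr.lab2 (a5.trans rfl)
  obtain ⟨x6, y6, z6⟩ := h.toTr.lab1 (a6.trans rfl)
  obtain ⟨x7, y7, z7⟩ := lab0 (a7.trans rfl)
  have sD := h.toTr.s8
  have sE := h.toTr.rot.s8
  have sG := h.toTr.rot.rot.s8
  have pd := h.pos
  have v1 := dvd8 h.s1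
  have v2 := dvd8 h.s2
  have r1 : (E 1 - G 1) + (E 3 - G 3) = (E 5 - G 5) + (E 7 - G 7) :=
    h.rd 2 6 (nz8 x2) (nz8 x6) 1
  have r2 : (E 0 - G 0) + (E 4 - G 4) = (E 4 - G 4) + (E 0 - G 0) :=
    h.rd 2 6 (nz8 x2) (nz8 x6) 2
  have r3 : (E 7 - G 7) + (E 5 - G 5) = (E 3 - G 3) + (E 1 - G 1) :=
    h.rd 2 6 (nz8 x2) (nz8 x6) 3
  have r4 : (E 6 - G 6) + (E 6 - G 6) = (E 2 - G 2) + (E 2 - G 2) :=
    h.rd 2 6 (nz8 x2) (nz8 x6) 4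
  have r5 : (G 0 - D 0) + (G 2 - D 2) = (G 4 - D 4) + (G 6 - D 6) :=
    h.re 1 5 (nz8 y1) (nz8 y5) 1
  have r6 : (G 7 - D 7) + (G 3 - D 3) = (G 3 - D 3) + (G 7 - D 7) :=
    h.re 1 5 (nz8 y1) (nz8 y5) 2
  have r7 : (G 6 - D 6) + (G 4 - D 4) = (G 2 - D 2) + (G 0 - D 0) :=
    h.re 1 5 (nz8 y1) (nz8 y5) 3
  have r8 : (G 5 - D 5) + (G 5 - D 5) = (G 1 - D 1) + (G 1 - D 1) :=
    h.re 1 5 (nz8 y1) (nz8 y5) 4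
  simp only [x0, x1, x3, x4, x5, x7, y0, y2, y3, y4, y6, y7, z1, z2, z3, z4, z5, z6, z7, sub_zero, zero_sub, add_zero, zero_add, mul_zero, sub_self] at sD sE sG v1 v2 r1 r2 r3 r4 r5 r6 r7 r8
  clear hl a0 a1 a2 a3 a4 a5 a6 a7
  clear x0 x1 x3 x4 x5 x7 y0 y2 y3 y4 y6 y7 z1 z2 z3 z4 z5 z6 z7
  exfalso
  omega

lemma cas_14619 (h : H8 D E G d)
    (hl : ∀ i : ℕ, i < 8 → lab D E G (i : ZMod 8) = dg 14619 i) : Con8 D E G := by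
  have hk : d ≤ 6 := h.rh8 hl
  obtain ⟨a0, a1, a2, a3, a4, a5, a6, a7⟩ := hl8 hl
  obtain ⟨x0, y0, z0⟩ := h.toTr.lab3 (a0.trans rfl)
  obtain ⟨x1, y1, z1⟩ := h.toTr.lab2 (a1.trans rfl)
  obtain ⟨x2, y2, z2⟩ := h.toTr.lab1 (a2.trans rfl)
  obtain ⟨x3, y3, z3⟩ := lab0 (a3.trans rfl)
  obtain ⟨x4, y4, z4⟩ := h.toTr.lab1 (a4.trans rfl)
  obtain ⟨x5, y5, z5⟩ := h.toTr.lab2 (a5.trans rfl)
  obtain ⟨x6, y6, z6⟩ := h.toTr.lab3 (a6.trans rfl)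
  obtain ⟨x7, y7, z7⟩ := lab0 (a7.trans rfl)
  have sD := h.toTr.s8
  have sE := h.toTr.rot.s8
  have sG := h.toTr.rot.rot.s8
  have pd := h.pos
  have v1 := dvd8 h.s1
  have v2 := dvd8 h.s2
  have r1 : (E 1 - G 1) + (E 3 - G 3) = (E 3 - G 3) + (E 5 - G 5) :=
    h.rd 2 4 (nz8 x2) (nz8 x4) 1
  have r2 : (E 0 - G 0) + (E 4 - G 4) = (E 2 - G 2) + (E 6 - G 6) :=
    h.rd 2 4 (nz8 x2) (nz8 x4) 2
  have r3 : (E 7 - G 7) + (E 5 - G 5) = (E 1 - G 1) + (E 7 - G 7) :=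
    h.rd 2 4 (nz8 x2) (nz8 x4) 3
  have r4 : (E 6 - G 6) + (E 6 - G 6) = (E 0 - G 0) + (E 0 - G 0) :=
    h.rd 2 4 (nz8 x2) (nz8 x4) 4
  have r5 : (G 0 - D 0) + (G 2 - D 2) = (G 4 - D 4) + (G 6 - D 6) :=
    h.re 1 5 (nz8 y1) (nz8 y5) 1
  have r6 : (G 7 - D 7) + (G 3 - D 3) = (G 3 - D 3) + (G 7 - D 7) :=
    h.re 1 5 (nz8 y1) (nz8 y5) 2
  have r7 : (G 6 - D 6) + (G 4 - D 4) = (G 2 - D 2) + (G 0 - D 0) :=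
    h.re 1 5 (nz8 y1) (nz8 y5) 3
  have r8 : (G 5 - D 5) + (G 5 - D 5) = (G 1 - D 1) + (G 1 - D 1) :=
    h.re 1 5 (nz8 y1) (nz8 y5) 4
  have r9 : (D 7 - E 7) + (D 1 - E 1) = (D 5 - E 5) + (D 7 - E 7) :=
    h.rg 0 6 (nz8 z0) (nz8 z6) 1
  have r10 : (D 6 - E 6) + (D 2 - E 2) = (D 4 - E 4) + (D 0 - E 0) :=
    h.rg 0 6 (nz8 z0) (nz8 z6) 2
  have r11 : (D 5 - E 5) + (D 3 - E 3) = (D 3 - E 3) + (D 1 - E 1) :=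
    h.rg 0 6 (nz8 z0) (nz8 z6) 3
  have r12 : (D 4 - E 4) + (D 4 - E 4) = (D 2 - E 2) + (D 2 - E 2) :=
    h.rg 0 6 (nz8 z0) (nz8 z6) 4
  simp only [x0, x1, x3, x5, x6, x7, y0, y2, y3, y4, y6, y7, z1, z2, z3, z4, z5, z7, sub_zero, zero_sub, add_zero, zero_add, mul_zero, sub_self] at sD sE sG v1 v2 r1 r2 r3 r4 r5 r6 r7 r8 r9 r10 r11 r12
  clear hl a0 a1 a2 a3 a4 a5 a6 a7
  have kD2 : D 2 = (D 4) * 1 := by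
    clear x0 x1 x3 x5 x6 x7 y0 y2 y3 y4 y6 y7 z1 z2 z3 z4 z5 z7
    omega
  have kD4 : D 4 = (D 4) * 1 := by
    clear x0 x1 x3 x5 x6 x7 y0 y2 y3 y4 y6 y7 z1 z2 z3 z4 z5 z7
    omega
  have kE1 : E 1 = (D 4) * 1 := by
    clear x0 x1 x3 x5 x6 x7 y0 y2 y3 y4 y6 y7 z1 z2 z3 z4 z5 z7
    omega
  have kE5 : E 5 = (D 4) * 1 := by
    clear x0 x1 x3 x5 x6 x7 y0 y2 y3 y4 y6 y7 z1 z2 z3 z4 z5 z7
    omega
  have kG0 : G 0 = (D 4) * 1 := by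
    clear x0 x1 x3 x5 x6 x7 y0 y2 y3 y4 y6 y7 z1 z2 z3 z4 z5 z7
    omega
  have kG6 : G 6 = (D 4) * 1 := by
    clear x0 x1 x3 x5 x6 x7 y0 y2 y3 y4 y6 y7 z1 z2 z3 z4 z5 z7
    omega
  refine Or.inl ⟨6, 4, 6, 5, (D 4), by linarith, all8 ?_ ?_ ?_ ?_ ?_ ?_ ?_ ?_,
    all8 ?_ ?_ ?_ ?_ ?_ ?_ ?_ ?_, all8 ?_ ?_ ?_ ?_ ?_ ?_ ?_ ?_⟩
  · show D 0 = (D 4) * 0
    rw [mul_zero]; exact x0
  · show D 1 = (D 4) * 0
    rw [mul_zero]; exact x1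
  · exact kD2
  · show D 3 = (D 4) * 0
    rw [mul_zero]; exact x3
  · exact kD4
  · show D 5 = (D 4) * 0
    rw [mul_zero]; exact x5
  · show D 6 = (D 4) * 0
    rw [mul_zero]; exact x6
  · show D 7 = (D 4) * 0
    rw [mul_zero]; exact x7
  · show E 0 = (D 4) * 0
    rw [mul_zero]; exact y0
  · exact kE1
  · show E 2 = (D 4) * 0
    rw [mul_zero]; exact y2
  · show E 3 = (D 4) * 0
    rw [mul_zero]; exact y3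
  · show E 4 = (D 4) * 0
    rw [mul_zero]; exact y4
  · exact kE5
  · show E 6 = (D 4) * 0
    rw [mul_zero]; exact y6
  · show E 7 = (D 4) * 0
    rw [mul_zero]; exact y7
  · exact kG0
  · show G 1 = (D 4) * 0
    rw [mul_zero]; exact z1
  · show G 2 = (D 4) * 0
    rw [mul_zero]; exact z2
  · show G 3 = (D 4) * 0
    rw [mul_zero]; exact z3
  · show G 4 = (D 4) * 0
    rw [mul_zero]; exact z4
  · show G 5 = (D 4) * 0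
    rw [mul_zero]; exact z5
  · exact kG6
  · show G 7 = (D 4) * 0
    rw [mul_zero]; exact z7

lemma cas_795 (h : H8 D E G d)
    (hl : ∀ i : ℕ, i < 8 → lab D E G (i : ZMod 8) = dg 795 i) : Con8 D E G := by
  have hk : d ≤ 4 := h.rh8 hl
  obtain ⟨a0, a1, a2, a3, a4, a5, a6, a7⟩ := hl8 hl
  obtain ⟨x0, y0, z0⟩ := h.toTr.lab3 (a0.trans rfl)
  obtain ⟨x1, y1, z1⟩ := h.toTr.lab2 (a1.trans rfl)
  obtain ⟨x2, y2, z2⟩ := h.toTr.lab1 (a2.trans rfl)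
  obtain ⟨x3, y3, z3⟩ := lab0 (a3.trans rfl)
  obtain ⟨x4, y4, z4⟩ := h.toTr.lab3 (a4.trans rfl)
  obtain ⟨x5, y5, z5⟩ := lab0 (a5.trans rfl)
  obtain ⟨x6, y6, z6⟩ := lab0 (a6.trans rfl)
  obtain ⟨x7, y7, z7⟩ := lab0 (a7.trans rfl)
  have sD := h.toTr.s8
  have sE := h.toTr.rot.s8
  have sG := h.toTr.rot.rot.s8
  have pd := h.pos
  have v1 := dvd8 h.s1
  have v2 := dvd8 h.s2
  have r1 : (D 7 - E 7) + (D 1 - E 1) = (D 3 - E 3) + (D 5 - E 5) :=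
    h.rg 0 4 (nz8 z0) (nz8 z4) 1
  have r2 : (D 6 - E 6) + (D 2 - E 2) = (D 2 - E 2) + (D 6 - E 6) :=
    h.rg 0 4 (nz8 z0) (nz8 z4) 2
  have r3 : (D 5 - E 5) + (D 3 - E 3) = (D 1 - E 1) + (D 7 - E 7) :=
    h.rg 0 4 (nz8 z0) (nz8 z4) 3
  have r4 : (D 4 - E 4) + (D 4 - E 4) = (D 0 - E 0) + (D 0 - E 0) :=
    h.rg 0 4 (nz8 z0) (nz8 z4) 4
  simp only [x0, x1, x3, x4, x5, x6, x7, y0, y2, y3, y4, y5, y6, y7, z1, z2, z3, z5, z6, z7, sub_zero, zero_sub, add_zero, zero_add, mul_zero, sub_self] at sD sE sG v1 v2 r1 r2 r3 r4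
  clear hl a0 a1 a2 a3 a4 a5 a6 a7
  clear x0 x1 x3 x4 x5 x6 x7 y0 y2 y3 y4 y5 y6 y7 z1 z2 z3 z5 z6 z7
  exfalso
  omega

lemma cas_4891 (h : H8 D E G d)
    (hl : ∀ i : ℕ, i < 8 → lab D E G (i : ZMod 8) = dg 4891 i) : Con8 D E G := by
  have hk : d ≤ 5 := h.rh8 hl
  obtain ⟨a0, a1, a2, a3, a4, a5, a6, a7⟩ := hl8 hl
  obtain ⟨x0, y0, z0⟩ := h.toTr.lab3 (a0.trans rfl)
  obtain ⟨x1, y1, z1⟩ := h.toTr.lab2 (a1.trans rfl)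
  obtain ⟨x2, y2, z2⟩ := h.toTr.lab1 (a2.trans rfl)
  obtain ⟨x3, y3, z3⟩ := lab0 (a3.trans rfl)
  obtain ⟨x4, y4, z4⟩ := h.toTr.lab3 (a4.trans rfl)
  obtain ⟨x5, y5, z5⟩ := lab0 (a5.trans rfl)
  obtain ⟨x6, y6, z6⟩ := h.toTr.lab1 (a6.trans rfl)
  obtain ⟨x7, y7, z7⟩ := lab0 (a7.trans rfl)
  have sD := h.toTr.s8
  have sE := h.toTr.rot.s8
  have sG := h.toTr.rot.rot.s8
  have pd := h.pos
  have v1 := dvd8 h.s1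
  have v2 := dvd8 h.s2
  have r1 : (E 1 - G 1) + (E 3 - G 3) = (E 5 - G 5) + (E 7 - G 7) :=
    h.rd 2 6 (nz8 x2) (nz8 x6) 1
  have r2 : (E 0 - G 0) + (E 4 - G 4) = (E 4 - G 4) + (E 0 - G 0) :=
    h.rd 2 6 (nz8 x2) (nz8 x6) 2
  have r3 : (E 7 - G 7) + (E 5 - G 5) = (E 3 - G 3) + (E 1 - G 1) :=
    h.rd 2 6 (nz8 x2) (nz8 x6) 3
  have r4 : (E 6 - G 6) + (E 6 - G 6) = (E 2 - G 2) + (E 2 - G 2) :=
    h.rd 2 6 (nz8 x2) (nz8 x6) 4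
  have r5 : (D 7 - E 7) + (D 1 - E 1) = (D 3 - E 3) + (D 5 - E 5) :=
    h.rg 0 4 (nz8 z0) (nz8 z4) 1
  have r6 : (D 6 - E 6) + (D 2 - E 2) = (D 2 - E 2) + (D 6 - E 6) :=
    h.rg 0 4 (nz8 z0) (nz8 z4) 2
  have r7 : (D 5 - E 5) + (D 3 - E 3) = (D 1 - E 1) + (D 7 - E 7) :=
    h.rg 0 4 (nz8 z0) (nz8 z4) 3
  have r8 : (D 4 - E 4) + (D 4 - E 4) = (D 0 - E 0) + (D 0 - E 0) :=
    h.rg 0 4 (nz8 z0) (nz8 z4) 4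
  simp only [x0, x1, x3, x4, x5, x7, y0, y2, y3, y4, y5, y6, y7, z1, z2, z3, z5, z6, z7, sub_zero, zero_sub, add_zero, zero_add, mul_zero, sub_self] at sD sE sG v1 v2 r1 r2 r3 r4 r5 r6 r7 r8
  clear hl a0 a1 a2 a3 a4 a5 a6 a7
  clear x0 x1 x3 x4 x5 x7 y0 y2 y3 y4 y5 y6 y7 z1 z2 z3 z5 z6 z7
  exfalso
  omega

lemma cas_2843 (h : H8 D E G d)
    (hl : ∀ i : ℕ, i < 8 → lab D E G (i : ZMod 8) = dg 2843 i) : Con8 D E G := by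
  have hk : d ≤ 5 := h.rh8 hl
  obtain ⟨a0, a1, a2, a3, a4, a5, a6, a7⟩ := hl8 hl
  obtain ⟨x0, y0, z0⟩ := h.toTr.lab3 (a0.trans rfl)
  obtain ⟨x1, y1, z1⟩ := h.toTr.lab2 (a1.trans rfl)
  obtain ⟨x2, y2, z2⟩ := h.toTr.lab1 (a2.trans rfl)
  obtain ⟨x3, y3, z3⟩ := lab0 (a3.trans rfl)
  obtain ⟨x4, y4, z4⟩ := h.toTr.lab3 (a4.trans rfl)
  obtain ⟨x5, y5, z5⟩ := h.toTr.lab2 (a5.trans rfl)
  obtain ⟨x6, y6, z6⟩ := lab0 (a6.trans rfl)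
  obtain ⟨x7, y7, z7⟩ := lab0 (a7.trans rfl)
  have sD := h.toTr.s8
  have sE := h.toTr.rot.s8
  have sG := h.toTr.rot.rot.s8
  have pd := h.pos
  have v1 := dvd8 h.s1
  have v2 := dvd8 h.s2
  have r1 : (G 0 - D 0) + (G 2 - D 2) = (G 4 - D 4) + (G 6 - D 6) :=
    h.re 1 5 (nz8 y1) (nz8 y5) 1
  have r2 : (G 7 - D 7) + (G 3 - D 3) = (G 3 - D 3) + (G 7 - D 7) :=
    h.re 1 5 (nz8 y1) (nz8 y5) 2
  have r3 : (G 6 - D 6) + (G 4 - D 4) = (G 2 - D 2) + (G 0 - D 0) :=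
    h.re 1 5 (nz8 y1) (nz8 y5) 3
  have r4 : (G 5 - D 5) + (G 5 - D 5) = (G 1 - D 1) + (G 1 - D 1) :=
    h.re 1 5 (nz8 y1) (nz8 y5) 4
  have r5 : (D 7 - E 7) + (D 1 - E 1) = (D 3 - E 3) + (D 5 - E 5) :=
    h.rg 0 4 (nz8 z0) (nz8 z4) 1
  have r6 : (D 6 - E 6) + (D 2 - E 2) = (D 2 - E 2) + (D 6 - E 6) :=
    h.rg 0 4 (nz8 z0) (nz8 z4) 2
  have r7 : (D 5 - E 5) + (D 3 - E 3) = (D 1 - E 1) + (D 7 - E 7) :=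
    h.rg 0 4 (nz8 z0) (nz8 z4) 3
  have r8 : (D 4 - E 4) + (D 4 - E 4) = (D 0 - E 0) + (D 0 - E 0) :=
    h.rg 0 4 (nz8 z0) (nz8 z4) 4
  simp only [x0, x1, x3, x4, x5, x6, x7, y0, y2, y3, y4, y6, y7, z1, z2, z3, z5, z6, z7, sub_zero, zero_sub, add_zero, zero_add, mul_zero, sub_self] at sD sE sG v1 v2 r1 r2 r3 r4 r5 r6 r7 r8
  clear hl a0 a1 a2 a3 a4 a5 a6 a7
  clear x0 x1 x3 x4 x5 x6 x7 y0 y2 y3 y4 y6 y7 z1 z2 z3 z5 z6 z7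
  exfalso
  omega

lemma cas_6939 (h : H8 D E G d)
    (hl : ∀ i : ℕ, i < 8 → lab D E G (i : ZMod 8) = dg 6939 i) : Con8 D E G := by
  have hk : d ≤ 6 := h.rh8 hl
  obtain ⟨a0, a1, a2, a3, a4, a5, a6, a7⟩ := hl8 hl
  obtain ⟨x0, y0, z0⟩ := h.toTr.lab3 (a0.trans rfl)
  obtain ⟨x1, y1, z1⟩ := h.toTr.lab2 (a1.trans rfl)
  obtain ⟨x2, y2, z2⟩ := h.toTr.lab1 (a2.trans rfl)
  obtain ⟨x3, y3, z3⟩ := lab0 (a3.trans rfl)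
  obtain ⟨x4, y4, z4⟩ := h.toTr.lab3 (a4.trans rfl)
  obtain ⟨x5, y5, z5⟩ := h.toTr.lab2 (a5.trans rfl)
  obtain ⟨x6, y6, z6⟩ := h.toTr.lab1 (a6.trans rfl)
  obtain ⟨x7, y7, z7⟩ := lab0 (a7.trans rfl)
  have sD := h.toTr.s8
  have sE := h.toTr.rot.s8
  have sG := h.toTr.rot.rot.s8
  have pd := h.pos
  have v1 := dvd8 h.s1
  have v2 := dvd8 h.s2
  have r1 : (E 1 - G 1) + (E 3 - G 3) = (E 5 - G 5) + (E 7 - G 7) :=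
    h.rd 2 6 (nz8 x2) (nz8 x6) 1
  have r2 : (E 0 - G 0) + (E 4 - G 4) = (E 4 - G 4) + (E 0 - G 0) :=
    h.rd 2 6 (nz8 x2) (nz8 x6) 2
  have r3 : (E 7 - G 7) + (E 5 - G 5) = (E 3 - G 3) + (E 1 - G 1) :=
    h.rd 2 6 (nz8 x2) (nz8 x6) 3
  have r4 : (E 6 - G 6) + (E 6 - G 6) = (E 2 - G 2) + (E 2 - G 2) :=
    h.rd 2 6 (nz8 x2) (nz8 x6) 4
  have r5 : (G 0 - D 0) + (G 2 - D 2) = (G 4 - D 4) + (G 6 - D 6) :=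
    h.re 1 5 (nz8 y1) (nz8 y5) 1
  have r6 : (G 7 - D 7) + (G 3 - D 3) = (G 3 - D 3) + (G 7 - D 7) :=
    h.re 1 5 (nz8 y1) (nz8 y5) 2
  have r7 : (G 6 - D 6) + (G 4 - D 4) = (G 2 - D 2) + (G 0 - D 0) :=
    h.re 1 5 (nz8 y1) (nz8 y5) 3
  have r8 : (G 5 - D 5) + (G 5 - D 5) = (G 1 - D 1) + (G 1 - D 1) :=
    h.re 1 5 (nz8 y1) (nz8 y5) 4
  have r9 : (D 7 - E 7) + (D 1 - E 1) = (D 3 - E 3) + (D 5 - E 5) :=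
    h.rg 0 4 (nz8 z0) (nz8 z4) 1
  have r10 : (D 6 - E 6) + (D 2 - E 2) = (D 2 - E 2) + (D 6 - E 6) :=
    h.rg 0 4 (nz8 z0) (nz8 z4) 2
  have r11 : (D 5 - E 5) + (D 3 - E 3) = (D 1 - E 1) + (D 7 - E 7) :=
    h.rg 0 4 (nz8 z0) (nz8 z4) 3
  have r12 : (D 4 - E 4) + (D 4 - E 4) = (D 0 - E 0) + (D 0 - E 0) :=
    h.rg 0 4 (nz8 z0) (nz8 z4) 4
  simp only [x0, x1, x3, x4, x5, x7, y0, y2, y3, y4, y6, y7, z1, z2, z3, z5, z6, z7, sub_zero, zero_sub, add_zero, zero_add, mul_zero, sub_self] at sD sE sG v1 v2 r1 r2 r3 r4 r5 r6 r7 r8 r9 r10 r11 r12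
  clear hl a0 a1 a2 a3 a4 a5 a6 a7
  have hh : (D 2 = 1 ∧ D 6 = 3 ∧ E 1 = 2 ∧ E 5 = 2 ∧ G 0 = 1 ∧ G 4 = 3) ∨ (D 2 = 3 ∧ D 6 = 1 ∧ E 1 = 2 ∧ E 5 = 2 ∧ G 0 = 3 ∧ G 4 = 1) := by
    clear x0 x1 x3 x4 x5 x7 y0 y2 y3 y4 y6 y7 z1 z2 z3 z5 z6 z7
    omega
  rcases hh with hh | hh
  · refine Or.inr ⟨5, (Or.inr (Or.inr (Or.inl (Or.inl ⟨funext (all8 ?_ ?_ ?_ ?_ ?_ ?_ ?_ ?_),
      funext (all8 ?_ ?_ ?_ ?_ ?_ ?_ ?_ ?_), funext (all8 ?_ ?_ ?_ ?_ ?_ ?_ ?_ ?_)⟩))))⟩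
    · show E 5 = 2
      exact hh.2.2.2.1
    · exact y6
    · exact y7
    · exact y0
    · show E 1 = 2
      exact hh.2.2.1
    · exact y2
    · exact y3
    · exact y4
    · exact x5
    · show D 6 = 3
      exact hh.2.1
    · exact x7
    · exact x0
    · exact x1
    · show D 2 = 1
      exact hh.1
    · exact x3
    · exact x4
    · exact z5
    · exact z6
    · exact z7
    · show G 0 = 1
      exact hh.2.2.2.2.1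
    · exact z1
    · exact z2
    · exact z3
    · show G 4 = 3
      exact hh.2.2.2.2.2
  · refine Or.inr ⟨1, (Or.inr (Or.inr (Or.inl (Or.inl ⟨funext (all8 ?_ ?_ ?_ ?_ ?_ ?_ ?_ ?_),
      funext (all8 ?_ ?_ ?_ ?_ ?_ ?_ ?_ ?_), funext (all8 ?_ ?_ ?_ ?_ ?_ ?_ ?_ ?_)⟩))))⟩
    · show E 1 = 2
      exact hh.2.2.1
    · exact y2
    · exact y3
    · exact y4
    · show E 5 = 2
      exact hh.2.2.2.1
    · exact y6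
    · exact y7
    · exact y0
    · exact x1
    · show D 2 = 3
      exact hh.1
    · exact x3
    · exact x4
    · exact x5
    · show D 6 = 1
      exact hh.2.1
    · exact x7
    · exact x0
    · exact z1
    · exact z2
    · exact z3
    · show G 4 = 1
      exact hh.2.2.2.2.2
    · exact z5
    · exact z6
    · exact z7
    · show G 0 = 3
      exact hh.2.2.2.2.1

lemma cas_1083 (h : H8 D E G d)
    (hl : ∀ i : ℕ, i < 8 → lab D E G (i : ZMod 8) = dg 1083 i) : Con8 D E G := by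
  have hk : d ≤ 4 := h.rh8 hl
  obtain ⟨a0, a1, a2, a3, a4, a5, a6, a7⟩ := hl8 hl
  obtain ⟨x0, y0, z0⟩ := h.toTr.lab3 (a0.trans rfl)
  obtain ⟨x1, y1, z1⟩ := h.toTr.lab2 (a1.trans rfl)
  obtain ⟨x2, y2, z2⟩ := h.toTr.lab3 (a2.trans rfl)
  obtain ⟨x3, y3, z3⟩ := lab0 (a3.trans rfl)
  obtain ⟨x4, y4, z4⟩ := lab0 (a4.trans rfl)
  obtain ⟨x5, y5, z5⟩ := h.toTr.lab1 (a5.trans rfl)
  obtain ⟨x6, y6, z6⟩ := lab0 (a6.trans rfl)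
  obtain ⟨x7, y7, z7⟩ := lab0 (a7.trans rfl)
  have sD := h.toTr.s8
  have sE := h.toTr.rot.s8
  have sG := h.toTr.rot.rot.s8
  have pd := h.pos
  have v1 := dvd8 h.s1
  have v2 := dvd8 h.s2
  have r1 : (D 7 - E 7) + (D 1 - E 1) = (D 1 - E 1) + (D 3 - E 3) :=
    h.rg 0 2 (nz8 z0) (nz8 z2) 1
  have r2 : (D 6 - E 6) + (D 2 - E 2) = (D 0 - E 0) + (D 4 - E 4) :=
    h.rg 0 2 (nz8 z0) (nz8 z2) 2
  have r3 : (D 5 - E 5) + (D 3 - E 3) = (D 7 - E 7) + (D 5 - E 5) :=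
    h.rg 0 2 (nz8 z0) (nz8 z2) 3
  have r4 : (D 4 - E 4) + (D 4 - E 4) = (D 6 - E 6) + (D 6 - E 6) :=
    h.rg 0 2 (nz8 z0) (nz8 z2) 4
  simp only [x0, x1, x2, x3, x4, x6, x7, y0, y2, y3, y4, y5, y6, y7, z1, z3, z4, z5, z6, z7, sub_zero, zero_sub, add_zero, zero_add, mul_zero, sub_self] at sD sE sG v1 v2 r1 r2 r3 r4
  clear hl a0 a1 a2 a3 a4 a5 a6 a7
  have kD5 : D 5 = (G 2) * 2 := by
    clear x0 x1 x2 x3 x4 x6 x7 y0 y2 y3 y4 y5 y6 y7 z1 z3 z4 z5 z6 z7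
    omega
  have kE1 : E 1 = (G 2) * 2 := by
    clear x0 x1 x2 x3 x4 x6 x7 y0 y2 y3 y4 y5 y6 y7 z1 z3 z4 z5 z6 z7
    omega
  have kG0 : G 0 = (G 2) * 1 := by
    clear x0 x1 x2 x3 x4 x6 x7 y0 y2 y3 y4 y5 y6 y7 z1 z3 z4 z5 z6 z7
    omega
  have kG2 : G 2 = (G 2) * 1 := by
    clear x0 x1 x2 x3 x4 x6 x7 y0 y2 y3 y4 y5 y6 y7 z1 z3 z4 z5 z6 z7
    omega
  refine Or.inl ⟨2, 5, 2, 1, (G 2), by linarith, all8 ?_ ?_ ?_ ?_ ?_ ?_ ?_ ?_,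
    all8 ?_ ?_ ?_ ?_ ?_ ?_ ?_ ?_, all8 ?_ ?_ ?_ ?_ ?_ ?_ ?_ ?_⟩
  · show D 0 = (G 2) * 0
    rw [mul_zero]; exact x0
  · show D 1 = (G 2) * 0
    rw [mul_zero]; exact x1
  · show D 2 = (G 2) * 0
    rw [mul_zero]; exact x2
  · show D 3 = (G 2) * 0
    rw [mul_zero]; exact x3
  · show D 4 = (G 2) * 0
    rw [mul_zero]; exact x4
  · exact kD5
  · show D 6 = (G 2) * 0
    rw [mul_zero]; exact x6
  · show D 7 = (G 2) * 0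
    rw [mul_zero]; exact x7
  · show E 0 = (G 2) * 0
    rw [mul_zero]; exact y0
  · exact kE1
  · show E 2 = (G 2) * 0
    rw [mul_zero]; exact y2
  · show E 3 = (G 2) * 0
    rw [mul_zero]; exact y3
  · show E 4 = (G 2) * 0
    rw [mul_zero]; exact y4
  · show E 5 = (G 2) * 0
    rw [mul_zero]; exact y5
  · show E 6 = (G 2) * 0
    rw [mul_zero]; exact y6
  · show E 7 = (G 2) * 0
    rw [mul_zero]; exact y7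
  · exact kG0
  · show G 1 = (G 2) * 0
    rw [mul_zero]; exact z1
  · exact kG2
  · show G 3 = (G 2) * 0
    rw [mul_zero]; exact z3
  · show G 4 = (G 2) * 0
    rw [mul_zero]; exact z4
  · show G 5 = (G 2) * 0
    rw [mul_zero]; exact z5
  · show G 6 = (G 2) * 0
    rw [mul_zero]; exact z6
  · show G 7 = (G 2) * 0
    rw [mul_zero]; exact z7

lemma cas_4411 (h : H8 D E G d)
    (hl : ∀ i : ℕ, i < 8 → lab D E G (i : ZMod 8) = dg 4411 i) : Con8 D E G := by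
  have hk : d ≤ 5 := h.rh8 hl
  obtain ⟨a0, a1, a2, a3, a4, a5, a6, a7⟩ := hl8 hl
  obtain ⟨x0, y0, z0⟩ := h.toTr.lab3 (a0.trans rfl)
  obtain ⟨x1, y1, z1⟩ := h.toTr.lab2 (a1.trans rfl)
  obtain ⟨x2, y2, z2⟩ := h.toTr.lab3 (a2.trans rfl)
  obtain ⟨x3, y3, z3⟩ := lab0 (a3.trans rfl)
  obtain ⟨x4, y4, z4⟩ := h.toTr.lab1 (a4.trans rfl)
  obtain ⟨x5, y5, z5⟩ := lab0 (a5.trans rfl)
  obtain ⟨x6, y6, z6⟩ := h.toTr.lab1 (a6.trans rfl)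
  obtain ⟨x7, y7, z7⟩ := lab0 (a7.trans rfl)
  have sD := h.toTr.s8
  have sE := h.toTr.rot.s8
  have sG := h.toTr.rot.rot.s8
  have pd := h.pos
  have v1 := dvd8 h.s1
  have v2 := dvd8 h.s2
  have r1 : (E 3 - G 3) + (E 5 - G 5) = (E 5 - G 5) + (E 7 - G 7) :=
    h.rd 4 6 (nz8 x4) (nz8 x6) 1
  have r2 : (E 2 - G 2) + (E 6 - G 6) = (E 4 - G 4) + (E 0 - G 0) :=
    h.rd 4 6 (nz8 x4) (nz8 x6) 2
  have r3 : (E 1 - G 1) + (E 7 - G 7) = (E 3 - G 3) + (E 1 - G 1) :=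
    h.rd 4 6 (nz8 x4) (nz8 x6) 3
  have r4 : (E 0 - G 0) + (E 0 - G 0) = (E 2 - G 2) + (E 2 - G 2) :=
    h.rd 4 6 (nz8 x4) (nz8 x6) 4
  have r5 : (D 7 - E 7) + (D 1 - E 1) = (D 1 - E 1) + (D 3 - E 3) :=
    h.rg 0 2 (nz8 z0) (nz8 z2) 1
  have r6 : (D 6 - E 6) + (D 2 - E 2) = (D 0 - E 0) + (D 4 - E 4) :=
    h.rg 0 2 (nz8 z0) (nz8 z2) 2
  have r7 : (D 5 - E 5) + (D 3 - E 3) = (D 7 - E 7) + (D 5 - E 5) :=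
    h.rg 0 2 (nz8 z0) (nz8 z2) 3
  have r8 : (D 4 - E 4) + (D 4 - E 4) = (D 6 - E 6) + (D 6 - E 6) :=
    h.rg 0 2 (nz8 z0) (nz8 z2) 4
  simp only [x0, x1, x2, x3, x5, x7, y0, y2, y3, y4, y5, y6, y7, z1, z3, z4, z5, z6, z7, sub_zero, zero_sub, add_zero, zero_add, mul_zero, sub_self] at sD sE sG v1 v2 r1 r2 r3 r4 r5 r6 r7 r8
  clear hl a0 a1 a2 a3 a4 a5 a6 a7
  have kD4 : D 4 = (D 6) * 1 := by
    clear x0 x1 x2 x3 x5 x7 y0 y2 y3 y4 y5 y6 y7 z1 z3 z4 z5 z6 z7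
    omega
  have kD6 : D 6 = (D 6) * 1 := by
    clear x0 x1 x2 x3 x5 x7 y0 y2 y3 y4 y5 y6 y7 z1 z3 z4 z5 z6 z7
    omega
  have kE1 : E 1 = (D 6) * 2 := by
    clear x0 x1 x2 x3 x5 x7 y0 y2 y3 y4 y5 y6 y7 z1 z3 z4 z5 z6 z7
    omega
  have kG0 : G 0 = (D 6) * 1 := by
    clear x0 x1 x2 x3 x5 x7 y0 y2 y3 y4 y5 y6 y7 z1 z3 z4 z5 z6 z7
    omega
  have kG2 : G 2 = (D 6) * 1 := by
    clear x0 x1 x2 x3 x5 x7 y0 y2 y3 y4 y5 y6 y7 z1 z3 z4 z5 z6 z7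
    omega
  refine Or.inl ⟨2, 6, 2, 1, (D 6), by linarith, all8 ?_ ?_ ?_ ?_ ?_ ?_ ?_ ?_,
    all8 ?_ ?_ ?_ ?_ ?_ ?_ ?_ ?_, all8 ?_ ?_ ?_ ?_ ?_ ?_ ?_ ?_⟩
  · show D 0 = (D 6) * 0
    rw [mul_zero]; exact x0
  · show D 1 = (D 6) * 0
    rw [mul_zero]; exact x1
  · show D 2 = (D 6) * 0
    rw [mul_zero]; exact x2
  · show D 3 = (D 6) * 0
    rw [mul_zero]; exact x3
  · exact kD4
  · show D 5 = (D 6) * 0
    rw [mul_zero]; exact x5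
  · exact kD6
  · show D 7 = (D 6) * 0
    rw [mul_zero]; exact x7
  · show E 0 = (D 6) * 0
    rw [mul_zero]; exact y0
  · exact kE1
  · show E 2 = (D 6) * 0
    rw [mul_zero]; exact y2
  · show E 3 = (D 6) * 0
    rw [mul_zero]; exact y3
  · show E 4 = (D 6) * 0
    rw [mul_zero]; exact y4
  · show E 5 = (D 6) * 0
    rw [mul_zero]; exact y5
  · show E 6 = (D 6) * 0
    rw [mul_zero]; exact y6
  · show E 7 = (D 6) * 0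
    rw [mul_zero]; exact y7
  · exact kG0
  · show G 1 = (D 6) * 0
    rw [mul_zero]; exact z1
  · exact kG2
  · show G 3 = (D 6) * 0
    rw [mul_zero]; exact z3
  · show G 4 = (D 6) * 0
    rw [mul_zero]; exact z4
  · show G 5 = (D 6) * 0
    rw [mul_zero]; exact z5
  · show G 6 = (D 6) * 0
    rw [mul_zero]; exact z6
  · show G 7 = (D 6) * 0
    rw [mul_zero]; exact z7

lemma cas_6459 (h : H8 D E G d)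
    (hl : ∀ i : ℕ, i < 8 → lab D E G (i : ZMod 8) = dg 6459 i) : Con8 D E G := by
  have hk : d ≤ 6 := h.rh8 hl
  obtain ⟨a0, a1, a2, a3, a4, a5, a6, a7⟩ := hl8 hl
  obtain ⟨x0, y0, z0⟩ := h.toTr.lab3 (a0.trans rfl)
  obtain ⟨x1, y1, z1⟩ := h.toTr.lab2 (a1.trans rfl)
  obtain ⟨x2, y2, z2⟩ := h.toTr.lab3 (a2.trans rfl)
  obtain ⟨x3, y3, z3⟩ := lab0 (a3.trans rfl)
  obtain ⟨x4, y4, z4⟩ := h.toTr.lab1 (a4.trans rfl)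
  obtain ⟨x5, y5, z5⟩ := h.toTr.lab2 (a5.trans rfl)
  obtain ⟨x6, y6, z6⟩ := h.toTr.lab1 (a6.trans rfl)
  obtain ⟨x7, y7, z7⟩ := lab0 (a7.trans rfl)
  have sD := h.toTr.s8
  have sE := h.toTr.rot.s8
  have sG := h.toTr.rot.rot.s8
  have pd := h.pos
  have v1 := dvd8 h.s1
  have v2 := dvd8 h.s2
  have r1 : (E 3 - G 3) + (E 5 - G 5) = (E 5 - G 5) + (E 7 - G 7) :=
    h.rd 4 6 (nz8 x4) (nz8 x6) 1
  have r2 : (E 2 - G 2) + (E 6 - G 6) = (E 4 - G 4) + (E 0 - G 0) :=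
    h.rd 4 6 (nz8 x4) (nz8 x6) 2
  have r3 : (E 1 - G 1) + (E 7 - G 7) = (E 3 - G 3) + (E 1 - G 1) :=
    h.rd 4 6 (nz8 x4) (nz8 x6) 3
  have r4 : (E 0 - G 0) + (E 0 - G 0) = (E 2 - G 2) + (E 2 - G 2) :=
    h.rd 4 6 (nz8 x4) (nz8 x6) 4
  have r5 : (G 0 - D 0) + (G 2 - D 2) = (G 4 - D 4) + (G 6 - D 6) :=
    h.re 1 5 (nz8 y1) (nz8 y5) 1
  have r6 : (G 7 - D 7) + (G 3 - D 3) = (G 3 - D 3) + (G 7 - D 7) :=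
    h.re 1 5 (nz8 y1) (nz8 y5) 2
  have r7 : (G 6 - D 6) + (G 4 - D 4) = (G 2 - D 2) + (G 0 - D 0) :=
    h.re 1 5 (nz8 y1) (nz8 y5) 3
  have r8 : (G 5 - D 5) + (G 5 - D 5) = (G 1 - D 1) + (G 1 - D 1) :=
    h.re 1 5 (nz8 y1) (nz8 y5) 4
  have r9 : (D 7 - E 7) + (D 1 - E 1) = (D 1 - E 1) + (D 3 - E 3) :=
    h.rg 0 2 (nz8 z0) (nz8 z2) 1
  have r10 : (D 6 - E 6) + (D 2 - E 2) = (D 0 - E 0) + (D 4 - E 4) :=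
    h.rg 0 2 (nz8 z0) (nz8 z2) 2
  have r11 : (D 5 - E 5) + (D 3 - E 3) = (D 7 - E 7) + (D 5 - E 5) :=
    h.rg 0 2 (nz8 z0) (nz8 z2) 3
  have r12 : (D 4 - E 4) + (D 4 - E 4) = (D 6 - E 6) + (D 6 - E 6) :=
    h.rg 0 2 (nz8 z0) (nz8 z2) 4
  simp only [x0, x1, x2, x3, x5, x7, y0, y2, y3, y4, y6, y7, z1, z3, z4, z5, z6, z7, sub_zero, zero_sub, add_zero, zero_add, mul_zero, sub_self] at sD sE sG v1 v2 r1 r2 r3 r4 r5 r6 r7 r8 r9 r10 r11 r12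
  clear hl a0 a1 a2 a3 a4 a5 a6 a7
  clear x0 x1 x2 x3 x5 x7 y0 y2 y3 y4 y6 y7 z1 z3 z4 z5 z6 z7
  exfalso
  omega

lemma cas_16507 (h : H8 D E G d)
    (hl : ∀ i : ℕ, i < 8 → lab D E G (i : ZMod 8) = dg 16507 i) : Con8 D E G := by
  have hk : d ≤ 5 := h.rh8 hl
  obtain ⟨a0, a1, a2, a3, a4, a5, a6, a7⟩ := hl8 hl
  obtain ⟨x0, y0, z0⟩ := h.toTr.lab3 (a0.trans rfl)
  obtain ⟨x1, y1, z1⟩ := h.toTr.lab2 (a1.trans rfl)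
  obtain ⟨x2, y2, z2⟩ := h.toTr.lab3 (a2.trans rfl)
  obtain ⟨x3, y3, z3⟩ := h.toTr.lab1 (a3.trans rfl)
  obtain ⟨x4, y4, z4⟩ := lab0 (a4.trans rfl)
  obtain ⟨x5, y5, z5⟩ := lab0 (a5.trans rfl)
  obtain ⟨x6, y6, z6⟩ := lab0 (a6.trans rfl)
  obtain ⟨x7, y7, z7⟩ := h.toTr.lab1 (a7.trans rfl)
  have sD := h.toTr.s8
  have sE := h.toTr.rot.s8
  have sG := h.toTr.rot.rot.s8
  have pd := h.pos
  have v1 := dvd8 h.s1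
  have v2 := dvd8 h.s2
  have r1 : (E 2 - G 2) + (E 4 - G 4) = (E 6 - G 6) + (E 0 - G 0) :=
    h.rd 3 7 (nz8 x3) (nz8 x7) 1
  have r2 : (E 1 - G 1) + (E 5 - G 5) = (E 5 - G 5) + (E 1 - G 1) :=
    h.rd 3 7 (nz8 x3) (nz8 x7) 2
  have r3 : (E 0 - G 0) + (E 6 - G 6) = (E 4 - G 4) + (E 2 - G 2) :=
    h.rd 3 7 (nz8 x3) (nz8 x7) 3
  have r4 : (E 7 - G 7) + (E 7 - G 7) = (E 3 - G 3) + (E 3 - G 3) :=
    h.rd 3 7 (nz8 x3) (nz8 x7) 4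
  have r5 : (D 7 - E 7) + (D 1 - E 1) = (D 1 - E 1) + (D 3 - E 3) :=
    h.rg 0 2 (nz8 z0) (nz8 z2) 1
  have r6 : (D 6 - E 6) + (D 2 - E 2) = (D 0 - E 0) + (D 4 - E 4) :=
    h.rg 0 2 (nz8 z0) (nz8 z2) 2
  have r7 : (D 5 - E 5) + (D 3 - E 3) = (D 7 - E 7) + (D 5 - E 5) :=
    h.rg 0 2 (nz8 z0) (nz8 z2) 3
  have r8 : (D 4 - E 4) + (D 4 - E 4) = (D 6 - E 6) + (D 6 - E 6) :=
    h.rg 0 2 (nz8 z0) (nz8 z2) 4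
  simp only [x0, x1, x2, x4, x5, x6, y0, y2, y3, y4, y5, y6, y7, z1, z3, z4, z5, z6, z7, sub_zero, zero_sub, add_zero, zero_add, mul_zero, sub_self] at sD sE sG v1 v2 r1 r2 r3 r4 r5 r6 r7 r8
  clear hl a0 a1 a2 a3 a4 a5 a6 a7
  have kD3 : D 3 = (D 7) * 1 := by
    clear x0 x1 x2 x4 x5 x6 y0 y2 y3 y4 y5 y6 y7 z1 z3 z4 z5 z6 z7
    omega
  have kD7 : D 7 = (D 7) * 1 := by
    clear x0 x1 x2 x4 x5 x6 y0 y2 y3 y4 y5 y6 y7 z1 z3 z4 z5 z6 z7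
    omega
  have kE1 : E 1 = (D 7) * 2 := by
    clear x0 x1 x2 x4 x5 x6 y0 y2 y3 y4 y5 y6 y7 z1 z3 z4 z5 z6 z7
    omega
  have kG0 : G 0 = (D 7) * 1 := by
    clear x0 x1 x2 x4 x5 x6 y0 y2 y3 y4 y5 y6 y7 z1 z3 z4 z5 z6 z7
    omega
  have kG2 : G 2 = (D 7) * 1 := by
    clear x0 x1 x2 x4 x5 x6 y0 y2 y3 y4 y5 y6 y7 z1 z3 z4 z5 z6 z7
    omega
  refine Or.inl ⟨2, 7, 2, 1, (D 7), by linarith, all8 ?_ ?_ ?_ ?_ ?_ ?_ ?_ ?_,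
    all8 ?_ ?_ ?_ ?_ ?_ ?_ ?_ ?_, all8 ?_ ?_ ?_ ?_ ?_ ?_ ?_ ?_⟩
  · show D 0 = (D 7) * 0
    rw [mul_zero]; exact x0
  · show D 1 = (D 7) * 0
    rw [mul_zero]; exact x1
  · show D 2 = (D 7) * 0
    rw [mul_zero]; exact x2
  · exact kD3
  · show D 4 = (D 7) * 0
    rw [mul_zero]; exact x4
  · show D 5 = (D 7) * 0
    rw [mul_zero]; exact x5
  · show D 6 = (D 7) * 0
    rw [mul_zero]; exact x6
  · exact kD7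
  · show E 0 = (D 7) * 0
    rw [mul_zero]; exact y0
  · exact kE1
  · show E 2 = (D 7) * 0
    rw [mul_zero]; exact y2
  · show E 3 = (D 7) * 0
    rw [mul_zero]; exact y3
  · show E 4 = (D 7) * 0
    rw [mul_zero]; exact y4
  · show E 5 = (D 7) * 0
    rw [mul_zero]; exact y5
  · show E 6 = (D 7) * 0
    rw [mul_zero]; exact y6
  · show E 7 = (D 7) * 0
    rw [mul_zero]; exact y7
  · exact kG0
  · show G 1 = (D 7) * 0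
    rw [mul_zero]; exact z1
  · exact kG2
  · show G 3 = (D 7) * 0
    rw [mul_zero]; exact z3
  · show G 4 = (D 7) * 0
    rw [mul_zero]; exact z4
  · show G 5 = (D 7) * 0
    rw [mul_zero]; exact z5
  · show G 6 = (D 7) * 0
    rw [mul_zero]; exact z6
  · show G 7 = (D 7) * 0
    rw [mul_zero]; exact z7

lemma cas_18555 (h : H8 D E G d)
    (hl : ∀ i : ℕ, i < 8 → lab D E G (i : ZMod 8) = dg 18555 i) : Con8 D E G := by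
  have hk : d ≤ 6 := h.rh8 hl
  obtain ⟨a0, a1, a2, a3, a4, a5, a6, a7⟩ := hl8 hl
  obtain ⟨x0, y0, z0⟩ := h.toTr.lab3 (a0.trans rfl)
  obtain ⟨x1, y1, z1⟩ := h.toTr.lab2 (a1.trans rfl)
  obtain ⟨x2, y2, z2⟩ := h.toTr.lab3 (a2.trans rfl)
  obtain ⟨x3, y3, z3⟩ := h.toTr.lab1 (a3.trans rfl)
  obtain ⟨x4, y4, z4⟩ := lab0 (a4.trans rfl)
  obtain ⟨x5, y5, z5⟩ := h.toTr.lab2 (a5.trans rfl)
  obtain ⟨x6, y6, z6⟩ := lab0 (a6.trans rfl)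
  obtain ⟨x7, y7, z7⟩ := h.toTr.lab1 (a7.trans rfl)
  have sD := h.toTr.s8
  have sE := h.toTr.rot.s8
  have sG := h.toTr.rot.rot.s8
  have pd := h.pos
  have v1 := dvd8 h.s1
  have v2 := dvd8 h.s2
  have r1 : (E 2 - G 2) + (E 4 - G 4) = (E 6 - G 6) + (E 0 - G 0) :=
    h.rd 3 7 (nz8 x3) (nz8 x7) 1
  have r2 : (E 1 - G 1) + (E 5 - G 5) = (E 5 - G 5) + (E 1 - G 1) :=
    h.rd 3 7 (nz8 x3) (nz8 x7) 2
  have r3 : (E 0 - G 0) + (E 6 - G 6) = (E 4 - G 4) + (E 2 - G 2) :=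
    h.rd 3 7 (nz8 x3) (nz8 x7) 3
  have r4 : (E 7 - G 7) + (E 7 - G 7) = (E 3 - G 3) + (E 3 - G 3) :=
    h.rd 3 7 (nz8 x3) (nz8 x7) 4
  have r5 : (G 0 - D 0) + (G 2 - D 2) = (G 4 - D 4) + (G 6 - D 6) :=
    h.re 1 5 (nz8 y1) (nz8 y5) 1
  have r6 : (G 7 - D 7) + (G 3 - D 3) = (G 3 - D 3) + (G 7 - D 7) :=
    h.re 1 5 (nz8 y1) (nz8 y5) 2
  have r7 : (G 6 - D 6) + (G 4 - D 4) = (G 2 - D 2) + (G 0 - D 0) :=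
    h.re 1 5 (nz8 y1) (nz8 y5) 3
  have r8 : (G 5 - D 5) + (G 5 - D 5) = (G 1 - D 1) + (G 1 - D 1) :=
    h.re 1 5 (nz8 y1) (nz8 y5) 4
  have r9 : (D 7 - E 7) + (D 1 - E 1) = (D 1 - E 1) + (D 3 - E 3) :=
    h.rg 0 2 (nz8 z0) (nz8 z2) 1
  have r10 : (D 6 - E 6) + (D 2 - E 2) = (D 0 - E 0) + (D 4 - E 4) :=
    h.rg 0 2 (nz8 z0) (nz8 z2) 2
  have r11 : (D 5 - E 5) + (D 3 - E 3) = (D 7 - E 7) + (D 5 - E 5) :=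
    h.rg 0 2 (nz8 z0) (nz8 z2) 3
  have r12 : (D 4 - E 4) + (D 4 - E 4) = (D 6 - E 6) + (D 6 - E 6) :=
    h.rg 0 2 (nz8 z0) (nz8 z2) 4
  simp only [x0, x1, x2, x4, x5, x6, y0, y2, y3, y4, y6, y7, z1, z3, z4, z5, z6, z7, sub_zero, zero_sub, add_zero, zero_add, mul_zero, sub_self] at sD sE sG v1 v2 r1 r2 r3 r4 r5 r6 r7 r8 r9 r10 r11 r12
  clear hl a0 a1 a2 a3 a4 a5 a6 a7
  clear x0 x1 x2 x4 x5 x6 y0 y2 y3 y4 y6 y7 z1 z3 z4 z5 z6 z7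
  exfalso
  omega

lemma cas_19323 (h : H8 D E G d)
    (hl : ∀ i : ℕ, i < 8 → lab D E G (i : ZMod 8) = dg 19323 i) : Con8 D E G := by
  have hk : d ≤ 7 := h.rh8 hl
  obtain ⟨a0, a1, a2, a3, a4, a5, a6, a7⟩ := hl8 hl
  obtain ⟨x0, y0, z0⟩ := h.toTr.lab3 (a0.trans rfl)
  obtain ⟨x1, y1, z1⟩ := h.toTr.lab2 (a1.trans rfl)
  obtain ⟨x2, y2, z2⟩ := h.toTr.lab3 (a2.trans rfl)
  obtain ⟨x3, y3, z3⟩ := h.toTr.lab1 (a3.trans rfl)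
  obtain ⟨x4, y4, z4⟩ := h.toTr.lab3 (a4.trans rfl)
  obtain ⟨x5, y5, z5⟩ := h.toTr.lab2 (a5.trans rfl)
  obtain ⟨x6, y6, z6⟩ := lab0 (a6.trans rfl)
  obtain ⟨x7, y7, z7⟩ := h.toTr.lab1 (a7.trans rfl)
  have sD := h.toTr.s8
  have sE := h.toTr.rot.s8
  have sG := h.toTr.rot.rot.s8
  have pd := h.pos
  have v1 := dvd8 h.s1
  have v2 := dvd8 h.s2
  have r1 : (E 2 - G 2) + (E 4 - G 4) = (E 6 - G 6) + (E 0 - G 0) :=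
    h.rd 3 7 (nz8 x3) (nz8 x7) 1
  have r2 : (E 1 - G 1) + (E 5 - G 5) = (E 5 - G 5) + (E 1 - G 1) :=
    h.rd 3 7 (nz8 x3) (nz8 x7) 2
  have r3 : (E 0 - G 0) + (E 6 - G 6) = (E 4 - G 4) + (E 2 - G 2) :=
    h.rd 3 7 (nz8 x3) (nz8 x7) 3
  have r4 : (E 7 - G 7) + (E 7 - G 7) = (E 3 - G 3) + (E 3 - G 3) :=
    h.rd 3 7 (nz8 x3) (nz8 x7) 4
  have r5 : (G 0 - D 0) + (G 2 - D 2) = (G 4 - D 4) + (G 6 - D 6) :=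
    h.re 1 5 (nz8 y1) (nz8 y5) 1
  have r6 : (G 7 - D 7) + (G 3 - D 3) = (G 3 - D 3) + (G 7 - D 7) :=
    h.re 1 5 (nz8 y1) (nz8 y5) 2
  have r7 : (G 6 - D 6) + (G 4 - D 4) = (G 2 - D 2) + (G 0 - D 0) :=
    h.re 1 5 (nz8 y1) (nz8 y5) 3
  have r8 : (G 5 - D 5) + (G 5 - D 5) = (G 1 - D 1) + (G 1 - D 1) :=
    h.re 1 5 (nz8 y1) (nz8 y5) 4
  have r9 : (D 7 - E 7) + (D 1 - E 1) = (D 1 - E 1) + (D 3 - E 3) :=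
    h.rg 0 2 (nz8 z0) (nz8 z2) 1
  have r10 : (D 6 - E 6) + (D 2 - E 2) = (D 0 - E 0) + (D 4 - E 4) :=
    h.rg 0 2 (nz8 z0) (nz8 z2) 2
  have r11 : (D 5 - E 5) + (D 3 - E 3) = (D 7 - E 7) + (D 5 - E 5) :=
    h.rg 0 2 (nz8 z0) (nz8 z2) 3
  have r12 : (D 4 - E 4) + (D 4 - E 4) = (D 6 - E 6) + (D 6 - E 6) :=
    h.rg 0 2 (nz8 z0) (nz8 z2) 4
  have r13 : (D 7 - E 7) + (D 1 - E 1) = (D 3 - E 3) + (D 5 - E 5) :=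
    h.rg 0 4 (nz8 z0) (nz8 z4) 1
  have r14 : (D 6 - E 6) + (D 2 - E 2) = (D 2 - E 2) + (D 6 - E 6) :=
    h.rg 0 4 (nz8 z0) (nz8 z4) 2
  have r15 : (D 5 - E 5) + (D 3 - E 3) = (D 1 - E 1) + (D 7 - E 7) :=
    h.rg 0 4 (nz8 z0) (nz8 z4) 3
  have r16 : (D 4 - E 4) + (D 4 - E 4) = (D 0 - E 0) + (D 0 - E 0) :=
    h.rg 0 4 (nz8 z0) (nz8 z4) 4
  simp only [x0, x1, x2, x4, x5, x6, y0, y2, y3, y4, y6, y7, z1, z3, z5, z6, z7, sub_zero, zero_sub, add_zero, zero_add, mul_zero, sub_self] at sD sE sG v1 v2 r1 r2 r3 r4 r5 r6 r7 r8 r9 r10 r11 r12 r13 r14 r15 r16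
  clear hl a0 a1 a2 a3 a4 a5 a6 a7
  clear x0 x1 x2 x4 x5 x6 y0 y2 y3 y4 y6 y7 z1 z3 z5 z6 z7
  exfalso
  omega

lemma cas_31611 (h : H8 D E G d)
    (hl : ∀ i : ℕ, i < 8 → lab D E G (i : ZMod 8) = dg 31611 i) : Con8 D E G := by
  have hk : d ≤ 8 := h.rh8 hl
  obtain ⟨a0, a1, a2, a3, a4, a5, a6, a7⟩ := hl8 hl
  obtain ⟨x0, y0, z0⟩ := h.toTr.lab3 (a0.trans rfl)
  obtain ⟨x1, y1, z1⟩ := h.toTr.lab2 (a1.trans rfl)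
  obtain ⟨x2, y2, z2⟩ := h.toTr.lab3 (a2.trans rfl)
  obtain ⟨x3, y3, z3⟩ := h.toTr.lab1 (a3.trans rfl)
  obtain ⟨x4, y4, z4⟩ := h.toTr.lab3 (a4.trans rfl)
  obtain ⟨x5, y5, z5⟩ := h.toTr.lab2 (a5.trans rfl)
  obtain ⟨x6, y6, z6⟩ := h.toTr.lab3 (a6.trans rfl)
  obtain ⟨x7, y7, z7⟩ := h.toTr.lab1 (a7.trans rfl)
  have sD := h.toTr.s8
  have sE := h.toTr.rot.s8
  have sG := h.toTr.rot.rot.s8
  have pd := h.pos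
  have v1 := dvd8 h.s1
  have v2 := dvd8 h.s2
  have r1 : (E 2 - G 2) + (E 4 - G 4) = (E 6 - G 6) + (E 0 - G 0) :=
    h.rd 3 7 (nz8 x3) (nz8 x7) 1
  have r2 : (E 1 - G 1) + (E 5 - G 5) = (E 5 - G 5) + (E 1 - G 1) :=
    h.rd 3 7 (nz8 x3) (nz8 x7) 2
  have r3 : (E 0 - G 0) + (E 6 - G 6) = (E 4 - G 4) + (E 2 - G 2) :=
    h.rd 3 7 (nz8 x3) (nz8 x7) 3
  have r4 : (E 7 - G 7) + (E 7 - G 7) = (E 3 - G 3) + (E 3 - G 3) :=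
    h.rd 3 7 (nz8 x3) (nz8 x7) 4
  have r5 : (G 0 - D 0) + (G 2 - D 2) = (G 4 - D 4) + (G 6 - D 6) :=
    h.re 1 5 (nz8 y1) (nz8 y5) 1
  have r6 : (G 7 - D 7) + (G 3 - D 3) = (G 3 - D 3) + (G 7 - D 7) :=
    h.re 1 5 (nz8 y1) (nz8 y5) 2
  have r7 : (G 6 - D 6) + (G 4 - D 4) = (G 2 - D 2) + (G 0 - D 0) :=
    h.re 1 5 (nz8 y1) (nz8 y5) 3
  have r8 : (G 5 - D 5) + (G 5 - D 5) = (G 1 - D 1) + (G 1 - D 1) :=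
    h.re 1 5 (nz8 y1) (nz8 y5) 4
  have r9 : (D 7 - E 7) + (D 1 - E 1) = (D 1 - E 1) + (D 3 - E 3) :=
    h.rg 0 2 (nz8 z0) (nz8 z2) 1
  have r10 : (D 6 - E 6) + (D 2 - E 2) = (D 0 - E 0) + (D 4 - E 4) :=
    h.rg 0 2 (nz8 z0) (nz8 z2) 2
  have r11 : (D 5 - E 5) + (D 3 - E 3) = (D 7 - E 7) + (D 5 - E 5) :=
    h.rg 0 2 (nz8 z0) (nz8 z2) 3
  have r12 : (D 4 - E 4) + (D 4 - E 4) = (D 6 - E 6) + (D 6 - E 6) :=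
    h.rg 0 2 (nz8 z0) (nz8 z2) 4
  have r13 : (D 7 - E 7) + (D 1 - E 1) = (D 3 - E 3) + (D 5 - E 5) :=
    h.rg 0 4 (nz8 z0) (nz8 z4) 1
  have r14 : (D 6 - E 6) + (D 2 - E 2) = (D 2 - E 2) + (D 6 - E 6) :=
    h.rg 0 4 (nz8 z0) (nz8 z4) 2
  have r15 : (D 5 - E 5) + (D 3 - E 3) = (D 1 - E 1) + (D 7 - E 7) :=
    h.rg 0 4 (nz8 z0) (nz8 z4) 3
  have r16 : (D 4 - E 4) + (D 4 - E 4) = (D 0 - E 0) + (D 0 - E 0) :=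
    h.rg 0 4 (nz8 z0) (nz8 z4) 4
  have r17 : (D 7 - E 7) + (D 1 - E 1) = (D 5 - E 5) + (D 7 - E 7) :=
    h.rg 0 6 (nz8 z0) (nz8 z6) 1
  have r18 : (D 6 - E 6) + (D 2 - E 2) = (D 4 - E 4) + (D 0 - E 0) :=
    h.rg 0 6 (nz8 z0) (nz8 z6) 2
  have r19 : (D 5 - E 5) + (D 3 - E 3) = (D 3 - E 3) + (D 1 - E 1) :=
    h.rg 0 6 (nz8 z0) (nz8 z6) 3
  have r20 : (D 4 - E 4) + (D 4 - E 4) = (D 2 - E 2) + (D 2 - E 2) :=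
    h.rg 0 6 (nz8 z0) (nz8 z6) 4
  simp only [x0, x1, x2, x4, x5, x6, y0, y2, y3, y4, y6, y7, z1, z3, z5, z7, sub_zero, zero_sub, add_zero, zero_add, mul_zero, sub_self] at sD sE sG v1 v2 r1 r2 r3 r4 r5 r6 r7 r8 r9 r10 r11 r12 r13 r14 r15 r16 r17 r18 r19 r20
  clear hl a0 a1 a2 a3 a4 a5 a6 a7
  have hh : (D 3 = 2 ∧ D 7 = 2 ∧ E 1 = 2 ∧ E 5 = 2 ∧ G 0 = 1 ∧ G 2 = 1 ∧ G 4 = 1 ∧ G 6 = 1) ∨ (D 3 = 4 ∧ D 7 = 4 ∧ E 1 = 4 ∧ E 5 = 4 ∧ G 0 = 2 ∧ G 2 = 2 ∧ G 4 = 2 ∧ G 6 = 2) := by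
    clear x0 x1 x2 x4 x5 x6 y0 y2 y3 y4 y6 y7 z1 z3 z5 z7
    have g1 : G 4 = G 0 := by clear v1 v2 sD sE sG; omega
    have g2 : G 6 = G 2 := by clear v1 v2 sD sE sG; omega
    have g3 : E 5 = E 1 := by clear v1 v2 sD sE sG; omega
    have g4 : D 7 = D 3 := by clear v1 v2 sD sE sG; omega
    clear r1 r2 r3 r4 r5 r6 r7 r8 r9 r10 r11 r12 r13 r14 r15 r16 r17 r18 r19 r20
    rw [g1, g2] at sG v1 v2
    rw [g3] at sE v2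
    rw [g4] at sD v1
    have g5 : E 1 = G 0 + G 2 := by clear v1 v2; omega
    have g6 : D 3 = G 0 + G 2 := by clear v1 v2; omega
    rw [g6] at v1
    have g7 : G 2 = G 0 := by clear v2 sD sE; omega
    rw [g1, g2, g3, g4, g5, g6, g7]
    clear v1 v2
    omega
  rcases hh with hh | hh
  · refine Or.inr ⟨0, (Or.inr (Or.inr (Or.inr (Or.inr (Or.inr (Or.inr (Or.inr (Or.inr (Or.inl ⟨funext (all8 ?_ ?_ ?_ ?_ ?_ ?_ ?_ ?_),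
      funext (all8 ?_ ?_ ?_ ?_ ?_ ?_ ?_ ?_), funext (all8 ?_ ?_ ?_ ?_ ?_ ?_ ?_ ?_)⟩)))))))))⟩
    · show G 0 = 1
      exact hh.2.2.2.2.1
    · exact z1
    · show G 2 = 1
      exact hh.2.2.2.2.2.1
    · exact z3
    · show G 4 = 1
      exact hh.2.2.2.2.2.2.1
    · exact z5
    · show G 6 = 1
      exact hh.2.2.2.2.2.2.2
    · exact z7
    · exact y0
    · show E 1 = 2
      exact hh.2.2.1
    · exact y2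
    · exact y3
    · exact y4
    · show E 5 = 2
      exact hh.2.2.2.1
    · exact y6
    · exact y7
    · exact x0
    · exact x1
    · exact x2
    · show D 3 = 2
      exact hh.1
    · exact x4
    · exact x5
    · exact x6
    · show D 7 = 2
      exact hh.2.1
  · refine Or.inr ⟨0, (Or.inr (Or.inr (Or.inr (Or.inr (Or.inr (Or.inr (Or.inr (Or.inr (Or.inr ⟨funext (all8 ?_ ?_ ?_ ?_ ?_ ?_ ?_ ?_),
      funext (all8 ?_ ?_ ?_ ?_ ?_ ?_ ?_ ?_), funext (all8 ?_ ?_ ?_ ?_ ?_ ?_ ?_ ?_)⟩)))))))))⟩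
    · show G 0 = 2
      exact hh.2.2.2.2.1
    · exact z1
    · show G 2 = 2
      exact hh.2.2.2.2.2.1
    · exact z3
    · show G 4 = 2
      exact hh.2.2.2.2.2.2.1
    · exact z5
    · show G 6 = 2
      exact hh.2.2.2.2.2.2.2
    · exact z7
    · exact y0
    · show E 1 = 4
      exact hh.2.2.1
    · exact y2
    · exact y3
    · exact y4
    · show E 5 = 4
      exact hh.2.2.2.1
    · exact y6
    · exact y7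
    · exact x0
    · exact x1
    · exact x2
    · show D 3 = 4
      exact hh.1
    · exact x4
    · exact x5
    · exact x6
    · show D 7 = 4
      exact hh.2.1

lemma cas_34095 (h : H8 D E G d)
    (hl : ∀ i : ℕ, i < 8 → lab D E G (i : ZMod 8) = dg 34095 i) : Con8 D E G := by
  have hk : d ≤ 6 := h.rh8 hl
  obtain ⟨a0, a1, a2, a3, a4, a5, a6, a7⟩ := hl8 hl
  obtain ⟨x0, y0, z0⟩ := h.toTr.lab3 (a0.trans rfl)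
  obtain ⟨x1, y1, z1⟩ := h.toTr.lab3 (a1.trans rfl)
  obtain ⟨x2, y2, z2⟩ := h.toTr.lab2 (a2.trans rfl)
  obtain ⟨x3, y3, z3⟩ := lab0 (a3.trans rfl)
  obtain ⟨x4, y4, z4⟩ := h.toTr.lab1 (a4.trans rfl)
  obtain ⟨x5, y5, z5⟩ := h.toTr.lab1 (a5.trans rfl)
  obtain ⟨x6, y6, z6⟩ := lab0 (a6.trans rfl)
  obtain ⟨x7, y7, z7⟩ := h.toTr.lab2 (a7.trans rfl)
  have sD := h.toTr.s8
  have sE := h.toTr.rot.s8
  have sG := h.toTr.rot.rot.s8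
  have pd := h.pos
  have v1 := dvd8 h.s1
  have v2 := dvd8 h.s2
  have r1 : (E 3 - G 3) + (E 5 - G 5) = (E 4 - G 4) + (E 6 - G 6) :=
    h.rd 4 5 (nz8 x4) (nz8 x5) 1
  have r2 : (E 2 - G 2) + (E 6 - G 6) = (E 3 - G 3) + (E 7 - G 7) :=
    h.rd 4 5 (nz8 x4) (nz8 x5) 2
  have r3 : (E 1 - G 1) + (E 7 - G 7) = (E 2 - G 2) + (E 0 - G 0) :=
    h.rd 4 5 (nz8 x4) (nz8 x5) 3
  have r4 : (E 0 - G 0) + (E 0 - G 0) = (E 1 - G 1) + (E 1 - G 1) :=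
    h.rd 4 5 (nz8 x4) (nz8 x5) 4
  have r5 : (G 1 - D 1) + (G 3 - D 3) = (G 6 - D 6) + (G 0 - D 0) :=
    h.re 2 7 (nz8 y2) (nz8 y7) 1
  have r6 : (G 0 - D 0) + (G 4 - D 4) = (G 5 - D 5) + (G 1 - D 1) :=
    h.re 2 7 (nz8 y2) (nz8 y7) 2
  have r7 : (G 7 - D 7) + (G 5 - D 5) = (G 4 - D 4) + (G 2 - D 2) :=
    h.re 2 7 (nz8 y2) (nz8 y7) 3
  have r8 : (G 6 - D 6) + (G 6 - D 6) = (G 3 - D 3) + (G 3 - D 3) :=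
    h.re 2 7 (nz8 y2) (nz8 y7) 4
  have r9 : (D 7 - E 7) + (D 1 - E 1) = (D 0 - E 0) + (D 2 - E 2) :=
    h.rg 0 1 (nz8 z0) (nz8 z1) 1
  have r10 : (D 6 - E 6) + (D 2 - E 2) = (D 7 - E 7) + (D 3 - E 3) :=
    h.rg 0 1 (nz8 z0) (nz8 z1) 2
  have r11 : (D 5 - E 5) + (D 3 - E 3) = (D 6 - E 6) + (D 4 - E 4) :=
    h.rg 0 1 (nz8 z0) (nz8 z1) 3
  have r12 : (D 4 - E 4) + (D 4 - E 4) = (D 5 - E 5) + (D 5 - E 5) :=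
    h.rg 0 1 (nz8 z0) (nz8 z1) 4
  simp only [x0, x1, x2, x3, x6, x7, y0, y1, y3, y4, y5, y6, z2, z3, z4, z5, z6, z7, sub_zero, zero_sub, add_zero, zero_add, mul_zero, sub_self] at sD sE sG v1 v2 r1 r2 r3 r4 r5 r6 r7 r8 r9 r10 r11 r12
  clear hl a0 a1 a2 a3 a4 a5 a6 a7
  have kD4 : D 4 = (D 5) * 1 := by
    clear x0 x1 x2 x3 x6 x7 y0 y1 y3 y4 y5 y6 z2 z3 z4 z5 z6 z7
    omega
  have kD5 : D 5 = (D 5) * 1 := by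
    clear x0 x1 x2 x3 x6 x7 y0 y1 y3 y4 y5 y6 z2 z3 z4 z5 z6 z7
    omega
  have kE2 : E 2 = (D 5) * 1 := by
    clear x0 x1 x2 x3 x6 x7 y0 y1 y3 y4 y5 y6 z2 z3 z4 z5 z6 z7
    omega
  have kE7 : E 7 = (D 5) * 1 := by
    clear x0 x1 x2 x3 x6 x7 y0 y1 y3 y4 y5 y6 z2 z3 z4 z5 z6 z7
    omega
  have kG0 : G 0 = (D 5) * 1 := by
    clear x0 x1 x2 x3 x6 x7 y0 y1 y3 y4 y5 y6 z2 z3 z4 z5 z6 z7
    omega
  have kG1 : G 1 = (D 5) * 1 := by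
    clear x0 x1 x2 x3 x6 x7 y0 y1 y3 y4 y5 y6 z2 z3 z4 z5 z6 z7
    omega
  refine Or.inl ⟨1, 5, 1, 7, (D 5), by linarith, all8 ?_ ?_ ?_ ?_ ?_ ?_ ?_ ?_,
    all8 ?_ ?_ ?_ ?_ ?_ ?_ ?_ ?_, all8 ?_ ?_ ?_ ?_ ?_ ?_ ?_ ?_⟩
  · show D 0 = (D 5) * 0
    rw [mul_zero]; exact x0
  · show D 1 = (D 5) * 0
    rw [mul_zero]; exact x1
  · show D 2 = (D 5) * 0
    rw [mul_zero]; exact x2
  · show D 3 = (D 5) * 0
    rw [mul_zero]; exact x3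
  · exact kD4
  · exact kD5
  · show D 6 = (D 5) * 0
    rw [mul_zero]; exact x6
  · show D 7 = (D 5) * 0
    rw [mul_zero]; exact x7
  · show E 0 = (D 5) * 0
    rw [mul_zero]; exact y0
  · show E 1 = (D 5) * 0
    rw [mul_zero]; exact y1
  · exact kE2
  · show E 3 = (D 5) * 0
    rw [mul_zero]; exact y3
  · show E 4 = (D 5) * 0
    rw [mul_zero]; exact y4
  · show E 5 = (D 5) * 0
    rw [mul_zero]; exact y5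
  · show E 6 = (D 5) * 0
    rw [mul_zero]; exact y6
  · exact kE7
  · exact kG0
  · exact kG1
  · show G 2 = (D 5) * 0
    rw [mul_zero]; exact z2
  · show G 3 = (D 5) * 0
    rw [mul_zero]; exact z3
  · show G 4 = (D 5) * 0
    rw [mul_zero]; exact z4
  · show G 5 = (D 5) * 0
    rw [mul_zero]; exact z5
  · show G 6 = (D 5) * 0
    rw [mul_zero]; exact z6
  · show G 7 = (D 5) * 0
    rw [mul_zero]; exact z7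

lemma cas_36975 (h : H8 D E G d)
    (hl : ∀ i : ℕ, i < 8 → lab D E G (i : ZMod 8) = dg 36975 i) : Con8 D E G := by
  have hk : d ≤ 6 := h.rh8 hl
  obtain ⟨a0, a1, a2, a3, a4, a5, a6, a7⟩ := hl8 hl
  obtain ⟨x0, y0, z0⟩ := h.toTr.lab3 (a0.trans rfl)
  obtain ⟨x1, y1, z1⟩ := h.toTr.lab3 (a1.trans rfl)
  obtain ⟨x2, y2, z2⟩ := h.toTr.lab2 (a2.trans rfl)
  obtain ⟨x3, y3, z3⟩ := h.toTr.lab1 (a3.trans rfl)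
  obtain ⟨x4, y4, z4⟩ := lab0 (a4.trans rfl)
  obtain ⟨x5, y5, z5⟩ := lab0 (a5.trans rfl)
  obtain ⟨x6, y6, z6⟩ := h.toTr.lab1 (a6.trans rfl)
  obtain ⟨x7, y7, z7⟩ := h.toTr.lab2 (a7.trans rfl)
  have sD := h.toTr.s8
  have sE := h.toTr.rot.s8
  have sG := h.toTr.rot.rot.s8
  have pd := h.pos
  have v1 := dvd8 h.s1
  have v2 := dvd8 h.s2
  have r1 : (E 2 - G 2) + (E 4 - G 4) = (E 5 - G 5) + (E 7 - G 7) :=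
    h.rd 3 6 (nz8 x3) (nz8 x6) 1
  have r2 : (E 1 - G 1) + (E 5 - G 5) = (E 4 - G 4) + (E 0 - G 0) :=
    h.rd 3 6 (nz8 x3) (nz8 x6) 2
  have r3 : (E 0 - G 0) + (E 6 - G 6) = (E 3 - G 3) + (E 1 - G 1) :=
    h.rd 3 6 (nz8 x3) (nz8 x6) 3
  have r4 : (E 7 - G 7) + (E 7 - G 7) = (E 2 - G 2) + (E 2 - G 2) :=
    h.rd 3 6 (nz8 x3) (nz8 x6) 4
  have r5 : (G 1 - D 1) + (G 3 - D 3) = (G 6 - D 6) + (G 0 - D 0) :=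
    h.re 2 7 (nz8 y2) (nz8 y7) 1
  have r6 : (G 0 - D 0) + (G 4 - D 4) = (G 5 - D 5) + (G 1 - D 1) :=
    h.re 2 7 (nz8 y2) (nz8 y7) 2
  have r7 : (G 7 - D 7) + (G 5 - D 5) = (G 4 - D 4) + (G 2 - D 2) :=
    h.re 2 7 (nz8 y2) (nz8 y7) 3
  have r8 : (G 6 - D 6) + (G 6 - D 6) = (G 3 - D 3) + (G 3 - D 3) :=
    h.re 2 7 (nz8 y2) (nz8 y7) 4
  have r9 : (D 7 - E 7) + (D 1 - E 1) = (D 0 - E 0) + (D 2 - E 2) :=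
    h.rg 0 1 (nz8 z0) (nz8 z1) 1
  have r10 : (D 6 - E 6) + (D 2 - E 2) = (D 7 - E 7) + (D 3 - E 3) :=
    h.rg 0 1 (nz8 z0) (nz8 z1) 2
  have r11 : (D 5 - E 5) + (D 3 - E 3) = (D 6 - E 6) + (D 4 - E 4) :=
    h.rg 0 1 (nz8 z0) (nz8 z1) 3
  have r12 : (D 4 - E 4) + (D 4 - E 4) = (D 5 - E 5) + (D 5 - E 5) :=
    h.rg 0 1 (nz8 z0) (nz8 z1) 4
  simp only [x0, x1, x2, x4, x5, x7, y0, y1, y3, y4, y5, y6, z2, z3, z4, z5, z6, z7, sub_zero, zero_sub, add_zero, zero_add, mul_zero, sub_self] at sD sE sG v1 v2 r1 r2 r3 r4 r5 r6 r7 r8 r9 r10 r11 r12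
  clear hl a0 a1 a2 a3 a4 a5 a6 a7
  have kD3 : D 3 = (D 6) * 1 := by
    clear x0 x1 x2 x4 x5 x7 y0 y1 y3 y4 y5 y6 z2 z3 z4 z5 z6 z7
    omega
  have kD6 : D 6 = (D 6) * 1 := by
    clear x0 x1 x2 x4 x5 x7 y0 y1 y3 y4 y5 y6 z2 z3 z4 z5 z6 z7
    omega
  have kE2 : E 2 = (D 6) * 1 := by
    clear x0 x1 x2 x4 x5 x7 y0 y1 y3 y4 y5 y6 z2 z3 z4 z5 z6 z7
    omega
  have kE7 : E 7 = (D 6) * 1 := by
    clear x0 x1 x2 x4 x5 x7 y0 y1 y3 y4 y5 y6 z2 z3 z4 z5 z6 z7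
    omega
  have kG0 : G 0 = (D 6) * 1 := by
    clear x0 x1 x2 x4 x5 x7 y0 y1 y3 y4 y5 y6 z2 z3 z4 z5 z6 z7
    omega
  have kG1 : G 1 = (D 6) * 1 := by
    clear x0 x1 x2 x4 x5 x7 y0 y1 y3 y4 y5 y6 z2 z3 z4 z5 z6 z7
    omega
  refine Or.inl ⟨1, 6, 1, 7, (D 6), by linarith, all8 ?_ ?_ ?_ ?_ ?_ ?_ ?_ ?_,
    all8 ?_ ?_ ?_ ?_ ?_ ?_ ?_ ?_, all8 ?_ ?_ ?_ ?_ ?_ ?_ ?_ ?_⟩
  · show D 0 = (D 6) * 0
    rw [mul_zero]; exact x0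
  · show D 1 = (D 6) * 0
    rw [mul_zero]; exact x1
  · show D 2 = (D 6) * 0
    rw [mul_zero]; exact x2
  · exact kD3
  · show D 4 = (D 6) * 0
    rw [mul_zero]; exact x4
  · show D 5 = (D 6) * 0
    rw [mul_zero]; exact x5
  · exact kD6
  · show D 7 = (D 6) * 0
    rw [mul_zero]; exact x7
  · show E 0 = (D 6) * 0
    rw [mul_zero]; exact y0
  · show E 1 = (D 6) * 0
    rw [mul_zero]; exact y1
  · exact kE2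
  · show E 3 = (D 6) * 0
    rw [mul_zero]; exact y3
  · show E 4 = (D 6) * 0
    rw [mul_zero]; exact y4
  · show E 5 = (D 6) * 0
    rw [mul_zero]; exact y5
  · show E 6 = (D 6) * 0
    rw [mul_zero]; exact y6
  · exact kE7
  · exact kG0
  · exact kG1
  · show G 2 = (D 6) * 0
    rw [mul_zero]; exact z2
  · show G 3 = (D 6) * 0
    rw [mul_zero]; exact z3
  · show G 4 = (D 6) * 0
    rw [mul_zero]; exact z4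
  · show G 5 = (D 6) * 0
    rw [mul_zero]; exact z5
  · show G 6 = (D 6) * 0
    rw [mul_zero]; exact z6
  · show G 7 = (D 6) * 0
    rw [mul_zero]; exact z7

lemma H8.normal (h : H8 D E G d) (c : ℕ) (hc : c ∈ can)
    (hl : ∀ i : ℕ, i < 8 → lab D E G (i : ZMod 8) = dg c i) : Con8 D E G := by
  unfold can at hc
  simp only [List.mem_cons, List.not_mem_nil, or_false] at hc
  rcases hc with rfl | rfl | rfl | rfl | rfl | rfl | rfl | rfl | rfl | rfl | rfl | rfl | rfl | rfl | rfl | rfl | rfl | rfl | rfl | rfl | rfl | rfl | rfl | rfl | rfl | rfl | rfl | rfl | rfl | rfl | rfl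
  · exact cas_1059 h hl
  · exact cas_291 h hl
  · exact cas_4899 h hl
  · exact cas_4107 h hl
  · exact cas_1035 h hl
  · exact cas_267 h hl
  · exact cas_2315 h hl
  · exact cas_4875 h hl
  · exact cas_1803 h hl
  · exact cas_75 h hl
  · exact cas_2123 h hl
  · exact cas_843 h hl
  · exact cas_5003 h hl
  · exact cas_27 h hl
  · exact cas_4123 h hl
  · exact cas_2075 h hl
  · exact cas_6171 h hl
  · exact cas_14619 h hl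
  · exact cas_795 h hl
  · exact cas_4891 h hl
  · exact cas_2843 h hl
  · exact cas_6939 h hl
  · exact cas_1083 h hl
  · exact cas_4411 h hl
  · exact cas_6459 h hl
  · exact cas_16507 h hl
  · exact cas_18555 h hl
  · exact cas_19323 h hl
  · exact cas_31611 h hl
  · exact cas_34095 h hl
  · exact cas_36975 h hl

/-- **three effective divisors on the cyclic group of order eight** -/
theorem H8.main (h : H8 D E G d) : Con8 D E G :=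
  h.red fun h c hc hl => h.normal c hc hl

end Pool.Agent.UP
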