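import Mathlib

/-!
# Three effective divisors on a group of prime order
-/

set_option autoImplicit false
set_option linter.unusedSectionVars false

namespace Pool.Agent.UP

variable {A : Type*} [AddCommGroup A] [Fintype A] [DecidableEq A]

/-- the multiplicity of a point in the orbit of `x` -/
def mz (S x c : A) : ℤ := (if c = x then 1 else 0) + (if c = S - x then 1 else 0)

lemma sum_mz (S x : A) : ∑ c, mz S x c = 2 := by
  unfold mz
  rw [Finset.sum_add_distrib, Finset.sum_ite_eq', Finset.sum_ite_eq', if_pos (Finset.mem_univ _),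
    if_pos (Finset.mem_univ _)]
  norm_num

/-- a function with a nonzero period is constant -/
lemma const_of_periodic (hp : (Fintype.card A).Prime) {V : Type*} {h : A → V} {δ : A} (hδ : δ ≠ 0)
    (hh : ∀ x, h (x + δ) = h x) (x y : A) : h x = h y := by
  have hN : (Nat.card A).Prime := by rwa [Nat.card_eq_fintype_card]
  have := Fact.mk hN
  have htop : AddSubgroup.zmultiples δ = ⊤ := zmultiples_eq_top_of_prime_card (p := Nat.card A) rfl hδ
  have hn : ∀ (n : ℕ) (x : A), h (x + n • δ) = h x := by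
    intro n
    induction n with
    | zero => intro x; rw [zero_smul, add_zero]
    | succ n ih => intro x; rw [succ_nsmul, ← add_assoc, hh, ih]
  have hz : ∀ (n : ℤ) (x : A), h (x + n • δ) = h x := by
    intro n x
    obtain ⟨m, rfl | rfl⟩ := Int.eq_nat_or_neg n
    · rw [natCast_zsmul]; exact hn m x
    · have := hn m (x + (-(m : ℤ)) • δ)
      rw [neg_smul, natCast_zsmul] at this ⊢
      rw [neg_add_cancel_right] at this
      exact this.symm
  have : y - x ∈ AddSubgroup.zmultiples δ := by rw [htop]; exact AddSubgroup.mem_top _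
  obtain ⟨n, hn'⟩ := AddSubgroup.mem_zmultiples_iff.mp this
  have := hz n x
  rw [hn', add_sub_cancel] at this
  exact this.symm

/-- the relation between two points -/
def Rl (D M : A → ℤ) : Prop := ∀ T T', D T ≠ 0 → D T' ≠ 0 → ∀ j,
  M (T - j) + M (T + j) = M (T' - j) + M (T' + j)

/-- the three fibres -/
structure Tr (D E G : A → ℤ) (d : ℤ) : Prop where
  d0 : ∀ x, 0 ≤ D x
  e0 : ∀ x, 0 ≤ E x
  g0 : ∀ x, 0 ≤ G x
  de : ∀ x, D x ≠ 0 → E x = 0
  eg : ∀ x, E x ≠ 0 → G x = 0
  gd : ∀ x, G x ≠ 0 → D x = 0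
  sd : ∑ x, D x = d
  se : ∑ x, E x = d
  sg : ∑ x, G x = d
  pos : 0 < d
  rd : Rl D (fun x => E x - G x)
  re : Rl E (fun x => G x - D x)
  rg : Rl G (fun x => D x - E x)

lemma Rl.neg {D M M' : A → ℤ} (h : Rl D M) (hM : ∀ x, M' x = - M x) : Rl D M' := by
  intro T T' h1 h2 j
  have := h T T' h1 h2 j
  rw [hM, hM, hM, hM]
  linarith

variable {D E G : A → ℤ} {d : ℤ}

namespace Tr

variable (h : Tr D E G d)

include h

/-- rotation -/
lemma rot : Tr E G D d := ⟨h.e0, h.g0, h.d0, h.eg, h.gd, h.de, h.se, h.sg, h.sd, h.pos, h.re, h.rg,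
  h.rd⟩

/-- exchange -/
lemma sw : Tr D G E d where
  d0 := h.d0
  e0 := h.g0
  g0 := h.e0
  de x hx := by
    by_contra h1
    exact hx (h.gd x h1)
  eg x hx := by
    by_contra h1
    exact hx (h.eg x h1)
  gd x hx := by
    by_contra h1
    exact hx (h.de x h1)
  sd := h.sd
  se := h.sg
  sg := h.se
  pos := h.pos
  rd := h.rd.neg fun x => by ring
  re := h.rg.neg fun x => by ring
  rg := h.re.neg fun x => by ring

lemma exists_pt : ∃ T, D T ≠ 0 := by
  by_contra hh
  push Not at hh
  have h1 := h.sd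
  have h2 := h.pos
  rw [Finset.sum_congr rfl fun x _ => hh x, Finset.sum_const_zero] at h1
  omega

/-- the symmetry -/
lemma symm_m (hp : (Fintype.card A).Prime) {T T' : A} (hT : D T ≠ 0) (hT' : D T' ≠ 0)
    (hne : T ≠ T') (x : A) : E (T + T' - x) - G (T + T' - x) = E x - G x := by
  set M : A → ℤ := fun x => E x - G x with hM
  have h1 : ∀ x, M (x + (T' - T)) - M (T + T' - (x + (T' - T))) = M x - M (T + T' - x) := by
    intro x
    have := h.rd T T' hT hT' (x - T)
    have a1 : T - (x - T) = T + T' - (x + (T' - T)) := by abel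
    have a2 : T + (x - T) = x := by abel
    have a3 : T' - (x - T) = T + T' - x := by abel
    have a4 : T' + (x - T) = x + (T' - T) := by abel
    rw [a1, a2, a3, a4] at this
    show M (x + (T' - T)) - M (T + T' - (x + (T' - T))) = M x - M (T + T' - x)
    simp only [hM] at this ⊢
    linarith
  have h2 := const_of_periodic hp (h := fun x => M x - M (T + T' - x)) (sub_ne_zero.mpr hne.symm) h1
    x T
  have a1 : T + T' - T = T' := by abel
  simp only [a1] at h2
  have e1 : M T = 0 := by
    show E T - G T = 0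
    rw [h.de T hT, h.sw.de T hT, sub_zero]
  have e2 : M T' = 0 := by
    show E T' - G T' = 0
    rw [h.de T' hT', h.sw.de T' hT', sub_zero]
  rw [e1, e2, sub_zero] at h2
  show M (T + T' - x) = M x
  linarith

lemma symm_E (hp : (Fintype.card A).Prime) {T T' : A} (hT : D T ≠ 0) (hT' : D T' ≠ 0)
    (hne : T ≠ T') (x : A) : E (T + T' - x) = E x := by
  have h1 := h.symm_m hp hT hT' hne x
  have key : ∀ x, E x = max (E x - G x) 0 := by
    intro x
    by_cases hE : E x = 0
    · rw [hE]
      have := h.g0 x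
      omega
    · rw [h.eg x hE, sub_zero]
      have := h.e0 x
      omega
  rw [key (T + T' - x), key x, h1]

lemma symm_G (hp : (Fintype.card A).Prime) {T T' : A} (hT : D T ≠ 0) (hT' : D T' ≠ 0)
    (hne : T ≠ T') (x : A) : G (T + T' - x) = G x := h.sw.symm_E hp hT hT' hne x

/-- there are at most two points -/
lemma two (hp : (Fintype.card A).Prime) {T T' T'' : A} (hT : D T ≠ 0) (hT' : D T' ≠ 0)
    (hT'' : D T'' ≠ 0) (hne : T ≠ T') (hne' : T ≠ T'') : T' = T'' := by
  by_contra h0
  have per : ∀ {E : A → ℤ} (_ : ∀ x, E (T + T' - x) = E x) (_ : ∀ x, E (T + T'' - x) = E x) (x : A),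
      E (x + (T' - T'')) = E x := by
    intro E h1 h2 x
    have := h1 (T + T'' - x)
    rw [h2 x] at this
    rw [← this]
    congr 1
    abel
  have hE := per (h.symm_E hp hT hT' hne) (h.symm_E hp hT hT'' hne')
  have hG := per (h.symm_G hp hT hT' hne) (h.symm_G hp hT hT'' hne')
  have cE := const_of_periodic hp (sub_ne_zero.mpr h0) hE
  have cG := const_of_periodic hp (sub_ne_zero.mpr h0) hG
  obtain ⟨x, hx⟩ := h.rot.exists_pt
  obtain ⟨y, hy⟩ := h.rot.rot.exists_pt
  rw [cG y x] at hy
  exact hy (h.eg x hx)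

lemma supp_two (hp : (Fintype.card A).Prime) {T T' x : A} (hT : D T ≠ 0) (hT' : D T' ≠ 0)
    (hne : T ≠ T') (hx : D x ≠ 0) : x = T ∨ x = T' := by
  by_cases hxT : x = T
  · exact Or.inl hxT
  · exact Or.inr (h.two hp hT hx hT' (fun e => hxT e.symm) hne)

end Tr

/-- a divisor supported on an orbit -/
lemma eq_mz (S V : A) (G : A → ℤ) (n : ℤ) (hG : ∀ x, G (S - x) = G x) (hs : ∑ x, G x = 2 * n)
    (hV : ∀ x, G x ≠ 0 → x = V ∨ x = S - V) (c : A) : G c = n * mz S V c := by
  have h1 : ∀ x, 2 * G x = G V * mz S V x + (if V = S - V then 0 else G V * mz S V x) := by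
    intro x
    unfold mz
    by_cases hx : x = V
    · subst hx
      by_cases h2 : x = S - x
      · rw [if_pos rfl, if_pos h2, if_pos h2]; ring
      · rw [if_pos rfl, if_neg h2, if_neg h2]; ring
    · by_cases hx' : x = S - V
      · rw [if_neg hx, if_pos hx']
        have h2 : V ≠ S - V := fun e => hx (hx'.trans e.symm)
        rw [if_neg h2]
        rw [hx', hG]; ring
      · have : G x = 0 := by
          by_contra h0
          rcases hV x h0 with h2 | h2
          · exact hx h2
          · exact hx' h2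
        rw [this, if_neg hx, if_neg hx']
        split_ifs <;> ring
  have h2 : 2 * ∑ x, G x = G V * 2 + (if V = S - V then 0 else G V * 2) := by
    rw [Finset.mul_sum, Finset.sum_congr rfl fun x _ => h1 x, Finset.sum_add_distrib,
      ← Finset.mul_sum, sum_mz]
    congr 1
    split_ifs
    · rw [Finset.sum_const_zero]
    · rw [← Finset.mul_sum, sum_mz]
  rw [hs] at h2
  have h3 := h1 c
  split_ifs at h2 h3
  · have : G V = 2 * n := by linarith
    rw [this] at h3
    linarith
  · have : G V = n := by linarith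
    rw [this] at h3
    linarith

/-- **three effective divisors on a group of prime order** -/
theorem Tr.main (h : Tr D E G d) (hp : (Fintype.card A).Prime) (h5 : 3 ≤ Fintype.card A) :
    (∃ T U V : A, (∀ x, D x = if x = T then d else 0) ∧ (∀ x, E x = if x = U then d else 0) ∧
      (∀ x, G x = if x = V then d else 0)) ∨
    ∃ (S p q r : A) (n : ℤ), 0 < n ∧ (∀ x, D x = n * mz S p x) ∧ (∀ x, E x = n * mz S r x) ∧
      (∀ x, G x = n * mz S q x) := by
  -- twice a point
  have odd : ∀ x : A, x + x = 0 → x = 0 := by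
    intro x hx
    by_contra h0
    have h1 : addOrderOf x ∣ 2 := addOrderOf_dvd_of_nsmul_eq_zero (by rw [two_nsmul]; exact hx)
    have h2 : addOrderOf x ∣ Fintype.card A := addOrderOf_dvd_card
    have h3 : addOrderOf x ≠ 1 := fun e => h0 (AddMonoid.addOrderOf_eq_one_iff.mp e)
    rcases (Nat.dvd_prime hp).mp h2 with h4 | h4
    · exact h3 h4
    · rw [h4] at h1
      have := Nat.le_of_dvd (by norm_num) h1
      omega
  -- a fibre with two points
  have key : ∀ {D E G : A → ℤ}, Tr D E G d → ∀ {T T' : A}, D T ≠ 0 → D T' ≠ 0 → T ≠ T' →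
      (∃ U, E U ≠ 0 ∧ U ≠ T + T' - U) →
      ∃ (S p q r : A) (n : ℤ), 0 < n ∧ (∀ x, D x = n * mz S p x) ∧ (∀ x, E x = n * mz S r x) ∧
      (∀ x, G x = n * mz S q x) := by
    intro D E G h T T' hT hT' hne ⟨U, hU, hUS⟩
    set S := T + T' with hS
    have sE : ∀ x, E (S - x) = E x := h.symm_E hp hT hT' hne
    have sG : ∀ x, G (S - x) = G x := h.symm_G hp hT hT' hne
    have hU' : E (S - U) ≠ 0 := by rw [sE]; exact hU
    have sD : ∀ x, D (S - x) = D x := by
      intro x
      have := h.rot.symm_G hp hU hU' hUS x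
      have e : U + (S - U) = S := by abel
      rwa [e] at this
    have suppE : ∀ x, E x ≠ 0 → x = U ∨ x = S - U := fun x hx => h.rot.supp_two hp hU hU' hUS hx
    have hT2 : S - T = T' := by rw [hS]; abel
    have suppD : ∀ x, D x ≠ 0 → x = T ∨ x = S - T := fun x hx => by
      rw [hT2]; exact h.supp_two hp hT hT' hne hx
    obtain ⟨V, hV⟩ := h.rot.rot.exists_pt
    have suppG : ∀ x, G x ≠ 0 → x = V ∨ x = S - V := by
      intro x hx
      by_cases hxV : x = V
      · exact Or.inl hxV
      · right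
        have hV' : G (S - V) ≠ 0 := by rw [sG]; exact hV
        by_cases h3 : S - V = V
        · -- `x` and `S - x` are in the support, at most two points
          have hx' : G (S - x) ≠ 0 := by rw [sG]; exact hx
          rcases h.rot.rot.supp_two hp hV hx (fun e => hxV e.symm) hx' with h4 | h4
          · exfalso
            apply hxV
            have : S - V = x := by rw [← h4]; abel
            rw [← this, h3]
          · exfalso
            apply hxV
            have e1 : (x - V) + (x - V) = 0 := by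
              have e2 : x + x = S := by nth_rewrite 1 [← h4]; abel
              have e3 : V + V = S := by nth_rewrite 1 [← h3]; abel
              have : (x - V) + (x - V) = (x + x) - (V + V) := by abel
              rw [this, e2, e3, sub_self]
            exact sub_eq_zero.mp (odd _ e1)
        · rcases h.rot.rot.supp_two hp hV hV' (fun e => h3 e.symm) hx with h4 | h4
          · exact absurd h4 hxV
          · exact h4
    obtain ⟨n, hn⟩ : ∃ n, d = 2 * n := by
      refine ⟨E U, ?_⟩
      have e1 : ∀ x, E x = E U * mz S U x := by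
        intro x
        unfold mz
        by_cases hx : x = U
        · rw [hx, if_pos rfl, if_neg hUS]; ring
        · by_cases hx' : x = S - U
          · rw [if_neg hx, if_pos hx', hx', sE]; ring
          · have : E x = 0 := by
              by_contra h0
              rcases suppE x h0 with h2 | h2
              · exact hx h2
              · exact hx' h2
            rw [this, if_neg hx, if_neg hx']; ring
      rw [← h.se, Finset.sum_congr rfl fun x _ => e1 x, ← Finset.mul_sum, sum_mz]
      ring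
    refine ⟨S, T, V, U, n, ?_, ?_, ?_, ?_⟩
    · have := h.pos; omega
    · exact eq_mz S T D n sD (h.sd.trans hn) suppD
    · exact eq_mz S U E n sE (h.se.trans hn) suppE
    · exact eq_mz S V G n sG (h.sg.trans hn) suppG
  -- a fibre with two points, the other case
  have key2 : ∀ {D E G : A → ℤ}, Tr D E G d → ∀ {T T' : A}, D T ≠ 0 → D T' ≠ 0 → T ≠ T' →
      ∃ (S p q r : A) (n : ℤ), 0 < n ∧ (∀ x, D x = n * mz S p x) ∧ (∀ x, E x = n * mz S r x) ∧
      (∀ x, G x = n * mz S q x) := by
    intro D E G h T T' hT hT' hne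
    by_cases h1 : ∃ U, E U ≠ 0 ∧ U ≠ T + T' - U
    · exact key h hT hT' hne h1
    by_cases h2 : ∃ U, G U ≠ 0 ∧ U ≠ T + T' - U
    · obtain ⟨S, p, q, r, n, h3, h4, h5, h6⟩ := key h.sw hT hT' hne h2
      exact ⟨S, p, r, q, n, h3, h4, h6, h5⟩
    exfalso
    push Not at h1 h2
    obtain ⟨U, hU⟩ := h.rot.exists_pt
    obtain ⟨V, hV⟩ := h.rot.rot.exists_pt
    have e1 := h1 U hU
    have e2 := h2 V hV
    have e3 : (U - V) + (U - V) = 0 := by
      have f1 : U + U = T + T' := by nth_rewrite 1 [e1]; abel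
      have f2 : V + V = T + T' := by nth_rewrite 1 [e2]; abel
      have : (U - V) + (U - V) = (U + U) - (V + V) := by abel
      rw [this, f1, f2, sub_self]
    have e4 := sub_eq_zero.mp (odd _ e3)
    rw [e4] at hU
    exact hV (h.eg V hU)
  by_cases h1 : ∃ T T', D T ≠ 0 ∧ D T' ≠ 0 ∧ T ≠ T'
  · obtain ⟨T, T', a1, a2, a3⟩ := h1
    exact Or.inr (key2 h a1 a2 a3)
  by_cases h2 : ∃ T T', E T ≠ 0 ∧ E T' ≠ 0 ∧ T ≠ T'
  · obtain ⟨T, T', a1, a2, a3⟩ := h2
    obtain ⟨S, p, q, r, n, h3, h4, h5, h6⟩ := key2 h.rot a1 a2 a3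
    exact Or.inr ⟨S, q, r, p, n, h3, h6, h4, h5⟩
  by_cases h3 : ∃ T T', G T ≠ 0 ∧ G T' ≠ 0 ∧ T ≠ T'
  · obtain ⟨T, T', a1, a2, a3⟩ := h3
    obtain ⟨S, p, q, r, n, h3, h4, h5, h6⟩ := key2 h.rot.rot a1 a2 a3
    exact Or.inr ⟨S, r, p, q, n, h3, h5, h6, h4⟩
  left
  push Not at h1 h2 h3
  have one : ∀ {D : A → ℤ}, (∑ x, D x = d) → (∀ T T', D T ≠ 0 → D T' ≠ 0 → T = T') →
      (∃ T, D T ≠ 0) → ∃ T, ∀ x, D x = if x = T then d else 0 := by
    intro D hs hD ⟨T, hT⟩
    have e1 : ∀ x, D x = if x = T then D T else 0 := by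
      intro x
      split_ifs with hx
      · rw [hx]
      · by_contra h0
        exact hx (hD x T h0 hT)
    refine ⟨T, fun x => ?_⟩
    have e2 : D T = d := by
      rw [← hs, Finset.sum_congr rfl fun x _ => e1 x, Finset.sum_ite_eq',
        if_pos (Finset.mem_univ _)]
    rw [e1, e2]
  obtain ⟨T, hT⟩ := one h.sd h1 h.exists_pt
  obtain ⟨U, hU⟩ := one h.se h2 h.rot.exists_pt
  obtain ⟨V, hV⟩ := one h.sg h3 h.rot.rot.exists_pt
  exact ⟨T, U, V, hT, hU, hV⟩

end Pool.Agent.UP
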