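import Pool.Agent.Lib_helper40.GK.GE10
import Pool.Agent.Lib_helper40.UP.Comb

/-!
# The divisors and the leading coefficients of the functions supported on a group
-/

set_option autoImplicit false
set_option linter.unusedSectionVars false

open scoped TensorProduct

namespace Pool.Agent.UP

open WeierstrassCurve.Affine WithZero Polynomial
open K4M (dx dt ps pc)
open MK4 (FT lg)
open Pool.Agent.TN (lgmul lgdiv lgpow lgneg lg1 lgz V0 lg_mem_V0 lgzpow lginv)
open Pool.Agent.UEG
open Pool.Agent.GK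

/-- leading coefficients (squared) -/
structure IsLC {k : Type*} [Field k] (W : WeierstrassCurve.Affine k) [DecidableEq k]
    (lc : W.FunctionField → k) : Prop where
  ne : ∀ w, w ≠ 0 → lc w ≠ 0
  mul : ∀ w w', lc (w * w') = lc w * lc w'
  inv : ∀ w, w ≠ 0 → lc w⁻¹ = (lc w)⁻¹
  c : ∀ c, lc (cK c) = c ^ 2
  x : ∀ a, lc (xK - cK a) = 1
  l : ∀ a a' b b' : k, W.Equation a b → W.Equation a' b' → ¬(a = a' ∧ b = W.negY a' b') →
    lc (inc (yR - iP (ln W a a' b b'))) = -1
  one : ∀ w, v (W := W) (1 - w) < 1 → lc w = 1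

section

variable {k : Type*} [Field k] [DecidableEq k] [CharZero k] {W : WeierstrassCurve.Affine k}
  {F : Type*} [Field F] [DecidableEq F] [Algebra k F] {X Y : F}
variable (H : AddSubgroup W.Point) [Fintype H] [DecidableEq H]

/-- `f` has the divisor `m` and the constant `κ`, and it is the image of `w` -/
structure PU (lc : W.FunctionField → k) (hg : Gen W X Y) (f : F) (m : H → ℤ) (κ : FT F)
    (w : W.FunctionField) : Prop where
  io : io hg w = f
  ne : w ≠ 0
  κV : κ ∈ V0 k F
  un : ∀ {X' Y' : F} (hg' : Gen W X' Y'), IsUn H X' Y' (UEG.io hg' w)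
  lga : ∀ {X' Y' : F} (hg' : Gen W X' Y'), lg (UEG.io hg' w) =
    κ + ∑ a, (m a : ℚ) • gg (pp F H) (gp hg' - pp F H a)
  s0 : ∑ a, m a = 0
  s1 : ∑ a, m a • a = 0
  v : v (W := W) w = exp (-(m 0))
  lc : MK4.lg (algebraMap k F (lc w)) = (2 : ℚ) • (κ + ∑ a, (m a : ℚ) • GG (pp F H) a)

variable {H}
variable {lc : W.FunctionField → k} (hlc : IsLC W lc) {hg : Gen W X Y}

lemma PU.lg {f : F} {m : H → ℤ} {κ : FT F} {w : W.FunctionField} (h : PU H lc hg f m κ w) :
    MK4.lg f = κ + ∑ a, (m a : ℚ) • gg (pp F H) (gp hg - pp F H a) := by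
  rw [← h.io]; exact h.lga hg

include hlc

lemma PU.mul {f f' : F} {m m' : H → ℤ} {κ κ' : FT F} {w w' : W.FunctionField}
    (h : PU H lc hg f m κ w) (h' : PU H lc hg f' m' κ' w') :
    PU H lc hg (f * f') (m + m') (κ + κ') (w * w') where
  io := by rw [map_mul, h.io, h'.io]
  ne := mul_ne_zero h.ne h'.ne
  κV := Submodule.add_mem _ h.κV h'.κV
  un hg' := by
    rw [map_mul]; exact (good_IsUn hg').hm _ _ (h.un hg') (h'.un hg')
  lga hg' := by
    rw [map_mul, lgmul ((_root_.map_ne_zero _).mpr h.ne) ((_root_.map_ne_zero _).mpr h'.ne),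
      h.lga, h'.lga]
    simp only [Pi.add_apply, Int.cast_add, add_smul, Finset.sum_add_distrib]
    abel
  s0 := by
    simp only [Pi.add_apply, Finset.sum_add_distrib, h.s0, h'.s0, add_zero]
  s1 := by
    simp only [Pi.add_apply, add_smul, Finset.sum_add_distrib, h.s1, h'.s1, add_zero]
  v := by
    rw [map_mul, h.v, h'.v, ← exp_add, Pi.add_apply]
    congr 1
    ring
  lc := by
    have e : algebraMap k F (lc (w * w')) = algebraMap k F (lc w) * algebraMap k F (lc w') := by
      rw [hlc.mul, map_mul]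
    rw [e, lgmul ((_root_.map_ne_zero _).mpr (hlc.ne _ h.ne))
      ((_root_.map_ne_zero _).mpr (hlc.ne _ h'.ne)), h.lc, h'.lc]
    simp only [Pi.add_apply, Int.cast_add, add_smul, Finset.sum_add_distrib]
    module

lemma PU.inv {f : F} {m : H → ℤ} {κ : FT F} {w : W.FunctionField}
    (h : PU H lc hg f m κ w) : PU H lc hg f⁻¹ (-m) (-κ) w⁻¹ where
  io := by rw [map_inv₀, h.io]
  ne := inv_ne_zero h.ne
  κV := Submodule.neg_mem _ h.κV
  un hg' := by
    rw [map_inv₀]; exact (good_IsUn hg').hi _ (h.un hg')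
  lga hg' := by
    rw [map_inv₀, lginv, h.lga]
    simp only [Pi.neg_apply, Int.cast_neg, neg_smul, Finset.sum_neg_distrib]
    abel
  s0 := by
    simp only [Pi.neg_apply, Finset.sum_neg_distrib, h.s0, neg_zero]
  s1 := by
    simp only [Pi.neg_apply, neg_smul, Finset.sum_neg_distrib, h.s1, neg_zero]
  v := by
    rw [map_inv₀, h.v, ← exp_neg, Pi.neg_apply]
  lc := by
    have e : algebraMap k F (lc w⁻¹) = (algebraMap k F (lc w))⁻¹ := by
      rw [hlc.inv _ h.ne, map_inv₀]
    rw [e, lginv, h.lc]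
    simp only [Pi.neg_apply, Int.cast_neg, neg_smul, Finset.sum_neg_distrib]
    module

lemma PU.const (hg : Gen W X Y) {c : k} (hc : c ≠ 0) :
    PU H lc hg (algebraMap k F c) 0 (MK4.lg (algebraMap k F c)) (cK c) where
  io := io_c hg c
  ne := (_root_.map_ne_zero _).mpr hc
  κV := lg_mem_V0 c
  un hg' := by
    rw [io_c, ← hR_c hg']; exact (good_IsUn hg').hc c hc
  lga hg' := by
    rw [io_c]
    simp only [Pi.zero_apply, Int.cast_zero, zero_smul, Finset.sum_const_zero, add_zero]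
  s0 := by simp
  s1 := by simp
  v := by
    rw [v_c hc, Pi.zero_apply, neg_zero, exp_zero]
  lc := by
    rw [hlc.c, map_pow, lgpow ((_root_.map_ne_zero _).mpr hc)]
    simp only [Pi.zero_apply, Int.cast_zero, zero_smul, Finset.sum_const_zero, add_zero]
    norm_cast

/-- the divisor of a vertical line -/
def mV (q : H) (a : H) : ℤ :=
  (if a = q then 1 else 0) + (if a = -q then 1 else 0) - 2 * (if a = 0 then 1 else 0)

/-- the divisor of a line -/
def mL (q r : H) (a : H) : ℤ :=
  (if a = q then 1 else 0) + (if a = r then 1 else 0) + (if a = -(q + r) then 1 else 0) -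
    3 * (if a = 0 then 1 else 0)

omit hlc in
lemma sum_mV {V : Type*} [AddCommGroup V] [Module ℚ V] (q : H) (g : H → V) :
    ∑ a, (mV q a : ℚ) • g a = g q + g (-q) - (2 : ℚ) • g 0 := by
  unfold mV
  have : ∀ a : H, (((if a = q then 1 else 0) + (if a = -q then 1 else 0) -
      2 * (if a = 0 then 1 else 0) : ℤ) : ℚ) • g a =
      (if a = q then g a else 0) + (if a = -q then g a else 0) -
        (2 : ℚ) • (if a = 0 then g a else 0) := by
    intro a
    push_cast
    split_ifs <;> module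
  rw [Finset.sum_congr rfl fun a _ => this a, Finset.sum_sub_distrib, Finset.sum_add_distrib,
    ← Finset.smul_sum, Finset.sum_ite_eq', Finset.sum_ite_eq', Finset.sum_ite_eq',
    if_pos (Finset.mem_univ _), if_pos (Finset.mem_univ _), if_pos (Finset.mem_univ _)]

omit hlc in
lemma sum_mL {V : Type*} [AddCommGroup V] [Module ℚ V] (q r : H) (g : H → V) :
    ∑ a, (mL q r a : ℚ) • g a = g q + g r + g (-(q + r)) - (3 : ℚ) • g 0 := by
  unfold mL
  have : ∀ a : H, (((if a = q then 1 else 0) + (if a = r then 1 else 0) +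
      (if a = -(q + r) then 1 else 0) - 3 * (if a = 0 then 1 else 0) : ℤ) : ℚ) • g a =
      (if a = q then g a else 0) + (if a = r then g a else 0) +
        (if a = -(q + r) then g a else 0) - (3 : ℚ) • (if a = 0 then g a else 0) := by
    intro a
    push_cast
    split_ifs <;> module
  rw [Finset.sum_congr rfl fun a _ => this a, Finset.sum_sub_distrib, Finset.sum_add_distrib,
    Finset.sum_add_distrib, ← Finset.smul_sum, Finset.sum_ite_eq', Finset.sum_ite_eq',
    Finset.sum_ite_eq', Finset.sum_ite_eq',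
    if_pos (Finset.mem_univ _), if_pos (Finset.mem_univ _), if_pos (Finset.mem_univ _),
    if_pos (Finset.mem_univ _)]

omit hlc in
lemma sum0_mV (q : H) : ∑ a, mV q a = 0 := by
  have h := sum_mV q (fun _ : H => (1 : ℚ))
  simp only [smul_eq_mul, mul_one] at h
  have : ((∑ a, mV q a : ℤ) : ℚ) = 0 := by
    push_cast
    rw [h]; norm_num
  exact_mod_cast this

omit hlc in
lemma sum0_mL (q r : H) : ∑ a, mL q r a = 0 := by
  have h := sum_mL q r (fun _ : H => (1 : ℚ))
  simp only [smul_eq_mul, mul_one] at h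
  have : ((∑ a, mL q r a : ℤ) : ℚ) = 0 := by
    push_cast
    rw [h]; norm_num
  exact_mod_cast this

omit hlc in
lemma sum1_mV (q : H) : ∑ a, mV q a • a = 0 := by
  unfold mV
  simp only [sub_smul, add_smul, ite_smul, one_smul, zero_smul, Finset.sum_sub_distrib,
    Finset.sum_add_distrib, Finset.sum_ite_eq', Finset.mem_univ, if_true]
  have : ∀ a : H, (2 * (if a = 0 then 1 else 0) : ℤ) • a = 0 := by
    intro a
    split_ifs with h
    · rw [h, smul_zero]
    · rw [mul_zero, zero_smul]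
  rw [Finset.sum_congr rfl fun a _ => this a, Finset.sum_const_zero]
  abel

omit hlc in
lemma sum1_mL (q r : H) : ∑ a, mL q r a • a = 0 := by
  unfold mL
  simp only [sub_smul, add_smul, ite_smul, one_smul, zero_smul, Finset.sum_sub_distrib,
    Finset.sum_add_distrib, Finset.sum_ite_eq', Finset.mem_univ, if_true]
  have : ∀ a : H, (3 * (if a = 0 then 1 else 0) : ℤ) • a = 0 := by
    intro a
    split_ifs with h
    · rw [h, smul_zero]
    · rw [mul_zero, zero_smul]
  rw [Finset.sum_congr rfl fun a _ => this a, Finset.sum_const_zero]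
  abel

omit [Fintype H] [DecidableEq H] hlc in
lemma dx_gp (hg : Gen W X Y) {a b : k} (h : W.Nonsingular a b) :
    dx (gp hg) (bc F W (.some a b h)) = X - algebraMap k F a := by
  show X * 1 - 1 * algebraMap k F a = _
  ring

lemma PU.vert (hg : Gen W X Y) {a b : k} (h : W.Nonsingular a b) (hH : Point.some a b h ∈ H) :
    PU H lc hg (X - algebraMap k F a) (mV ⟨_, hH⟩)
      (-((2 : ℚ) • GG (pp F H) ⟨_, hH⟩)) (xK - cK a) where
  io := by rw [map_sub, io_x, io_c]
  ne := ne_of_v (v_x_sub a)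
  κV := by
    refine Submodule.neg_mem _ (Submodule.smul_mem _ _ ?_)
    rw [GG_eq]
    exact Submodule.smul_mem _ _ (lg_mem_V0 _)
  un hg' := by
    rw [map_sub, io_x, io_c, ← hR_sub hg']; exact (good_IsUn hg').hx a b ⟨h, hH⟩
  lga {X' Y'} hg' := by
    rw [map_sub, io_x, io_c, sum_mV]
    have h1 := (ctx (F := F) H).lg_dx (gp_nmem hg') ⟨_, hH⟩
    have h2 : dx (gp hg') (pp F H ⟨_, hH⟩) = X' - algebraMap k F a := dx_gp hg' h
    rw [h2] at h1
    rw [h1, map_zero, sub_zero, map_neg, sub_neg_eq_add]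
    module
  s0 := sum0_mV _
  s1 := sum1_mV _
  v := by
    rw [v_x_sub]
    congr 1
    have hq : (⟨_, hH⟩ : H) ≠ 0 := fun e => Point.some_ne_zero _ (congrArg Subtype.val e)
    unfold mV
    rw [if_neg hq.symm, if_neg fun e => hq (neg_eq_zero.mp e.symm), if_pos rfl]
    norm_num
  lc := by
    rw [hlc.x, map_one, lg1, sum_mV, (ctx (F := F) H).GG_neg, (ctx (F := F) H).GG_zero]
    module

omit [Fintype H] [DecidableEq H] hlc in
lemma io_line (hg : Gen W X Y) (a a' b b' : k) : io hg (inc (yR - iP (ln W a a' b b'))) =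
    Y - (algebraMap k F (W.slope a a' b b') * (X - algebraMap k F a) + algebraMap k F b) := by
  rw [io_inc]
  show hR hg _ = _
  rw [map_sub, hR_y, hR_iP]
  unfold ln linePolynomial
  simp only [eval₂_add, eval₂_mul, eval₂_sub, eval₂_C, eval₂_X]

omit [Fintype H] [DecidableEq H] hlc in
lemma inc_line (hg : Gen W X Y) (a a' b b' : k) :
    (inc (yR - iP (ln W a a' b b')) : W.FunctionField) = yK - cK (W.slope a a' b b') * xK -
        cK (b - W.slope a a' b b' * a) := by
  apply io_inj hg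
  rw [io_line]
  simp only [map_sub, map_mul, io_x, io_y, io_c]
  ring

omit [Fintype H] [DecidableEq H] hlc in
lemma line_bk (hg : Gen W X Y) {a b a' b' : k} (h : W.Nonsingular a b) (h' : W.Nonsingular a' b')
    (hxy : ¬(a = a' ∧ b = W.negY a' b')) :
    Y - (algebraMap k F (W.slope a a' b b') * (X - algebraMap k F a) + algebraMap k F b) =
      -((X - algebraMap k F a) * bk (bc F W (.some a b h)) (gp hg) (bc F W (.some a' b' h'))) := by
  have hX := hg.x_sub_ne a
  have e1 := FK4.vv_gen hg hg.ns (.some a b h)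
  have e2 := FK4.vv_bc (F := F) (.some a b h) (.some a' b' h')
  have e3 : FK4.vv (.some a b h : W.Point) (.some a' b' h') = (1, W.slope a a' b b') := by
    show (if a = a' ∧ b = W.negY a' b' then ((0 : k), (1 : k)) else _) = _
    rw [if_neg hxy]
  rw [bk_eq]
  have e1' : FK4.vv (bc F W (.some a b h)) (gp hg) = (1, FK4.zc X Y (.some a b h)) := e1
  rw [e1', e2, e3]
  show _ = -((X - algebraMap k F a) * (1 * algebraMap k F (W.slope a a' b b') -
    (Y - algebraMap k F b) / (X - algebraMap k F a) * algebraMap k F 1))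
  rw [map_one]
  field_simp
  ring

lemma PU.line (hg : Gen W X Y) {a b a' b' : k} (h : W.Nonsingular a b) (h' : W.Nonsingular a' b')
    (hH : Point.some a b h ∈ H) (hH' : Point.some a' b' h' ∈ H)
    (hxy : ¬(a = a' ∧ b = W.negY a' b')) :
    PU H lc hg (UEG.io hg (inc (yR - iP (ln W a a' b b')))) (mL ⟨_, hH⟩ ⟨_, hH'⟩)
      (-(GG (pp F H) ⟨_, hH⟩ + GG (pp F H) ⟨_, hH'⟩ + GG (pp F H) (⟨_, hH⟩ + ⟨_, hH'⟩)))
      (inc (yR - iP (ln W a a' b b'))) where
  io := rfl
  ne := by
    rw [inc_line hg]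
    exact ne_of_v (v_line _ _)
  κV := by
    have : ∀ q : H, GG (pp F H) q ∈ V0 k F := by
      intro q
      rw [GG_eq]
      exact Submodule.smul_mem _ _ (lg_mem_V0 _)
    exact Submodule.neg_mem _ (Submodule.add_mem _ (Submodule.add_mem _ (this _) (this _)) (this _))
  un hg' := by
    have e : UEG.io hg' (inc (yR - iP (ln W a a' b b'))) = hR hg' (yR - iP (ln W a a' b b')) :=
      io_inc hg' _
    rw [e]
    exact (good_IsUn hg').hl _ _ _ _ ⟨h, hH⟩ ⟨h', hH'⟩ hxy
  lga {X' Y'} hg' := by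
    have hz := gp_nmem hg'
    have hC := ctx (F := F) H
    have e := line_bk hg' h h' hxy
    have hX : X' - algebraMap k F a ≠ 0 := hg'.x_sub_ne a
    have f1 := hC.lg_bkz hz (-⟨_, hH⟩) ⟨_, hH'⟩
    rw [map_neg, neg_neg] at f1
    obtain ⟨f2, f3⟩ := f1
    have f4 : bk (bc F W (.some a b h)) (gp hg') (bc F W (.some a' b' h')) ≠ 0 := f2
    rw [io_line, e, lgneg, lgmul hX f4]
    have h1 := hC.lg_dx hz ⟨_, hH⟩
    have h2 : dx (gp hg') (pp F H ⟨_, hH⟩) = X' - algebraMap k F a := dx_gp hg' h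
    rw [h2] at h1
    have f5 : MK4.lg (bk (bc F W (.some a b h)) (gp hg') (bc F W (.some a' b' h'))) = _ := f3
    rw [h1, f5, sum_mL, hC.GG_neg]
    have a1 : gp hg' + pp F H ⟨_, hH'⟩ - -pp F H ⟨_, hH⟩ =
        gp hg' - pp F H (-(⟨_, hH⟩ + ⟨_, hH'⟩)) := by rw [map_neg, map_add]; abel
    have a2 : gp hg' - -pp F H ⟨_, hH⟩ = gp hg' + pp F H ⟨_, hH⟩ := by abel
    have a3 : (⟨_, hH'⟩ : H) - -⟨_, hH⟩ = ⟨_, hH⟩ + ⟨_, hH'⟩ := by abel
    rw [a1, a2, a3, map_zero, sub_zero]
    module
  s0 := sum0_mL _ _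
  s1 := sum1_mL _ _
  v := by
    rw [inc_line hg, v_line]
    congr 1
    have hq : (⟨_, hH⟩ : H) ≠ 0 := fun e => Point.some_ne_zero _ (congrArg Subtype.val e)
    have hq' : (⟨_, hH'⟩ : H) ≠ 0 := fun e => Point.some_ne_zero _ (congrArg Subtype.val e)
    have hqq : (⟨_, hH⟩ + ⟨_, hH'⟩ : H) ≠ 0 := by
      intro e
      have e' : (Point.some a b h : W.Point) = -Point.some a' b' h' :=
        eq_neg_of_add_eq_zero_left (congrArg Subtype.val e)
      rw [Point.neg_some] at e'
      exact hxy ⟨(Point.some.inj e').1, (Point.some.inj e').2⟩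
    unfold mL
    rw [if_neg hq.symm, if_neg hq'.symm, if_neg fun e => hqq (neg_eq_zero.mp e.symm), if_pos rfl]
    norm_num
  lc := by
    rw [hlc.l _ _ _ _ h.1 h'.1 hxy, map_neg, map_one, lgneg, lg1, sum_mL, (ctx (F := F) H).GG_neg,
      (ctx (F := F) H).GG_zero]
    module

/-- **the functions supported on `H` have a divisor** -/
theorem exists_PU (hg : Gen W X Y) {f : F} (hf : IsUn H X Y f) :
    ∃ (m : H → ℤ) (κ : FT F) (w : W.FunctionField), PU H lc hg f m κ w := by
  have hG : Good H (hR hg) (fun f => ∃ (m : H → ℤ) (κ : FT F) (w : W.FunctionField),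
      PU H lc hg f m κ w) := by
    refine ⟨?_, ?_, ?_, ?_, ?_⟩
    · intro c hc
      rw [hR_c]
      exact ⟨_, _, _, PU.const hlc hg hc⟩
    · rintro f g ⟨m, κ, w, h⟩ ⟨m', κ', w', h'⟩
      exact ⟨_, _, _, h.mul hlc h'⟩
    · rintro f ⟨m, κ, w, h⟩
      exact ⟨_, _, _, h.inv hlc⟩
    · rintro a b ⟨h, hH⟩
      rw [hR_sub]
      exact ⟨_, _, _, PU.vert hlc hg h hH⟩
    · rintro a b a' b' ⟨h, hH⟩ ⟨h', hH'⟩ hxy
      have e : hR hg (yR - iP (ln W a a' b b')) = UEG.io hg (inc (yR - iP (ln W a a' b b'))) :=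
        (io_inc hg _).symm
      rw [e]
      exact ⟨_, _, _, PU.line hlc hg h h' hH hH' hxy⟩
  exact units_ind hg hG hf

omit hlc in
/-- the divisor and the constant are unique -/
theorem PU.unique_lg {f : F} {m m' : H → ℤ} {κ κ' : FT F} {w : W.FunctionField}
    (h : PU H lc hg f m κ w) (s0 : ∑ a, m' a = 0) (hκ : κ' ∈ V0 k F)
    (h' : MK4.lg f = κ' + ∑ a, (m' a : ℚ) • gg (pp F H) (gp hg - pp F H a)) :
    m = m' ∧ κ = κ' := by
  have e1 := h.lg.symm.trans h'
  have e4 : ∑ a, ((m a : ℚ) - m' a) = 0 := by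
    rw [Finset.sum_sub_distrib]
    have e5 : ((∑ a, m a : ℤ) : ℚ) = 0 := by rw [h.s0]; norm_num
    have e6 : ((∑ a, m' a : ℤ) : ℚ) = 0 := by rw [s0]; norm_num
    push_cast at e5 e6
    rw [e5, e6, sub_zero]
  have e2 : ∑ a, ((m a : ℚ) - m' a) • th (pp F H) (gp hg) a = κ' - κ := by
    have e3 : ∀ a, ((m a : ℚ) - m' a) • th (pp F H) (gp hg) a =
        (m a : ℚ) • gg (pp F H) (gp hg - pp F H a) - (m' a : ℚ) • gg (pp F H) (gp hg - pp F H a) -
          ((m a : ℚ) - m' a) • mg (pp F H) := by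
      intro a
      unfold th
      module
    rw [Finset.sum_congr rfl fun a _ => e3 a, Finset.sum_sub_distrib, Finset.sum_sub_distrib,
      ← Finset.sum_smul, e4, zero_smul, sub_zero]
    rw [sub_eq_sub_iff_add_eq_add, add_comm, e1, add_comm]
  have e3 := th_indep H hg (indTh hg) (fun a => (m a : ℚ) - m' a) (by
    rw [e2]
    exact Submodule.sub_mem _ hκ h.κV) e4
  have e5 : m = m' := by
    funext a
    have := congrFun e3 a
    simp only [Pi.zero_apply] at this
    have h5 : (m a : ℚ) = m' a := by linarith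
    exact_mod_cast h5
  refine ⟨e5, ?_⟩
  rw [e5] at e1
  exact add_right_cancel e1

omit hlc in
/-- the divisor and the constant are unique -/
theorem PU.unique {f : F} {m m' : H → ℤ} {κ κ' : FT F} {w w' : W.FunctionField}
    (h : PU H lc hg f m κ w) (h' : PU H lc hg f m' κ' w') : m = m' ∧ κ = κ' :=
  h.unique_lg h'.s0 h'.κV h'.lg

end

end Pool.Agent.UP
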