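import Pool.Agent.Lib_helper40.UP.Base8

/-!
# The labelled patterns on the cyclic group of order eight
-/

set_option autoImplicit false
set_option linter.unusedVariables false

namespace Pool.Agent.UP

/-- a digit in base four -/
def dg (n i : ℕ) : ℕ := n / 4 ^ i % 4

/-- the pairs -/
def prs : List (ℕ × ℕ) := [(0, 1), (0, 2), (0, 3), (0, 5), (0, 6), (0, 7), (1, 2), (1, 3), (1, 4), (1, 6), (1, 7), (2, 3), (2, 4), (2, 5), (2, 7), (3, 4), (3, 5), (3, 6), (4, 5), (4, 6), (4, 7), (5, 6), (5, 7), (6, 7)]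

/-- the six orders -/
def prm : List ℕ := [228, 180, 216, 120, 156, 108]

/-- the normal forms -/
def can : List ℕ := [1059, 291, 4899, 4107, 1035, 267, 2315, 4875, 1803, 75, 2123, 843, 5003, 27, 4123, 2075, 6171, 14619, 795, 4891, 2843, 6939, 1083, 4411, 6459, 16507, 18555, 19323, 31611, 34095, 36975]

/-- the condition -/
def okB (n : ℕ) : Bool := prs.all fun p =>
  Nat.beq (dg n p.1) 0 || !(Nat.beq (dg n p.1) (dg n p.2)) || (List.range 8).all fun x =>
    Nat.beq (dg n x) 0 || Nat.beq (dg n x) (dg n p.1) ||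
      Nat.beq (dg n ((p.1 + p.2 + 8 - x) % 8)) (dg n x)

/-- the code -/
def cod (a : ℕ → ℕ) : ℕ := a 0 + a 1 * 4 + a 2 * 16 + a 3 * 64 + a 4 * 256 + a 5 * 1024 +
  a 6 * 4096 + a 7 * 16384

/-- the code is a normal form after a translation and a change of order -/
def resB (n : ℕ) : Bool := (List.range 8).any fun t => prm.any fun s =>
  can.any (Nat.beq (cod fun i => dg s (dg n ((i + t) % 8))))

/-- a label occurs -/
def hasB (n v : ℕ) : Bool := (List.range 8).any fun i => Nat.beq (dg n i) v

lemma enum8 : ((List.range 128).all fun a => (List.range 128).all fun b =>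
    !(okB (1 + 4 * (128 * a + b))) || !(hasB (1 + 4 * (128 * a + b)) 2) ||
      !(hasB (1 + 4 * (128 * a + b)) 3) || resB (1 + 4 * (128 * a + b))) = true := by
  decide +kernel

end Pool.Agent.UP
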