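import Pool.Agent.Lib_helper40.UP.Two

/-!
# Three points
-/

set_option autoImplicit false
set_option linter.unusedSectionVars false

open scoped TensorProduct

namespace Pool.Agent.UP

open WeierstrassCurve.Affine WithZero Polynomial
open K4M (dx dt ps pc)
open MK4 (FT lg)
open Pool.Agent.TN (lgmul lgdiv lgpow lgneg lg1 lgz V0 lg_mem_V0 lgzpow lginv span_const
  pow_eq_one_of_lg)
open Pool.Agent.UEG
open Pool.Agent.GK
open FK4 (LineS Supp supp_iff)

section

variable {k : Type*} [Field k] [DecidableEq k] [CharZero k] {W : WeierstrassCurve.Affine k}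
  {F : Type*} [Field F] [DecidableEq F] [Algebra k F] {X Y : F}
variable {H : AddSubgroup W.Point}

/-- the negative of the generic point -/
lemma IsUn_neg (hg : Gen W X Y) {f : F} (hf : IsUn H X ((WF F W).negY X Y) f) : IsUn H X Y f := by
  have h : RR H X ((WF F W).negY X Y) ≤ RR H X Y := by
    apply Algebra.adjoin_le
    rintro z ((rfl | hz) | ⟨a, b, h, rfl⟩)
    · exact mx
    · rw [Set.mem_singleton_iff.mp hz]
      unfold negY
      have a1 : (WF F W).a₁ = algebraMap k F W.a₁ := rfl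
      have a3 : (WF F W).a₃ = algebraMap k F W.a₃ := rfl
      rw [a1, a3]
      exact sub_mem (sub_mem (neg_mem my) (mul_mem (mc _) mx)) (mc _)
    · exact mi h
  exact ⟨hf.1, h hf.2.1, h hf.2.2⟩

variable [Fintype H] [DecidableEq H] {lc : W.FunctionField → k} (hlc : IsLC W lc)

include hlc

/-- the divisor of `f(-z)` -/
lemma PU.bar {hg : Gen W X Y} {f : F} {m : H → ℤ} {κ : FT F} {w : W.FunctionField}
    (h : PU H lc hg f m κ w) (hgn : Gen W X ((WF F W).negY X Y)) (hn : gp hgn = -gp hg) :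
    IsUn H X Y (UEG.io hgn w) ∧ ∃ w', PU H lc hg (UEG.io hgn w) (fun a => m (-a)) κ w' := by
  have hu : IsUn H X Y (UEG.io hgn w) := IsUn_neg hg (h.un hgn)
  refine ⟨hu, ?_⟩
  obtain ⟨m', κ', w', h'⟩ := exists_PU hlc hg hu
  have s0 : ∑ a, m (-a) = 0 := by
    rw [← h.s0]
    exact Equiv.sum_comp (Equiv.neg H) m
  have e := h'.unique_lg (m' := fun a => m (-a)) (κ' := κ) s0 h.κV (by
    rw [h.lga hgn, hn]
    congr 1
    rw [← Equiv.sum_comp (Equiv.neg H)]
    refine Finset.sum_congr rfl fun a _ => ?_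
    show (m (-a) : ℚ) • gg (pp F H) (-gp hg - pp F H (-a)) = (m (-a) : ℚ) • _
    congr 1
    have : -gp hg - pp F H (-a) = -(gp hg - pp F H a) := by rw [map_neg]; abel
    rw [this, Ctx.gg_neg])
  rw [e.1, e.2] at h'
  exact ⟨w', h'⟩

/-- the norm of a function with one zero -/
lemma norm_one (hAC : AC W) {hg : Gen W X Y} {f : F} {m : H → ℤ} {κ : FT F}
    {w : W.FunctionField} (h : PU H lc hg f m κ w) (hgn : Gen W X ((WF F W).negY X Y))
    (hn : gp hgn = -gp hg) {x0 y0 : k} (h0 : W.Nonsingular x0 y0) (hH : Point.some x0 y0 h0 ∈ H)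
    {N : ℕ} (hm : ∀ x, m x = (if x = ⟨_, hH⟩ then (N : ℤ) else 0) - (if x = 0 then (N : ℤ) else 0)) :
    ∃ c : k, c ≠ 0 ∧ f * UEG.io hgn w = algebraMap k F c * (X - algebraMap k F x0) ^ N := by
  obtain ⟨hu, w', h'⟩ := h.bar hlc hgn hn
  have hf : IsUn H X Y f := by rw [← h.io]; exact h.un hg
  have hX0 : X - algebraMap k F x0 ≠ 0 := hg.x_sub_ne x0
  have hXu : IsUn H X Y (X - algebraMap k F x0) := by
    rw [← hR_sub hg]; exact (good_IsUn hg).hx _ _ ⟨h0, hH⟩
  have e1 := (ctx (F := F) H).lg_dx (gp_nmem hg) ⟨_, hH⟩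
  have e2 : dx (gp hg) (pp F H ⟨_, hH⟩) = X - algebraMap k F x0 := dx_gp hg h0
  rw [e2] at e1
  have key : ∀ g : H → FT F, ∑ a, (m a : ℚ) • g a = (N : ℚ) • (g ⟨_, hH⟩ - g 0) := by
    intro g
    have : ∀ a, (m a : ℚ) • g a = (N : ℚ) • ((if a = ⟨_, hH⟩ then g a else 0) -
        (if a = 0 then g a else 0)) := by
      intro a
      rw [hm]
      push_cast
      split_ifs <;> module
    rw [Finset.sum_congr rfl fun a _ => this a, ← Finset.smul_sum, Finset.sum_sub_distrib,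
      Finset.sum_ite_eq', Finset.sum_ite_eq', if_pos (Finset.mem_univ _),
      if_pos (Finset.mem_univ _)]
  have key' : ∑ a, (m (-a) : ℚ) • gg (pp F H) (gp hg - pp F H a) =
      (N : ℚ) • (gg (pp F H) (gp hg + pp F H ⟨_, hH⟩) - gg (pp F H) (gp hg)) := by
    have h3 := key (fun a => gg (pp F H) (gp hg + pp F H a))
    simp only [map_zero, add_zero] at h3
    rw [← h3, ← Equiv.sum_comp (Equiv.neg H)]
    refine Finset.sum_congr rfl fun a _ => ?_
    show (m (- -a) : ℚ) • gg (pp F H) (gp hg - pp F H (-a)) = _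
    rw [neg_neg, map_neg, sub_neg_eq_add]
  have h3 := key (fun a => gg (pp F H) (gp hg - pp F H a))
  simp only [map_zero, sub_zero] at h3
  have hne : f * UEG.io hgn w ≠ 0 := mul_ne_zero hf.1 hu.1
  have e3 : lg (f * UEG.io hgn w * ((X - algebraMap k F x0) ^ N)⁻¹) ∈ V0 k F := by
    rw [lgmul hne (inv_ne_zero (pow_ne_zero _ hX0)), lginv, lgpow hX0, lgmul hf.1 hu.1, h.lg,
      h'.lg, h3, key', e1]
    have : κ + (N : ℚ) • (gg (pp F H) (gp hg - pp F H ⟨_, hH⟩) - gg (pp F H) (gp hg)) +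
        (κ + (N : ℚ) • (gg (pp F H) (gp hg + pp F H ⟨_, hH⟩) - gg (pp F H) (gp hg))) +
        -((N : ℚ) • (gg (pp F H) (gp hg + pp F H ⟨_, hH⟩) +
          gg (pp F H) (gp hg - pp F H ⟨_, hH⟩) - (2 : ℚ) • gg (pp F H) (gp hg) -
          (2 : ℚ) • GG (pp F H) ⟨_, hH⟩)) =
        (2 : ℚ) • κ + (N : ℚ) • ((2 : ℚ) • GG (pp F H) ⟨_, hH⟩) := by
      module
    rw [this]
    have hGV : GG (pp F H) (⟨_, hH⟩ : H) ∈ V0 k F := by
      rw [GG_eq]
      exact Submodule.smul_mem _ _ (lg_mem_V0 _)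
    exact Submodule.add_mem _ (Submodule.smul_mem _ _ h.κV)
      (Submodule.smul_mem _ _ (Submodule.smul_mem _ _ hGV))
  obtain ⟨c, hc, e4⟩ := const_of_unit hlc hAC hg
    (IsUn.mul hg (IsUn.mul hg hf hu) (IsUn.inv hg (IsUn.pow hg hXu N))) e3
  refine ⟨c, hc, ?_⟩
  rw [← e4, mul_assoc, inv_mul_cancel₀ (pow_ne_zero _ hX0), mul_one]

/-- two statements on polynomials -/
def PL (k : Type*) [Field k] : Prop :=
  (∀ (n : ℕ) (c0 c1 x0 x1 : k), 4 ≤ n → c0 ≠ 0 → c1 ≠ 0 →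
    2 * (1 + C c0 * (Polynomial.X - C x0) ^ n - C c1 * (Polynomial.X - C x1) ^ n :
      k[X]).natDegree ≤ n →
      x0 = x1 ∧ c0 = c1) ∧
  (∀ (n : ℕ) (c0 x0 : k) (s q Ψ : k[X]), 4 ≤ n → c0 ≠ 0 → s ≠ 0 → Ψ.natDegree ≤ 3 →
    s ^ 2 * (1 - C (4 * c0) * (Polynomial.X - C x0) ^ n) = q ^ 2 * Ψ → False)

/-- **three points** -/
theorem case_one (hAC : AC W) (hPL : PL k) {hg : Gen W X Y} {f : F} {m n : H → ℤ} {κ κ' : FT F}
    {w : W.FunctionField} (h : PU H lc hg f m κ w) (h' : PU H lc hg (1 - f) n κ' (1 - w))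
    {t s : H} (ht : t ≠ 0) (hs : s ≠ 0) {N : ℕ} (hN : 4 ≤ N)
    (h1 : ∀ x, m x = (if x = t then (N : ℤ) else 0) - (if x = 0 then (N : ℤ) else 0))
    (h2 : ∀ x, n x = (if x = s then (N : ℤ) else 0) - (if x = 0 then (N : ℤ) else 0)) : False := by
  obtain ⟨pl1, pl2⟩ := hPL
  obtain ⟨hgn, hn'⟩ := zz_neg hg
  have hn : gp hgn = -gp hg := hn'
  obtain ⟨t, htH⟩ := t
  obtain ⟨s, hsH⟩ := s
  rcases t with _ | ⟨x0, y0, g0⟩
  · exact ht rfl
  rcases s with _ | ⟨x1, y1, g1⟩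
  · exact hs rfl
  obtain ⟨c0, hc0, e0⟩ := norm_one hlc hAC h hgn hn g0 htH h1
  obtain ⟨c1, hc1, e1⟩ := norm_one hlc hAC h' hgn hn g1 hsH h2
  have ebar : UEG.io hgn (1 - w) = 1 - UEG.io hgn w := by rw [map_sub, map_one]
  rw [ebar] at e1
  obtain ⟨hu, w', hw'⟩ := h.bar hlc hgn hn
  set fb := UEG.io hgn w with hfb
  -- the trace
  set P : k[X] := 1 + C c0 * (Polynomial.X - C x0) ^ N - C c1 * (Polynomial.X - C x1) ^ N with hP
  have eP : f + fb = P.eval₂ (algebraMap k F) X := by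
    rw [hP]
    simp only [eval₂_add, eval₂_sub, eval₂_mul, eval₂_pow, eval₂_C, eval₂_X, eval₂_one]
    rw [← e0, ← e1]
    ring
  have hdeg : 2 * P.natDegree ≤ N := by
    have e3 : w + w' = inc (CoordinateRing.mk W (C P)) := by
      apply io_inj hg
      rw [map_add, h.io, hw'.io, eP, io_inc]
      exact (homR_C _ _ _ hg.eq P).symm
    have ez : m 0 = -(N : ℤ) := by
      rw [h1, if_neg (fun e => ht e.symm), if_pos rfl]; ring
    have v1 : v (W := W) w = exp (N : ℤ) := by rw [h.v, ez, neg_neg]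
    have v2 : v (W := W) w' = exp (N : ℤ) := by rw [hw'.v, neg_zero, ez, neg_neg]
    have v3 : v (W := W) (w + w') ≤ exp (N : ℤ) := by
      refine (Valuation.map_add _ _ _).trans (max_le ?_ ?_)
      · rw [v1]
      · rw [v2]
    by_cases hP0 : P = 0
    · rw [hP0, natDegree_zero, mul_zero]; exact Nat.zero_le _
    · rw [e3, v_pol hP0, exp_le_exp] at v3
      exact_mod_cast v3
  obtain ⟨rfl, rfl⟩ := pl1 N c0 c1 x0 x1 hN hc0 hc1 hdeg
  have hsum : f + fb = 1 := by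
    rw [eP, hP]
    simp
  have hsq : (f - fb) ^ 2 = 1 - algebraMap k F (4 * c0) * (X - algebraMap k F x0) ^ N := by
    have : (f - fb) ^ 2 = (f + fb) ^ 2 - 4 * (f * fb) := by ring
    rw [this, hsum, e0, map_mul, map_ofNat]
    ring
  -- a fraction
  have hf : IsUn H X Y f := by rw [← h.io]; exact h.un hg
  obtain ⟨M, -, r, hr⟩ := mem_RR hg hf.2.1
  obtain ⟨p, q, rfl⟩ := exists_pq r
  set S : k[X] := (M.map (fun a => Polynomial.X - C a)).prod with hS
  have hS0 : S ≠ 0 := by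
    rw [hS, Ne, Multiset.prod_eq_zero_iff, Multiset.mem_map]
    rintro ⟨a, -, ha⟩
    exact X_sub_C_ne_zero a ha
  have ew : w * inc (iP S) = inc (iP p + iP q * yR) := by
    apply io_inj hg
    rw [map_mul, h.io, io_inc, io_inc]
    exact hr
  have r1 : f * S.eval₂ (algebraMap k F) X = p.eval₂ (algebraMap k F) X +
      q.eval₂ (algebraMap k F) X * Y := by
    have := hr
    rw [map_add, map_mul, hR_iP, hR_iP, hR_iP, hR_y] at this
    exact this
  have r2 : fb * S.eval₂ (algebraMap k F) X = p.eval₂ (algebraMap k F) X +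
      q.eval₂ (algebraMap k F) X * (WF F W).negY X Y := by
    have := congrArg (UEG.io hgn) ew
    rw [map_mul, io_inc, io_inc] at this
    have t1 : homR (algebraMap k F) X ((WF F W).negY X Y) hgn.eq (iP S) = hR hgn (iP S) := rfl
    have t2 : homR (algebraMap k F) X ((WF F W).negY X Y) hgn.eq (iP p + iP q * yR) =
      hR hgn (iP p + iP q * yR) := rfl
    rw [t1, t2, map_add, map_mul, hR_iP, hR_iP, hR_iP, hR_y] at this
    exact this
  set Ψ : k[X] := C 4 * Polynomial.X ^ 3 + C W.b₂ * Polynomial.X ^ 2 +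
    C (2 * W.b₄) * Polynomial.X + C W.b₆ with hΨ
  have hΨ3 : Ψ.natDegree ≤ 3 := by rw [hΨ]; compute_degree
  have hY : (Y - (WF F W).negY X Y) ^ 2 = Ψ.eval₂ (algebraMap k F) X := by
    have he : Y ^ 2 + algebraMap k F W.a₁ * X * Y + algebraMap k F W.a₃ * Y =
      X ^ 3 + algebraMap k F W.a₂ * X ^ 2 + algebraMap k F W.a₄ * X + algebraMap k F W.a₆ := hg.eq
    have a1 : (WF F W).a₁ = algebraMap k F W.a₁ := rfl
    have a3 : (WF F W).a₃ = algebraMap k F W.a₃ := rfl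
    rw [hΨ]
    simp only [eval₂_add, eval₂_mul, eval₂_pow, eval₂_C, eval₂_X]
    unfold negY WeierstrassCurve.b₂ WeierstrassCurve.b₄ WeierstrassCurve.b₆
    rw [a1, a3]
    simp only [map_add, map_mul, map_pow, map_ofNat]
    linear_combination 4 * he
  have hid : S ^ 2 * (1 - C (4 * c0) * (Polynomial.X - C x0) ^ N) = q ^ 2 * Ψ := by
    rw [← sub_eq_zero]
    apply hg.tr'
    simp only [eval₂_sub, eval₂_mul, eval₂_pow, eval₂_C, eval₂_X, eval₂_one]
    rw [← hY, ← hsq]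
    have r3 : (f - fb) * S.eval₂ (algebraMap k F) X =
        q.eval₂ (algebraMap k F) X * (Y - (WF F W).negY X Y) := by
      rw [sub_mul, r1, r2]; ring
    have r4 : ((f - fb) * S.eval₂ (algebraMap k F) X) ^ 2 =
        (q.eval₂ (algebraMap k F) X * (Y - (WF F W).negY X Y)) ^ 2 := by rw [r3]
    rw [mul_pow, mul_pow] at r4
    rw [← r4]
    ring
  exact pl2 N c0 x0 S q Ψ hN hc0 hS0 hΨ3 hid

end

end Pool.Agent.UP
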