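import Pool.Agent.Lib_helper40.UP.One
import Pool.Agent.Lib_helper87.FAM.Lc2
import Pool.Agent.Lib_helper54.FAM.PL

/-!
# The unit equation on the points of a group of prime order
-/

set_option autoImplicit false
set_option linter.unusedSectionVars false

open scoped TensorProduct

namespace Pool.Agent.UP

open WeierstrassCurve.Affine WithZero Polynomial
open MK4 (FT lg HK Closed hk sy Cst)
open Pool.Agent.TN (V0)
open Pool.Agent.UEG
open Pool.Agent.GK
open FK4 (LineS Supp supp_iff UnitEqS Generic Sp OnlyConst unitEqS_of)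

section

variable {k : Type*} [Field k] [DecidableEq k] [CharZero k] {W : WeierstrassCurve.Affine k}
  {F : Type*} [Field F] [Algebra k F] {X Y : F}
variable {H : AddSubgroup W.Point}

lemma powers_ok : Powers k F := fun _ _ _ _ hl _ _ hn h => by
  obtain ⟨h1, h2, -⟩ := GK.powers hl hn h
  exact ⟨h1, h2⟩

lemma pl_ok : PL k :=
  ⟨fun _ _ _ _ _ hn hc0 _ h => GK.pl_i hn hc0 (by rw [mul_comm]; exact h),
    fun _ _ _ _ _ _ hn hc0 hs hΨ h => GK.pl_ii hn hc0 hs hΨ h⟩

lemma lc_ok : IsLC W (lc2 (W := W)) where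
  ne _ h := lc2_ne h
  mul := lc2_mul
  inv _ h := lc2_inv h
  c := lc2_c
  x a := by
    have e : (xK - cK a : W.FunctionField) = inc (iP (Polynomial.X - Polynomial.C a)) := by
      rw [map_sub, map_sub]; rfl
    rw [e, lc2_x_sub]
  l _ _ _ _ h h' hxy := lc2_line h h' hxy
  one _ h := lc2_eq_one h

lemma ac_ok : AC W := fun w M c hM hc h => by
  obtain ⟨c', -, h'⟩ := root_const (by exact_mod_cast hM.ne') hc h
  exact ⟨c', h'⟩

/-- **the unit equation for a group of prime order** -/
theorem unit_prime [Fintype H] [DecidableEq H] [DecidableEq F] (hp : (Fintype.card H).Prime)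
    (h5 : 5 ≤ Fintype.card H) (hG : IndG H F) (hg : Gen W X Y) {f : F} (hf : IsUn H X Y f)
    (hf' : IsUn H X Y (1 - f)) : (∃ c : k, f = algebraMap k F c) ∨ LineS H X Y f := by
  obtain ⟨m, κ, w, h⟩ := exists_PU lc_ok hg hf
  obtain ⟨n, κ', w', h'⟩ := exists_PU lc_ok hg hf'
  by_cases hm : m = 0
  · left
    obtain ⟨c, -, e⟩ := const_of_unit lc_ok ac_ok hg hf (by
      rw [h.lg, hm]
      simp only [Pi.zero_apply, Int.cast_zero, zero_smul, Finset.sum_const_zero, add_zero]
      exact h.κV)
    exact ⟨c, e⟩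
  right
  have hT := tr_of lc_ok hG hg hf hf' h h' hm
  have hV := val_one lc_ok hg hf hf' h h'
  have d1 : ∀ x, m x = max (m x) 0 - max (-(m x)) 0 := fun x => by
    rcases (hV x).1 with a | a | a <;> omega
  have d2 : ∀ x, n x = max (n x) 0 - max (-(m x)) 0 := fun x => by
    rcases (hV x).1 with a | a | a <;> omega
  rcases hT.main hp (by omega) with ⟨T, U, V, a1, a2, a3⟩ | ⟨S, p, q, r, N, hN, a1, a2, a3⟩
  · exfalso
    set d : ℤ := ∑ x, max (m x) 0 with hd
    have hd0 := hT.pos
    have hTV : T ≠ V := by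
      rintro rfl
      have b1 := hT.gd T
      simp only [a1, a3, if_true] at b1
      exact absurd (b1 hd0.ne') hd0.ne'
    have hUV : U ≠ V := by
      rintro rfl
      have b1 := hT.eg U
      simp only [a2, a3, if_true] at b1
      exact absurd (b1 hd0.ne') hd0.ne'
    obtain ⟨X', Y', hg', e'⟩ := gen_add hg (-(V : W.Point))
    have e : gp hg' = gp hg + pp F H (-V) := e'
    obtain ⟨u, hu⟩ := PU.tr lc_ok e hf h
    obtain ⟨u', hu'⟩ := PU.tr lc_ok e hf' h'
    have eu : u' = 1 - u := by
      apply io_inj hg'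
      rw [hu'.io, map_sub, map_one, hu.io]
    subst eu
    obtain ⟨N, hN⟩ := Int.eq_ofNat_of_zero_le hd0.le
    have c1 : ∀ x, m (x - -V) = (if x = T - V then (N : ℤ) else 0) -
        (if x = 0 then (N : ℤ) else 0) := by
      intro x
      rw [d1, a1, a3, ← hN, sub_neg_eq_add]
      have z1 : (x + V = T) ↔ (x = T - V) := eq_sub_iff_add_eq.symm
      have z2 : (x + V = V) ↔ (x = 0) := add_eq_right
      simp only [z1, z2]
    have c2 : ∀ x, n (x - -V) = (if x = U - V then (N : ℤ) else 0) -
        (if x = 0 then (N : ℤ) else 0) := by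
      intro x
      rw [d2, a2, a3, ← hN, sub_neg_eq_add]
      have z1 : (x + V = U) ↔ (x = U - V) := eq_sub_iff_add_eq.symm
      have z2 : (x + V = V) ↔ (x = 0) := add_eq_right
      simp only [z1, z2]
    have ht : T - V ≠ 0 := sub_ne_zero.mpr hTV
    -- the degree is a multiple of the order
    have hs1 : (N : ℤ) • (T - V) = 0 := by
      have b1 := hu.s1
      have b2 : ∀ a : H, m (a - -V) • a = (if a = T - V then (N : ℤ) • a else 0) -
          (if a = 0 then (N : ℤ) • a else 0) := by
        intro a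
        rw [c1]
        split_ifs <;> simp only [zero_smul, sub_zero, zero_sub, neg_smul, sub_self]
      rw [Finset.sum_congr rfl fun a _ => b2 a, Finset.sum_sub_distrib, Finset.sum_ite_eq',
        Finset.sum_ite_eq', if_pos (Finset.mem_univ _), if_pos (Finset.mem_univ _), smul_zero,
        sub_zero] at b1
      exact b1
    have hN4 : 4 ≤ N := by
      have b1 : addOrderOf (T - V) ∣ N := by
        apply addOrderOf_dvd_of_nsmul_eq_zero
        rw [← natCast_zsmul]; exact hs1
      have b2 : addOrderOf (T - V) ∣ Fintype.card H := addOrderOf_dvd_card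
      have b3 : addOrderOf (T - V) ≠ 1 := fun e => ht (AddMonoid.addOrderOf_eq_one_iff.mp e)
      rcases (Nat.dvd_prime hp).mp b2 with b4 | b4
      · exact absurd b4 b3
      · rw [b4] at b1
        have b5 : 0 < N := by
          have : (0 : ℤ) < N := by rw [← hN]; exact hd0
          exact_mod_cast this
        have := Nat.le_of_dvd b5 b1
        omega
    exact case_one lc_ok ac_ok pl_ok hu hu' ht (sub_ne_zero.mpr hUV) hN4 c1 c2
  · have pos : ∀ S x : H, 0 < mz S x x := fun S x => by
      unfold mz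
      rw [if_pos rfl]
      split_ifs <;> norm_num
    have pos' : ∀ S x : H, 0 < mz S x (S - x) := fun S x => by
      unfold mz
      rw [if_pos rfl]
      split_ifs <;> norm_num
    have b1 := hT.gd
    have b2 := hT.eg
    have b3 := hT.de
    simp only [a1, a2, a3] at b1 b2 b3
    have hN0 : N ≠ 0 := hN.ne'
    have m0 : ∀ {S x y : H}, 0 < mz S x y → N * mz S x y ≠ 0 := fun h => mul_ne_zero hN0 h.ne'
    have hn : Nd S p q r := by
      refine ⟨?_, ?_, ?_, ?_, ?_, ?_⟩
      · rintro rfl
        exact m0 (pos S p) (b1 p (m0 (pos S p)))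
      · rintro rfl
        exact m0 (pos S (S - q)) (b1 (S - q) (m0 (pos' S q)))
      · rintro rfl
        exact m0 (pos S q) (b2 q (m0 (pos S q)))
      · rintro rfl
        exact m0 (pos S (S - r)) (b2 (S - r) (m0 (pos' S r)))
      · rintro rfl
        exact m0 (pos S p) (b3 p (m0 (pos S p)))
      · rintro rfl
        exact m0 (pos' S r) (b3 (S - r) (m0 (pos S (S - r))))
    refine case_two lc_ok ac_ok powers_ok hg hf hf' h h' hN hn (fun x => ?_) (fun x => ?_)
    · rw [d1, a1, a3]; ring
    · rw [d2, a2, a3]; ring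

/-- the unit equation -/
theorem unitEqS_prime [Fintype H] (hp : (Fintype.card H).Prime) (h5 : 5 ≤ Fintype.card H)
    (hS : SiegelIndep H) (hg : Generic W X Y) : UnitEqS H X Y := by
  classical
  exact unitEqS_of fun f h1 h2 => unit_prime hp h5 (indG_of hS) hg.toU (supp_iff.mp h1)
    (supp_iff.mp h2)

/-- **only constants** -/
theorem onlyConst_of [hF : Fintype H] (hS : SiegelIndep H) (hg : Generic W X Y)
    (hU : UnitEqS H X Y) : OnlyConst H X Y := by
  intro z hz hc
  refine closed_SpL hg (H := H) (fun {i} => ?_) ?_ hc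
  · have e : i = hF := Subsingleton.elim _ _
    subst e
    exact hS
  · refine Submodule.span_le.mpr ?_ hz
    rintro _ ⟨f, u, h1, h2, rfl⟩
    refine Submodule.subset_span ⟨f, u, ?_, rfl⟩
    rcases (hU f).mp ⟨h1, h2⟩ with ⟨c, -, -, e⟩ | h3
    · exact Or.inl ⟨c, e⟩
    · exact Or.inr h3

/-- **groups of prime order** -/
theorem prime [Fintype H] (hp : (Fintype.card H).Prime) (h5 : 5 ≤ Fintype.card H)
    (hS : SiegelIndep H) (hg : Generic W X Y) : UnitEqS H X Y ∧ OnlyConst H X Y :=
  ⟨unitEqS_prime hp h5 hS hg, onlyConst_of hS hg (unitEqS_prime hp h5 hS hg)⟩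

end

end Pool.Agent.UP
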