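import Pool.Agent.Lib_helper40.UP.Enum8

/-!
# Reduction to the normal forms
-/

set_option autoImplicit false
set_option linter.unusedVariables false

namespace Pool.Agent.UP

variable {D E G : ZMod 8 → ℤ} {d : ℤ}

lemma dg_cod {a : ℕ → ℕ} (ha : ∀ i, i < 8 → a i < 4) {i : ℕ} (hi : i < 8) :
    dg (cod a) i = a i := by
  have h0 := ha 0 (by norm_num)
  have h1 := ha 1 (by norm_num)
  have h2 := ha 2 (by norm_num)
  have h3 := ha 3 (by norm_num)
  have h4 := ha 4 (by norm_num)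
  have h5 := ha 5 (by norm_num)
  have h6 := ha 6 (by norm_num)
  have h7 := ha 7 (by norm_num)
  unfold dg cod
  interval_cases i <;> norm_num <;> omega

/-- the code of the labels -/
def lcode (D E G : ZMod 8 → ℤ) : ℕ := cod fun i => lab D E G (i : ZMod 8)

lemma dg_lcode {i : ℕ} (hi : i < 8) : dg (lcode D E G) i = lab D E G (i : ZMod 8) :=
  dg_cod (fun i _ => lab_lt _) hi

lemma cast_mod (n : ℕ) : ((n % 8 : ℕ) : ZMod 8) = (n : ZMod 8) := ZMod.natCast_mod n 8

lemma prs_spec : ∀ p ∈ prs, p.1 < 8 ∧ p.2 < 8 ∧ ((p.2 : ℕ) : ZMod 8) - ((p.1 : ℕ) : ZMod 8) ≠ 0 ∧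
    ((p.2 : ℕ) : ZMod 8) - ((p.1 : ℕ) : ZMod 8) ≠ 4 := by
  decide +kernel

lemma Tr.okB (h : Tr D E G d) : okB (lcode D E G) = true := by
  unfold UP.okB
  rw [List.all_eq_true]
  intro p hp
  obtain ⟨h1, h2, h3, h4⟩ := prs_spec p hp
  rw [dg_lcode h1, dg_lcode h2]
  by_cases e1 : lab D E G ((p.1 : ℕ) : ZMod 8) = 0
  · rw [e1]; rfl
  by_cases e2 : lab D E G ((p.1 : ℕ) : ZMod 8) = lab D E G ((p.2 : ℕ) : ZMod 8)
  · rw [Bool.or_eq_true, List.all_eq_true]
    right
    intro x hx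
    have hx8 : x < 8 := List.mem_range.mp hx
    rw [dg_lcode hx8, dg_lcode (Nat.mod_lt _ (by norm_num))]
    by_cases e3 : lab D E G (x : ZMod 8) = 0
    · rw [e3]; rfl
    by_cases e4 : lab D E G (x : ZMod 8) = lab D E G ((p.1 : ℕ) : ZMod 8)
    · rw [e4, Nat.beq_refl, Bool.or_true, Bool.true_or]
    · have := h.lab_symm h3 h4 e2 e1 _ e3 e4
      have e5 : (((p.1 + p.2 + 8 - x) % 8 : ℕ) : ZMod 8) =
          ((p.1 : ℕ) : ZMod 8) + ((p.2 : ℕ) : ZMod 8) - (x : ZMod 8) := by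
        rw [cast_mod, Nat.cast_sub (by omega), Nat.cast_add, Nat.cast_add]
        have : ((8 : ℕ) : ZMod 8) = 0 := by decide
        rw [this, add_zero]
      rw [e5, this, Nat.beq_refl, Bool.or_true]
  · have : Nat.beq (lab D E G ((p.1 : ℕ) : ZMod 8)) (lab D E G ((p.2 : ℕ) : ZMod 8)) = false := by
      rw [Bool.eq_false_iff]
      exact fun hb => e2 (Nat.eq_of_beq_eq_true hb)
    rw [this]
    simp

lemma hasB_of {v : ℕ} {x : ZMod 8} (hx : lab D E G x = v) : hasB (lcode D E G) v = true := by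
  unfold hasB
  rw [List.any_eq_true]
  refine ⟨x.val, List.mem_range.mpr (ZMod.val_lt x), ?_⟩
  rw [dg_lcode (ZMod.val_lt x), ZMod.natCast_zmod_val, hx, Nat.beq_refl]

/-- the normal form -/
lemma Tr.resB (h : Tr D E G d) (h0 : D 0 ≠ 0) : ∃ t s c : ℕ, s ∈ prm ∧ c ∈ can ∧
    ∀ i, i < 8 → dg c i = dg s (lab D E G ((i : ZMod 8) + (t : ZMod 8))) := by
  have hl0 : lab D E G 0 = 1 := h.lab1_iff.mpr h0
  have hn : lcode D E G < 65536 := by
    have := fun i : ℕ => lab_lt (D := D) (E := E) (G := G) (i : ZMod 8)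
    have h0 := this 0
    have h1 := this 1
    have h2 := this 2
    have h3 := this 3
    have h4 := this 4
    have h5 := this 5
    have h6 := this 6
    have h7 := this 7
    unfold lcode cod
    beta_reduce
    omega
  have hm : ∃ m, m < 16384 ∧ lcode D E G = 1 + 4 * m := by
    refine ⟨lcode D E G / 4, by omega, ?_⟩
    have : lcode D E G % 4 = 1 := by
      have := dg_lcode (D := D) (E := E) (G := G) (i := 0) (by norm_num)
      unfold dg at this
      rw [pow_zero, Nat.div_one, Nat.cast_zero, hl0] at this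
      exact this
    omega
  obtain ⟨m, hm, hm'⟩ := hm
  have key := enum8
  rw [List.all_eq_true] at key
  have key := key (m / 128) (List.mem_range.mpr (by omega))
  rw [List.all_eq_true] at key
  have key := key (m % 128) (List.mem_range.mpr (by omega))
  have e1 : 1 + 4 * (128 * (m / 128) + m % 128) = lcode D E G := by rw [hm']; omega
  rw [e1] at key
  obtain ⟨x, hx⟩ := h.rot.exists_pt
  obtain ⟨y, hy⟩ := h.rot.rot.exists_pt
  rw [h.okB, hasB_of (h.lab2_iff.mpr hx), hasB_of (h.lab3_iff.mpr hy)] at key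
  have key : UP.resB (lcode D E G) = true := by simpa using key
  unfold UP.resB at key
  rw [List.any_eq_true] at key
  obtain ⟨t, ht, key⟩ := key
  rw [List.any_eq_true] at key
  obtain ⟨s, hs, key⟩ := key
  rw [List.any_eq_true] at key
  obtain ⟨c, hc, key⟩ := key
  refine ⟨t, s, c, hs, hc, fun i hi => ?_⟩
  have key := Nat.eq_of_beq_eq_true key
  have h4 : ∀ i, i < 8 → dg s (dg (lcode D E G) ((i + t) % 8)) < 4 := fun i _ =>
    Nat.mod_lt _ (by norm_num)
  have := dg_cod h4 hi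
  rw [key] at this
  rw [this, dg_lcode (Nat.mod_lt _ (by norm_num)), cast_mod, Nat.cast_add]

/-! ### translations -/

/-- translate -/
def tl (t : ZMod 8) (D : ZMod 8 → ℤ) : ZMod 8 → ℤ := fun x => D (x + t)

lemma Rl.tl {D M : ZMod 8 → ℤ} (h : Rl D M) (t : ZMod 8) : Rl (tl t D) (tl t M) := by
  intro T T' h1 h2 j
  have := h (T + t) (T' + t) h1 h2 j
  show M (T - j + t) + M (T + j + t) = M (T' - j + t) + M (T' + j + t)
  have a1 : T - j + t = T + t - j := by abel
  have a2 : T + j + t = T + t + j := by abel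
  have a3 : T' - j + t = T' + t - j := by abel
  have a4 : T' + j + t = T' + t + j := by abel
  rw [a1, a2, a3, a4]
  exact this

lemma Tr.tl (h : Tr D E G d) (t : ZMod 8) : Tr (tl t D) (tl t E) (tl t G) d where
  d0 x := h.d0 _
  e0 x := h.e0 _
  g0 x := h.g0 _
  de x hx := h.de _ hx
  eg x hx := h.eg _ hx
  gd x hx := h.gd _ hx
  sd := (Equiv.sum_comp (Equiv.addRight t) D).trans h.sd
  se := (Equiv.sum_comp (Equiv.addRight t) E).trans h.se
  sg := (Equiv.sum_comp (Equiv.addRight t) G).trans h.sg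
  pos := h.pos
  rd := h.rd.tl t
  re := h.re.tl t
  rg := h.rg.tl t

lemma card_tl (t : ZMod 8) (D : ZMod 8 → ℤ) :
    Fintype.card {x // tl t D x ≠ 0} = Fintype.card {x // D x ≠ 0} :=
  Fintype.card_congr ((Equiv.addRight t).subtypeEquiv fun x => Iff.rfl)

lemma sum_tl (t : ZMod 8) (D G : ZMod 8 → ℤ) (h1 : ∑ x : ZMod 8, (D x - G x) • x = 0)
    (h2 : ∑ x : ZMod 8, D x = ∑ x : ZMod 8, G x) :
    ∑ x : ZMod 8, (tl t D x - tl t G x) • x = 0 := by
  have e1 : ∑ x : ZMod 8, (tl t D x - tl t G x) • x = ∑ x : ZMod 8, (D x - G x) • (x - t) := by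
    rw [← Equiv.sum_comp (Equiv.addRight t) fun x => (D x - G x) • (x - t)]
    refine Finset.sum_congr rfl fun x _ => ?_
    show (D (x + t) - G (x + t)) • x = (D (x + t) - G (x + t)) • (x + t - t)
    rw [add_sub_cancel_right]
  rw [e1]
  have e2 : ∀ x : ZMod 8, (D x - G x) • (x - t) = (D x - G x) • x - (D x - G x) • t := fun x =>
    smul_sub _ _ _
  rw [Finset.sum_congr rfl fun x _ => e2 x, Finset.sum_sub_distrib, h1, ← Finset.sum_smul,
    Finset.sum_sub_distrib, h2, sub_self, zero_smul, sub_zero]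

lemma H8.tl (h : H8 D E G d) (t : ZMod 8) : H8 (tl t D) (tl t E) (tl t G) d where
  toTr := h.toTr.tl t
  rh := by rw [card_tl, card_tl, card_tl]; exact h.rh
  s1 := sum_tl t D G h.s1 (h.sd.trans h.sg.symm)
  s2 := sum_tl t E G h.s2 (h.se.trans h.sg.symm)

lemma Con8.of_tl {t : ZMod 8} (h : Con8 (tl t D) (tl t E) (tl t G)) : Con8 D E G := by
  rcases h with ⟨S, p, q, r, n, h0, h1, h2, h3⟩ | ⟨u, hu⟩
  · left
    have key : ∀ (D : ZMod 8 → ℤ) (p : ZMod 8), (∀ x, UP.tl t D x = n * mz S p x) →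
        ∀ x, D x = n * mz (S + t + t) (p + t) x := by
      intro D p h x
      have := h (x - t)
      unfold UP.tl at this
      rw [sub_add_cancel] at this
      rw [this]
      congr 1
      unfold mz
      have a1 : x - t = p ↔ x = p + t := sub_eq_iff_eq_add
      have a2 : x - t = S - p ↔ x = S + t + t - (p + t) := by
        rw [sub_eq_iff_eq_add]
        have : S - p + t = S + t + t - (p + t) := by abel
        rw [this]
      rw [if_congr a1 rfl rfl, if_congr a2 rfl rfl]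
    exact ⟨S + t + t, p + t, q + t, r + t, n, h0, key D p h1, key E r h2, key G q h3⟩
  · right
    refine ⟨u + t, ?_⟩
    have key : ∀ D : ZMod 8 → ℤ, (fun x => UP.tl t D (x + u)) = fun x => D (x + (u + t)) := by
      intro D
      funext x
      unfold UP.tl
      rw [add_assoc]
    rw [key, key, key] at hu
    exact hu

/-! ### orders -/

lemma sum_symm {D G : ZMod 8 → ℤ} (h : ∑ x : ZMod 8, (D x - G x) • x = 0) :
    ∑ x : ZMod 8, (G x - D x) • x = 0 := by
  have : ∀ x : ZMod 8, (G x - D x) • x = - ((D x - G x) • x) := by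
    intro x
    rw [← neg_smul, neg_sub]
  rw [Finset.sum_congr rfl fun x _ => this x, Finset.sum_neg_distrib, h, neg_zero]

lemma sum_trans {D E G : ZMod 8 → ℤ} (h : ∑ x : ZMod 8, (D x - G x) • x = 0)
    (h' : ∑ x : ZMod 8, (E x - G x) • x = 0) :
    ∑ x : ZMod 8, (D x - E x) • x = 0 := by
  have : ∀ x : ZMod 8, (D x - E x) • x = (D x - G x) • x - (E x - G x) • x := by
    intro x
    rw [← sub_smul]
    congr 1
    ring
  rw [Finset.sum_congr rfl fun x _ => this x, Finset.sum_sub_distrib, h, h', sub_zero]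

lemma H8.rot (h : H8 D E G d) : H8 E G D d where
  toTr := h.toTr.rot
  rh := by have := h.rh; omega
  s1 := sum_symm (sum_trans h.s1 h.s2)
  s2 := sum_symm h.s1

lemma H8.sw (h : H8 D E G d) : H8 D G E d where
  toTr := h.toTr.sw
  rh := by have := h.rh; omega
  s1 := sum_trans h.s1 h.s2
  s2 := sum_symm h.s2

lemma Con8.of_rot (h : Con8 E G D) : Con8 D E G := by
  rcases h with ⟨S, p, q, r, n, h0, h1, h2, h3⟩ | ⟨u, hu⟩
  · exact Or.inl ⟨S, q, r, p, n, h0, h3, h1, h2⟩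
  · right
    refine ⟨u, ?_⟩
    unfold Six at hu ⊢
    tauto

lemma Con8.of_sw (h : Con8 D G E) : Con8 D E G := by
  rcases h with ⟨S, p, q, r, n, h0, h1, h2, h3⟩ | ⟨u, hu⟩
  · exact Or.inl ⟨S, p, r, q, n, h0, h1, h3, h2⟩
  · right
    refine ⟨u, ?_⟩
    unfold Six at hu ⊢
    tauto

lemma lab_sw (h : Tr D E G d) (x : ZMod 8) : lab D G E x = dg 180 (lab D E G x) := by
  have h4 := lab_lt (D := D) (E := E) (G := G) x
  have : lab D E G x = 0 ∨ lab D E G x = 1 ∨ lab D E G x = 2 ∨ lab D E G x = 3 := by omega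
  rcases this with e | e | e | e
  · obtain ⟨a1, a2, a3⟩ := lab0 e
    rw [e]
    unfold lab
    rw [a1, a2, a3]
    rfl
  · rw [e, h.sw.lab1_iff.mpr (h.lab1_iff.mp e)]
    rfl
  · rw [e, h.sw.lab3_iff.mpr (h.lab2_iff.mp e)]
    rfl
  · rw [e, h.sw.lab2_iff.mpr (h.lab3_iff.mp e)]
    rfl

lemma lab_rot (h : Tr D E G d) (x : ZMod 8) : lab E G D x = dg 156 (lab D E G x) := by
  have h4 := lab_lt (D := D) (E := E) (G := G) x
  have : lab D E G x = 0 ∨ lab D E G x = 1 ∨ lab D E G x = 2 ∨ lab D E G x = 3 := by omega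
  rcases this with e | e | e | e
  · obtain ⟨a1, a2, a3⟩ := lab0 e
    rw [e]
    unfold lab
    rw [a1, a2, a3]
    rfl
  · rw [e, h.rot.lab3_iff.mpr (h.lab1_iff.mp e)]
    rfl
  · rw [e, h.rot.lab1_iff.mpr (h.lab2_iff.mp e)]
    rfl
  · rw [e, h.rot.lab2_iff.mpr (h.lab3_iff.mp e)]
    rfl

lemma dg_prm : ∀ v, v < 4 → dg 228 v = v ∧ dg 216 v = dg 180 (dg 156 v) ∧
    dg 120 v = dg 156 (dg 156 v) ∧ dg 108 v = dg 180 (dg 156 (dg 156 v)) := by
  decide +kernel

/-- **the reduction** -/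
theorem H8.red (h : H8 D E G d)
    (key : ∀ {D E G : ZMod 8 → ℤ}, H8 D E G d → ∀ c ∈ can,
      (∀ i : ℕ, i < 8 → lab D E G (i : ZMod 8) = dg c i) → Con8 D E G) : Con8 D E G := by
  obtain ⟨T, hT⟩ := h.toTr.exists_pt
  apply Con8.of_tl (t := T)
  have h' := h.tl T
  have h0 : UP.tl T D 0 ≠ 0 := by
    unfold UP.tl
    rwa [zero_add]
  generalize UP.tl T D = D at *
  generalize UP.tl T E = E at *
  generalize UP.tl T G = G at *
  obtain ⟨t, s, c, hs, hc, hh⟩ := h'.toTr.resB h0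
  apply Con8.of_tl (t := (t : ZMod 8))
  have h'' := h'.tl (t : ZMod 8)
  have hl : ∀ i : ℕ, i < 8 → dg s (lab (UP.tl (t : ZMod 8) D) (UP.tl (t : ZMod 8) E)
      (UP.tl (t : ZMod 8) G) (i : ZMod 8)) = dg c i := fun i hi => (hh i hi).symm
  generalize UP.tl (t : ZMod 8) D = D at *
  generalize UP.tl (t : ZMod 8) E = E at *
  generalize UP.tl (t : ZMod 8) G = G at *
  clear h h' h0 hh
  unfold prm at hs
  simp only [List.mem_cons, List.not_mem_nil, or_false] at hs
  have h4 := fun i : ℕ => lab_lt (D := D) (E := E) (G := G) (i : ZMod 8)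
  rcases hs with rfl | rfl | rfl | rfl | rfl | rfl
  · refine key h'' c hc fun i hi => ?_
    rw [← hl i hi, (dg_prm _ (h4 i)).1]
  · refine (key h''.sw c hc fun i hi => ?_).of_sw
    rw [← hl i hi, lab_sw h''.toTr]
  · refine (key h''.rot.sw c hc fun i hi => ?_).of_sw.of_rot
    rw [← hl i hi, lab_sw h''.rot.toTr, lab_rot h''.toTr, (dg_prm _ (h4 i)).2.1]
  · refine (key h''.rot.rot c hc fun i hi => ?_).of_rot.of_rot
    rw [← hl i hi, lab_rot h''.rot.toTr, lab_rot h''.toTr, (dg_prm _ (h4 i)).2.2.1]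
  · refine (key h''.rot c hc fun i hi => ?_).of_rot
    rw [← hl i hi, lab_rot h''.toTr]
  · refine (key h''.rot.rot.sw c hc fun i hi => ?_).of_sw.of_rot.of_rot
    rw [← hl i hi, lab_sw h''.rot.rot.toTr, lab_rot h''.rot.toTr, lab_rot h''.toTr,
      (dg_prm _ (h4 i)).2.2.2]

end Pool.Agent.UP
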