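import Pool.Agent.Lib_helper40.UP.Tran

/-!
# The three fibres
-/

set_option autoImplicit false
set_option linter.unusedSectionVars false

open scoped TensorProduct

namespace Pool.Agent.UP

open WeierstrassCurve.Affine WithZero Polynomial
open K4M (dx dt ps pc)
open MK4 (FT lg)
open Pool.Agent.TN (lgmul lgdiv lgpow lgneg lg1 lgz V0 lg_mem_V0 lgzpow lginv span_const
  pow_eq_one_of_lg)
open Pool.Agent.UEG
open Pool.Agent.GK

section

variable {k : Type*} [Field k] [DecidableEq k] [CharZero k] {W : WeierstrassCurve.Affine k}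
  {F : Type*} [Field F] [DecidableEq F] [Algebra k F] {X Y : F}

/-- the orders of `w` and of `1 - w` -/
lemma ord_cases {w : W.FunctionField} {m n : ℤ} (hm : v (W := W) w = exp (-m))
    (hn : v (W := W) (1 - w) = exp (-n)) :
    (0 < m ∧ n = 0) ∨ (m < 0 ∧ n = m) ∨ (m = 0 ∧ 0 ≤ n) := by
  rcases lt_trichotomy m 0 with h | h | h
  · right; left
    refine ⟨h, ?_⟩
    have h3 : v (W := W) (1 : W.FunctionField) < v (W := W) w := by
      rw [hm, map_one, ← exp_zero, exp_lt_exp]; omega
    have h4 : v (W := W) (1 - w) = v (W := W) w := Valuation.map_sub_eq_of_lt_right _ h3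
    rw [hn, hm, exp_inj] at h4
    omega
  · right; right
    refine ⟨h, ?_⟩
    have h4 : v (W := W) (1 - w) ≤ 1 := by
      refine (Valuation.map_sub _ _ _).trans (max_le (by rw [map_one]) ?_)
      rw [hm, h, neg_zero, exp_zero]
    rw [hn, ← exp_zero, exp_le_exp] at h4
    omega
  · left
    refine ⟨h, ?_⟩
    have h3 : v (W := W) w < 1 := by rw [hm, ← exp_zero, exp_lt_exp]; omega
    have h4 : v (W := W) (1 - w) = 1 := Valuation.map_one_sub_of_lt _ h3
    rw [hn, exp_eq_one] at h4
    omega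

variable {H : AddSubgroup W.Point} [Fintype H] [DecidableEq H] {lc : W.FunctionField → k}
  (hlc : IsLC W lc) {hg : Gen W X Y}

/-- constants -/
def AC (W : WeierstrassCurve.Affine k) : Prop :=
  ∀ (w : W.FunctionField) (M : ℕ) (c : k), 0 < M → c ≠ 0 → w ^ M = cK c → ∃ c', w = cK c'

include hlc

/-- a function with constant class is constant -/
lemma const_of_unit (hAC : AC W) (hg : Gen W X Y) {f : F} (hf : IsUn H X Y f)
    (h : lg f ∈ V0 k F) : ∃ c : k, c ≠ 0 ∧ f = algebraMap k F c := by
  obtain ⟨m, κ, w, hw⟩ := exists_PU hlc hg hf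
  obtain ⟨N, c, hN, hc, e⟩ := span_const h
  have hc0 : algebraMap k F c ≠ 0 := (_root_.map_ne_zero _).mpr hc
  have e1 : lg (f ^ N / algebraMap k F c) = 0 := by
    rw [lgdiv (pow_ne_zero _ hf.1) hc0, lgpow hf.1, ← e, sub_self]
  obtain ⟨M, hM, e2⟩ := pow_eq_one_of_lg (div_ne_zero (pow_ne_zero _ hf.1) hc0) e1
  rw [div_pow, div_eq_one_iff_eq (pow_ne_zero _ hc0), ← pow_mul, ← map_pow] at e2
  have e3 : w ^ (N * M) = cK (c ^ M) := by
    apply io_inj hg
    rw [map_pow, hw.io, e2, io_c]
  obtain ⟨c', e4⟩ := hAC w (N * M) (c ^ M) (Nat.mul_pos hN hM) (pow_ne_zero _ hc) e3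
  have e5 : f = algebraMap k F c' := by rw [← hw.io, e4, io_c]
  refine ⟨c', ?_, e5⟩
  rintro rfl
  rw [map_zero] at e5
  exact hf.1 e5

/-- the value at a point where `1 - f` vanishes -/
lemma val_one (hg : Gen W X Y) {f : F} (hf : IsUn H X Y f) (hf' : IsUn H X Y (1 - f))
    {m n : H → ℤ} {κ κ' : FT F} {w w' : W.FunctionField} (h : PU H lc hg f m κ w)
    (h' : PU H lc hg (1 - f) n κ' w') (T : H) :
    ((0 < m T ∧ n T = 0) ∨ (m T < 0 ∧ n T = m T) ∨ (m T = 0 ∧ 0 ≤ n T)) ∧
    (0 < n T → κ + ∑ a, (m (a + T) : ℚ) • GG (pp F H) a = 0) ∧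
    (m T < 0 → (κ - κ') + ∑ a, ((m (a + T) - n (a + T) : ℤ) : ℚ) • GG (pp F H) a = 0) := by
  obtain ⟨X', Y', hg', e'⟩ := gen_add hg (-(T : W.Point))
  have e : gp hg' = gp hg + pp F H (-T) := e'
  obtain ⟨u, hu⟩ := PU.tr hlc e hf h
  obtain ⟨u', hu'⟩ := PU.tr hlc e hf' h'
  have eu : u' = 1 - u := by
    apply io_inj hg'
    rw [hu'.io, map_sub, map_one, hu.io]
  subst eu
  have v1 : v (W := W) u = exp (-(m T)) := by rw [hu.v]; congr 2; simp
  have v2 : v (W := W) (1 - u) = exp (-(n T)) := by rw [hu'.v]; congr 2; simp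
  have hcases := ord_cases v1 v2
  refine ⟨hcases, fun hn => ?_, fun hm => ?_⟩
  · have h1 : v (W := W) (1 - u) < 1 := by rw [v2, ← exp_zero, exp_lt_exp]; omega
    have h2 := hu.lc
    rw [hlc.one u h1, map_one, lg1] at h2
    have h3 := smul_eq_zero.mp h2.symm
    rcases h3 with h3 | h3
    · norm_num at h3
    · rw [← h3]
      congr 1
      refine Finset.sum_congr rfl fun a _ => ?_
      rw [sub_neg_eq_add]
  · have hq := hu.mul hlc (hu'.inv hlc)
    have h1 : 1 - u ≠ 0 := hu'.ne
    have h4 : v (W := W) (1 - -(u * (1 - u)⁻¹)) < 1 := by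
      have : 1 - -(u * (1 - u)⁻¹) = (1 - u)⁻¹ := by field_simp; ring
      rw [this, map_inv₀, v2, ← exp_neg, ← exp_zero, exp_lt_exp]
      rcases hcases with h5 | h5 | h5 <;> omega
    have h5 := hlc.one _ h4
    have h6 : lc (u * (1 - u)⁻¹) = 1 := by
      have e1 : -(u * (1 - u)⁻¹) = cK (-1) * (u * (1 - u)⁻¹) := by rw [map_neg, map_one]; ring
      rw [e1, hlc.mul, hlc.c] at h5
      rw [← h5]; ring
    have h2 := hq.lc
    rw [h6, map_one, lg1] at h2
    rcases smul_eq_zero.mp h2.symm with h3 | h3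
    · norm_num at h3
    · rw [← h3, sub_eq_add_neg]
      congr 1
      refine Finset.sum_congr rfl fun a _ => ?_
      congr 2
      simp only [Pi.add_apply, Pi.neg_apply, sub_neg_eq_add]
      ring

omit hlc in
/-- independence gives the relation -/
lemma rel_of (hG : IndG H F) {M : H → ℤ} (hM : ∑ a, M a = 0) {c : FT F} {T T' : H}
    (hT : M T = M T') (h1 : c + ∑ a, (M (a + T) : ℚ) • GG (pp F H) a = 0)
    (h2 : c + ∑ a, (M (a + T') : ℚ) • GG (pp F H) a = 0) (j : H) :
    M (T - j) + M (T + j) = M (T' - j) + M (T' + j) := by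
  have hGn : ∀ b : H, GG (pp F H) (-b) = GG (pp F H) b := (ctx (F := F) H).GG_neg
  set E : H → ℚ := fun a => (M (a + T) : ℚ) + M (-a + T) - M (a + T') - M (-a + T') with hE
  have hneg : ∀ T : H, ∑ a, (M (-a + T) : ℚ) • GG (pp F H) a =
      ∑ a, (M (a + T) : ℚ) • GG (pp F H) a := by
    intro T
    rw [← Equiv.sum_comp (Equiv.neg H)]
    refine Finset.sum_congr rfl fun a _ => ?_
    show (M (- -a + T) : ℚ) • GG (pp F H) (-a) = _
    rw [neg_neg, hGn]
  have hsum : ∀ T : H, ∑ a, (M (a + T) : ℚ) = 0 := by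
    intro T
    have : ((∑ a, M (a + T) : ℤ) : ℚ) = 0 := by
      have e : ∑ a, M (a + T) = ∑ a, M a := Equiv.sum_comp (Equiv.addRight T) M
      rw [e, hM]; norm_num
    push_cast at this
    exact this
  have hsum' : ∀ T : H, ∑ a, (M (-a + T) : ℚ) = 0 := by
    intro T
    rw [← hsum T, ← Equiv.sum_comp (Equiv.neg H)]
    refine Finset.sum_congr rfl fun a _ => ?_
    show (M (- -a + T) : ℚ) = _
    rw [neg_neg]
  have h0 := hG E (by
      simp only [hE, zero_add, neg_zero]
      rw [hT]; ring) (fun a => by simp only [hE, neg_neg]; ring) (by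
      simp only [hE, Finset.sum_sub_distrib, Finset.sum_add_distrib, hsum, hsum']
      ring) (by
      simp only [hE, sub_smul, add_smul, Finset.sum_sub_distrib, Finset.sum_add_distrib, hneg]
      have e : ∑ a, (M (a + T) : ℚ) • GG (pp F H) a = ∑ a, (M (a + T') : ℚ) • GG (pp F H) a :=
        add_left_cancel (h1.trans h2.symm)
      rw [e]
      abel)
  have h3 := congrFun h0 j
  simp only [hE, Pi.zero_apply] at h3
  have h4 : ((M (T - j) + M (T + j) : ℤ) : ℚ) = ((M (T' - j) + M (T' + j) : ℤ) : ℚ) := by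
    have a1 : T - j = -j + T := by abel
    have a2 : T + j = j + T := by abel
    have a3 : T' - j = -j + T' := by abel
    have a4 : T' + j = j + T' := by abel
    rw [a1, a2, a3, a4]
    push_cast
    linarith
  exact_mod_cast h4

/-- **the three fibres** -/
theorem tr_of (hG : IndG H F) (hg : Gen W X Y) {f : F} (hf : IsUn H X Y f)
    (hf' : IsUn H X Y (1 - f)) {m n : H → ℤ} {κ κ' : FT F} {w w' : W.FunctionField}
    (h : PU H lc hg f m κ w) (h' : PU H lc hg (1 - f) n κ' w') (hm : m ≠ 0) :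
    Tr (fun x => max (m x) 0) (fun x => max (n x) 0) (fun x => max (-(m x)) 0)
      (∑ x, max (m x) 0) := by
  have hV := val_one hlc hg hf hf' h h'
  have hf'' : IsUn H X Y (1 - (1 - f)) := by rw [sub_sub_cancel]; exact hf
  have h'' : PU H lc hg (1 - (1 - f)) m κ w := by rw [sub_sub_cancel]; exact h
  have hV' := val_one hlc hg hf' hf'' h' h''
  have d1 : ∀ x, max (m x) 0 - max (-(m x)) 0 = m x := fun x => by
    rcases (hV x).1 with a | a | a <;> omega
  have d2 : ∀ x, max (n x) 0 - max (-(m x)) 0 = n x := fun x => by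
    rcases (hV x).1 with a | a | a <;> omega
  have s1 : ∑ x, max (-(m x)) 0 = ∑ x, max (m x) 0 := by
    have : ∑ x, (max (m x) 0 - max (-(m x)) 0) = 0 := by
      rw [Finset.sum_congr rfl fun x _ => d1 x, h.s0]
    rw [Finset.sum_sub_distrib] at this
    linarith
  have s2 : ∑ x, max (n x) 0 = ∑ x, max (m x) 0 := by
    have : ∑ x, (max (n x) 0 - max (-(m x)) 0) = 0 := by
      rw [Finset.sum_congr rfl fun x _ => d2 x, h'.s0]
    rw [Finset.sum_sub_distrib, s1] at this
    linarith
  refine ⟨fun x => le_max_right _ _, fun x => le_max_right _ _, fun x => le_max_right _ _,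
    ?_, ?_, ?_, rfl, s2, s1, ?_, ?_, ?_, ?_⟩
  · intro x hx
    rcases (hV x).1 with a | a | a <;> omega
  · intro x hx
    rcases (hV x).1 with a | a | a <;> omega
  · intro x hx
    rcases (hV x).1 with a | a | a <;> omega
  · -- positive
    by_contra h0
    push Not at h0
    have z1 : ∀ x, max (m x) 0 = 0 := by
      intro x
      have := (Finset.sum_eq_zero_iff_of_nonneg (fun x _ => le_max_right (m x) 0)).mp
        (le_antisymm h0 (Finset.sum_nonneg fun x _ => le_max_right _ _)) x (Finset.mem_univ _)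
      exact this
    have z2 : ∀ x, max (-(m x)) 0 = 0 := by
      intro x
      have := (Finset.sum_eq_zero_iff_of_nonneg (fun x _ => le_max_right (-(m x)) 0)).mp
        (le_antisymm (s1 ▸ h0) (Finset.sum_nonneg fun x _ => le_max_right _ _)) x
        (Finset.mem_univ _)
      exact this
    apply hm
    funext x
    have := z1 x
    have := z2 x
    simp only [Pi.zero_apply]
    omega
  · -- zeros of `f`
    intro T T' hT hT' j
    simp only [d2]
    have a1 : 0 < m T := by
      simp only at hT; omega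
    have a2 : 0 < m T' := by
      simp only at hT'; omega
    refine rel_of hG h'.s0 ?_ ((hV' T).2.1 a1) ((hV' T').2.1 a2) j
    rcases (hV T).1 with b | b | b <;> rcases (hV T').1 with c | c | c <;> omega
  · intro T T' hT hT' j
    have a1 : 0 < n T := by
      simp only at hT; omega
    have a2 : 0 < n T' := by
      simp only at hT'; omega
    have := rel_of hG h.s0 (by
      rcases (hV T).1 with b | b | b <;> rcases (hV T').1 with c | c | c <;> omega)
      ((hV T).2.1 a1) ((hV T').2.1 a2) j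
    have d3 : ∀ x, max (-(m x)) 0 - max (m x) 0 = - m x := fun x => by
      have := d1 x; omega
    simp only [d3]
    omega
  · intro T T' hT hT' j
    have a1 : m T < 0 := by
      simp only at hT; omega
    have a2 : m T' < 0 := by
      simp only at hT'; omega
    have d3 : ∀ x, max (m x) 0 - max (n x) 0 = m x - n x := fun x => by
      have := d1 x; have := d2 x; omega
    simp only [d3]
    refine rel_of (M := fun x => m x - n x) hG (by
      rw [Finset.sum_sub_distrib, h.s0, h'.s0, sub_zero]) ?_ ((hV T).2.2 a1) ((hV T').2.2 a2) j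
    rcases (hV T).1 with b | b | b <;> rcases (hV T').1 with c | c | c <;> omega

end

end Pool.Agent.UP
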