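import Pool.Agent.Lib_helper40.UP.Div

/-!
# Translations
-/

set_option autoImplicit false
set_option linter.unusedSectionVars false

open scoped TensorProduct

namespace Pool.Agent.UP

open WeierstrassCurve.Affine WithZero Polynomial
open K4M (dx dt ps pc)
open MK4 (FT lg)
open Pool.Agent.TN (lgmul lgdiv lgpow lgneg lg1 lgz V0 lg_mem_V0 lgzpow lginv)
open Pool.Agent.UEG
open Pool.Agent.GK

section

variable {k : Type*} [Field k] [DecidableEq k] [CharZero k] {W : WeierstrassCurve.Affine k}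
  {F : Type*} [Field F] [DecidableEq F] [Algebra k F] {X Y X' Y' : F}
variable {H : AddSubgroup W.Point}

lemma mx : X ∈ RR H X Y := Algebra.subset_adjoin (Or.inl (Or.inl rfl))
lemma my : Y ∈ RR H X Y := Algebra.subset_adjoin (Or.inl (Or.inr rfl))
lemma mi {a b : k} (hab : inH H a b) : (X - algebraMap k F a)⁻¹ ∈ RR H X Y :=
    Algebra.subset_adjoin (Or.inr ⟨_, _, hab, rfl⟩)
lemma mc (c : k) : algebraMap k F c ∈ RR H X Y := Subalgebra.algebraMap_mem _ c

/-- the brackets -/
lemma dx_mem (hg : Gen W X Y) {R : W.Point} (hR : R ∈ H) :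
    dx (gp hg) (bc F W R) ∈ RR H X Y ∧ (dx (gp hg) (bc F W R))⁻¹ ∈ RR H X Y := by
  rcases R with _ | ⟨a, b, h⟩
  · have e : dx (gp hg) (bc F W (Point.zero : W.Point)) = -1 := by
      show X * 0 - 1 * 1 = (-1 : F)
      ring
    rw [e]
    constructor
    · exact neg_mem (one_mem _)
    · rw [inv_neg, inv_one]; exact neg_mem (one_mem _)
  · rw [dx_gp hg h]
    exact ⟨sub_mem mx (mc a), mi ⟨h, hR⟩⟩

/-- the coordinates of a translate -/
lemma xy_mem (hg : Gen W X Y) {T : W.Point} (hT : T ∈ H) (hg' : Gen W X' Y')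
    (e : gp hg' = gp hg + bc F W T) : X' ∈ RR H X Y ∧ Y' ∈ RR H X Y := by
  rcases T with _ | ⟨a, b, h⟩
  · have e0 : bc F W (Point.zero : W.Point) = 0 := rfl
    rw [e0, add_zero] at e
    have e1 : X' = X ∧ Y' = Y := by
      have := (Point.some.injEq _ _ _ _ _ _).mp e
      exact this
    rw [e1.1, e1.2]
    exact ⟨mx, my⟩
  · have hne : X ≠ algebraMap k F a := fun h' => hg.x_sub_ne a (by rw [h', sub_self])
    have hxy : ¬(X = algebraMap k F a ∧ Y = (WF F W).negY (algebraMap k F a)
        (algebraMap k F b)) := fun h' => hne h'.1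
    have e0 : gp hg + bc F W (Point.some a b h) = _ := Point.add_some hxy
      (h₁ := hg.ns) (h₂ := (WeierstrassCurve.Affine.map_nonsingular W (inj k F) _ _).mpr h)
    rw [e0] at e
    have e1 := (Point.some.injEq _ _ _ _ _ _).mp e
    have hs : (WF F W).slope X (algebraMap k F a) Y (algebraMap k F b) ∈ RR H X Y := by
      rw [slope_of_X_ne hne, div_eq_mul_inv]
      exact mul_mem (sub_mem my (mc b)) (mi ⟨h, hT⟩)
    have a1 : (WF F W).a₁ = algebraMap k F W.a₁ := rfl
    have a2 : (WF F W).a₂ = algebraMap k F W.a₂ := rfl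
    have a3 : (WF F W).a₃ = algebraMap k F W.a₃ := rfl
    have hX : (WF F W).addX X (algebraMap k F a)
        ((WF F W).slope X (algebraMap k F a) Y (algebraMap k F b)) ∈ RR H X Y := by
      unfold addX
      rw [a1, a2]
      exact sub_mem (sub_mem (sub_mem (add_mem (pow_mem hs 2) (mul_mem (mc _) hs)) (mc _)) mx)
        (mc a)
    rw [e1.1, e1.2]
    refine ⟨hX, ?_⟩
    unfold addY negAddY negY
    rw [a1, a3]
    exact sub_mem (sub_mem (neg_mem (add_mem (mul_mem hs (sub_mem hX mx)) my))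
      (mul_mem (mc _) hX)) (mc _)

/-- **the functions supported on `H` do not depend on the origin** -/
lemma RR_le (hg : Gen W X Y) {T : W.Point} (hT : T ∈ H) (hg' : Gen W X' Y')
    (e : gp hg' = gp hg + bc F W T) : RR H X' Y' ≤ RR H X Y := by
  obtain ⟨h1, h2⟩ := xy_mem hg hT hg' e
  apply Algebra.adjoin_le
  rintro z ((rfl | hz) | ⟨a, b, ⟨h, hH⟩, rfl⟩)
  · exact h1
  · rw [Set.mem_singleton_iff.mp hz]; exact h2
  · obtain ⟨δ, hδ, e1⟩ := par_gen hg T (Point.some a b h) (Point.some_ne_zero _)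
    obtain ⟨X'', Y'', hg'', e''⟩ := gen_add hg (-T)
    have e2 : gp hg'' = gp hg + bc F W (-T) := e''
    have h3 := (xy_mem hg (H.neg_mem hT) hg'' e2).1
    have e3 : dx (zz hg + bc F W T) (bc F W (Point.some a b h)) = X' - algebraMap k F a := by
      have : zz hg + bc F W T = gp hg' := e.symm
      rw [this]
      exact dx_gp hg' h
    have e4 : dx (zz hg - bc F W T) (bc F W (Point.some a b h)) = X'' - algebraMap k F a := by
      have : zz hg - bc F W T = gp hg'' := by rw [e2, map_neg, sub_eq_add_neg]; rfl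
      rw [this]
      exact dx_gp hg'' h
    rw [e3, e4] at e1
    have m1 := dx_mem hg hT
    have m2 := dx_mem hg (H.add_mem hT hH)
    have m3 := dx_mem hg (H.sub_mem hT hH)
    have n1 : algebraMap k F δ ≠ 0 := (_root_.map_ne_zero _).mpr hδ
    have n2 := D_ne hg (T + Point.some a b h)
    have n3 := D_ne hg (T - Point.some a b h)
    have n4 := hg'.x_sub_ne a
    have e5 : (X' - algebraMap k F a)⁻¹ = (X'' - algebraMap k F a) *
        dx (gp hg) (bc F W T) ^ 2 * (algebraMap k F δ⁻¹ *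
          ((dx (gp hg) (bc F W (T + Point.some a b h)))⁻¹ *
            (dx (gp hg) (bc F W (T - Point.some a b h)))⁻¹)) := by
      rw [inv_eq_iff_eq_inv, ← mul_inv, map_inv₀, ← mul_inv]
      have n2' : dx (gp hg) (bc F W (T + Point.some a b h)) ≠ 0 := n2
      have n3' : dx (gp hg) (bc F W (T - Point.some a b h)) ≠ 0 := n3
      have e6 : (X' - algebraMap k F a) * ((X'' - algebraMap k F a) *
          dx (gp hg) (bc F W T) ^ 2) = algebraMap k F δ *
          (dx (gp hg) (bc F W (T + Point.some a b h)) *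
            dx (gp hg) (bc F W (T - Point.some a b h))) := by
        have e7 := e1
        have z1 : zz hg = gp hg := rfl
        rw [z1] at e7
        rw [← e7]; ring
      have n5 : (X'' - algebraMap k F a) * dx (gp hg) (bc F W T) ^ 2 ≠ 0 := by
        intro h0
        rw [h0, mul_zero] at e6
        exact mul_ne_zero n1 (mul_ne_zero n2' n3') e6.symm
      rw [← e6, mul_inv, inv_inv, mul_inv]
      have n6 : X'' - algebraMap k F a ≠ 0 := (mul_ne_zero_iff.mp n5).1
      have n7 : dx (gp hg) (bc F W T) ≠ 0 := (pow_ne_zero_iff two_ne_zero).mp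
        (mul_ne_zero_iff.mp n5).2
      field_simp
    rw [e5]
    exact mul_mem (mul_mem (sub_mem h3 (mc a)) (pow_mem m1.1 2)) (mul_mem (mc _)
      (mul_mem m2.2 m3.2))

lemma IsUn_tr (hg : Gen W X Y) {T : W.Point} (hT : T ∈ H) (hg' : Gen W X' Y')
    (e : gp hg' = gp hg + bc F W T) {f : F} (hf : IsUn H X Y f) : IsUn H X' Y' f := by
  have e' : gp hg = gp hg' + bc F W (-T) := by rw [e, map_neg, add_neg_cancel_right]
  have h := RR_le hg' (H.neg_mem hT) hg e'
  exact ⟨hf.1, h hf.2.1, h hf.2.2⟩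

variable [Fintype H] [DecidableEq H] {lc : W.FunctionField → k} (hlc : IsLC W lc)

include hlc

/-- **the divisor of a translate** -/
theorem PU.tr {hg : Gen W X Y} {T : H} {hg' : Gen W X' Y'}
    (e : gp hg' = gp hg + pp F H T) {f : F} (hf : IsUn H X Y f) {m : H → ℤ} {κ : FT F}
    {w : W.FunctionField} (h : PU H lc hg f m κ w) :
    ∃ w', PU H lc hg' f (fun a => m (a - T)) κ w' := by
  obtain ⟨m', κ', w', h'⟩ := exists_PU hlc hg' (IsUn_tr hg T.2 hg' e hf)
  have e1 : ∑ a, (m' a : ℚ) • gg (pp F H) (gp hg' - pp F H a) =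
      ∑ a, (m' (a + T) : ℚ) • gg (pp F H) (gp hg - pp F H a) := by
    rw [← Equiv.sum_comp (Equiv.addRight T)]
    refine Finset.sum_congr rfl fun a _ => ?_
    show (m' (a + T) : ℚ) • gg (pp F H) (gp hg' - pp F H (a + T)) = _
    congr 2
    rw [e, map_add]; abel
  have s0 : ∑ a, m' (a + T) = 0 := by
    rw [← h'.s0]
    exact Equiv.sum_comp (Equiv.addRight T) m'
  have hw : m = (fun a => m' (a + T)) ∧ κ = κ' := h.unique_lg s0 h'.κV (by
    rw [← e1]; exact h'.lg)
  obtain ⟨hm, hκ⟩ := hw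
  refine ⟨w', ?_⟩
  have : m' = fun a => m (a - T) := by
    funext a
    rw [hm]
    show m' a = m' (a - T + T)
    rw [sub_add_cancel]
  rw [← this, hκ]
  exact h'

end

end Pool.Agent.UP
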