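import Pool.Agent.Lib_helper40.UP.Rel

/-!
# Powers of the quotients of lines
-/

set_option autoImplicit false
set_option linter.unusedSectionVars false

open scoped TensorProduct

namespace Pool.Agent.UP

open WeierstrassCurve.Affine WithZero Polynomial
open K4M (dx dt ps pc)
open MK4 (FT lg)
open Pool.Agent.TN (lgmul lgdiv lgpow lgneg lg1 lgz V0 lg_mem_V0 lgzpow lginv span_const
  pow_eq_one_of_lg)
open Pool.Agent.UEG
open Pool.Agent.GK
open FK4 (LineS Supp supp_iff)

section

variable {k : Type*} [Field k] [DecidableEq k] [CharZero k] {W : WeierstrassCurve.Affine k}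
  {F : Type*} [Field F] [DecidableEq F] [Algebra k F] {X Y : F}
variable {H : AddSubgroup W.Point} [Fintype H] [DecidableEq H]

/-- the functions `lamH` are quotients of lines -/
lemma lamH_lineS (hg : Gen W X Y) {S p q r : H} (hn : Nd S p q r) :
    LineS H X Y (lamH H hg S p q r) := by
  obtain ⟨n1, n2, n3, n4, n5, n6⟩ := hn
  have key : ∀ {p q : H}, p ≠ q → p ≠ S - q →
      FK4.dd (FK4.vv (-(S : W.Point)) p) (FK4.vv (-(S : W.Point)) q) ≠ 0 := by
    intro p q h1 h2 h0
    have h3 := (ctx (F := F) H).bk_zero_iff (gp_nmem hg) S p q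
    have h4 : bk (-pp F H S) (pp F H p) (pp F H q) = 0 := by
      have : bk (bc F W (-(S : W.Point))) (bc F W p) (bc F W q) =
          algebraMap k F (bk (-(S : W.Point)) p q) := bk_bc _ _ _
      rw [bk_eq (-(S : W.Point)), h0, map_zero, map_neg] at this
      exact this
    rcases h3.mp h4 with h5 | h5
    · exact h1 h5
    · exact h2 h5
  have h := FK4.cr4_lineS (F := F) hg hg.ns (H.neg_mem S.2) p.2 q.2 r.2 (key n1 n2) (key n5 n6)
    (key n3 n4)
  have e : lamH H hg S p q r = FK4.cr4 (bc F W (-(S : W.Point))) (.some X Y hg.ns) (bc F W p)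
      (bc F W q) (bc F W r) := by
    unfold lamH lamD DD FK4.cr4
    simp only [← bk_eq, map_neg]
    rfl
  rw [e]
  exact h

lemma IsUn.mul (hg : Gen W X Y) {f g : F} (hf : IsUn H X Y f) (hg' : IsUn H X Y g) :
    IsUn H X Y (f * g) := (good_IsUn hg).hm _ _ hf hg'

lemma IsUn.inv (hg : Gen W X Y) {f : F} (hf : IsUn H X Y f) : IsUn H X Y f⁻¹ :=
  (good_IsUn hg).hi _ hf

lemma IsUn.pow (hg : Gen W X Y) {f : F} (hf : IsUn H X Y f) (n : ℕ) : IsUn H X Y (f ^ n) := by
  induction n with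
  | zero =>
    rw [pow_zero]
    have := (good_IsUn (H := H) hg).hc 1 one_ne_zero
    rwa [map_one, map_one] at this
  | succ n ih => rw [pow_succ]; exact IsUn.mul hg ih hf

variable {lc : W.FunctionField → k} (hlc : IsLC W lc)

lemma sum_mz_smul {V : Type*} [AddCommGroup V] [Module ℚ V] (S x : H) (g : H → V) :
    ∑ c, (mz S x c : ℚ) • g c = g x + g (S - x) := by
  unfold mz
  have : ∀ c : H, (((if c = x then 1 else 0) + (if c = S - x then 1 else 0) : ℤ) : ℚ) • g c =
      (if c = x then g c else 0) + (if c = S - x then g c else 0) := by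
    intro c
    push_cast
    split_ifs <;> module
  rw [Finset.sum_congr rfl fun a _ => this a, Finset.sum_add_distrib, Finset.sum_ite_eq',
    Finset.sum_ite_eq', if_pos (Finset.mem_univ _), if_pos (Finset.mem_univ _)]

include hlc

/-- a function whose divisor is a multiple of the divisor of a cross ratio -/
lemma eq_pow (hAC : AC W) (hg : Gen W X Y) {f : F} (hf : IsUn H X Y f) {m : H → ℤ} {κ : FT F}
    {w : W.FunctionField} (h : PU H lc hg f m κ w) {S p q : H} {n : ℕ}
    (hm : ∀ x, m x = n * (mz S p x - mz S q x)) {g : F} (hgu : IsUn H X Y g)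
    (hgl : ∃ κ' ∈ V0 k F, lg g = th (pp F H) (gp hg) p + th (pp F H) (gp hg) (S - p) -
      th (pp F H) (gp hg) q - th (pp F H) (gp hg) (S - q) - κ') :
    ∃ c : k, c ≠ 0 ∧ f = algebraMap k F c * g ^ n := by
  obtain ⟨κ', hκ', hl⟩ := hgl
  have e1 : ∑ a, (m a : ℚ) • gg (pp F H) (gp hg - pp F H a) =
      (n : ℚ) • (th (pp F H) (gp hg) p + th (pp F H) (gp hg) (S - p) -
      th (pp F H) (gp hg) q - th (pp F H) (gp hg) (S - q)) := by
    have e2 : ∀ a, (m a : ℚ) • gg (pp F H) (gp hg - pp F H a) =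
        (n : ℚ) • ((mz S p a : ℚ) • gg (pp F H) (gp hg - pp F H a) -
          (mz S q a : ℚ) • gg (pp F H) (gp hg - pp F H a)) := by
      intro a
      rw [hm]
      push_cast
      module
    rw [Finset.sum_congr rfl fun a _ => e2 a, ← Finset.smul_sum, Finset.sum_sub_distrib,
      sum_mz_smul, sum_mz_smul]
    unfold th
    module
  have e2 : lg (f * (g ^ n)⁻¹) ∈ V0 k F := by
    rw [lgmul hf.1 (inv_ne_zero (pow_ne_zero _ hgu.1)), lginv, lgpow hgu.1, h.lg, e1, hl]
    have : κ + (n : ℚ) • (th (pp F H) (gp hg) p + th (pp F H) (gp hg) (S - p) -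
        th (pp F H) (gp hg) q - th (pp F H) (gp hg) (S - q)) +
        -((n : ℚ) • (th (pp F H) (gp hg) p + th (pp F H) (gp hg) (S - p) -
          th (pp F H) (gp hg) q - th (pp F H) (gp hg) (S - q) - κ')) = κ + (n : ℚ) • κ' := by
      module
    rw [this]
    exact Submodule.add_mem _ h.κV (Submodule.smul_mem _ _ hκ')
  obtain ⟨c, hc, e3⟩ := const_of_unit hlc hAC hg
    (IsUn.mul hg hf (IsUn.inv hg (IsUn.pow hg hgu n))) e2
  refine ⟨c, hc, ?_⟩
  rw [← e3, mul_assoc, inv_mul_cancel₀ (pow_ne_zero _ hgu.1), mul_one]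

/-- the pure powers -/
def Powers (k F : Type*) [Field k] [Field F] [Algebra k F] : Prop :=
  ∀ (lam : F) (c c' : k) (n : ℕ), Transcendental k lam → c ≠ 0 → c' ≠ 0 → 0 < n →
    algebraMap k F c * lam ^ n + algebraMap k F c' * (1 - lam) ^ n = 1 → n = 1 ∧ c = 1

/-- **three orbits** -/
theorem case_two (hAC : AC W) (hP : Powers k F) (hg : Gen W X Y) {f : F} (hf : IsUn H X Y f)
    (hf' : IsUn H X Y (1 - f)) {m n : H → ℤ} {κ κ' : FT F} {w w' : W.FunctionField}
    (h : PU H lc hg f m κ w) (h' : PU H lc hg (1 - f) n κ' w') {S p q r : H} {N : ℤ} (hN : 0 < N)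
    (hn : Nd S p q r) (h1 : ∀ x, m x = N * (mz S p x - mz S q x))
    (h2 : ∀ x, n x = N * (mz S r x - mz S q x)) : LineS H X Y f := by
  obtain ⟨M, rfl⟩ := Int.eq_ofNat_of_zero_le hN.le
  have hM : 0 < M := by exact_mod_cast hN
  have hL := lamH_lineS hg hn
  have hLu := supp_iff.mp hL.supp.1
  have hLu' := supp_iff.mp hL.supp.2
  have : CharZero F := charZero_of_injective_algebraMap (algebraMap k F).injective
  have hF := (sysH H hg).fam
  have hGV : ∀ a, GG (pp F H) a ∈ V0 k F := hF.GV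
  obtain ⟨c, hc, e1⟩ := eq_pow hlc hAC hg hf h (n := M) h1 hLu ⟨_, by
    exact Submodule.sub_mem _ (Submodule.sub_mem _ (Submodule.add_mem _ (hGV _) (hGV _)) (hGV _))
      (hGV _), hF.lg0 S p q r hn⟩
  obtain ⟨c', hc', e2⟩ := eq_pow hlc hAC hg hf' h' (n := M) h2 hLu' ⟨_, by
    exact Submodule.sub_mem _ (Submodule.sub_mem _ (Submodule.add_mem _ (hGV _) (hGV _)) (hGV _))
      (hGV _), hF.lg1 S p q r hn⟩
  have htr : Transcendental k (lamH H hg S p q r) := (sysH H hg).tr S p q r hn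
  have e3 : algebraMap k F c * (lamH H hg S p q r) ^ M +
      algebraMap k F c' * (1 - lamH H hg S p q r) ^ M = 1 := by
    rw [← e1, ← e2]; ring
  obtain ⟨h3, h4⟩ := hP _ c c' M htr hc hc' hM e3
  rw [e1, h3, h4, map_one, one_mul, pow_one]
  exact hL

end

end Pool.Agent.UP
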